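import Pool.Agent.Work.MP_1ce445_lin.Interface2

/-!
# Block KOE (MP_1ce445_co, theorem LR2): integer version of the theorem of Birkhoff and Koenig (helper94)
-/

namespace Pool.Agent.Work.MP_1ce445_lin

open Finset Pool.Agent.Work.MP_1ce445_co_56

/-- a matrix with constant positive row and column sums has a transversal of nonzero entries -/
theorem KOE_step {α β : Type} [Fintype α] [Fintype β] [DecidableEq α] [DecidableEq β] (k : ℕ)
    (N : α → β → ℕ) (hc : Fintype.card α = Fintype.card β) (hk : 0 < k)
    (hr : ∀ a, ∑ b, N a b = k) (hcol : ∀ b, ∑ a, N a b = k) :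
    ∃ e : α ≃ β, ∀ a, N a (e a) ≠ 0 := by
  have hall : ∀ s : Finset α, s.card ≤ (s.biUnion fun a => univ.filter fun b => N a b ≠ 0).card := by
    intro s
    set t := s.biUnion fun a => univ.filter fun b => N a b ≠ 0 with ht
    have h1 : k * s.card = ∑ a ∈ s, ∑ b ∈ t, N a b := by
      have : ∀ a ∈ s, ∑ b ∈ t, N a b = k := by
        intro a ha
        rw [← hr a]
        apply Finset.sum_subset (Finset.subset_univ t)
        intro b _ hb
        by_contra hne
        apply hb
        rw [ht, Finset.mem_biUnion]
        exact ⟨a, ha, by simp [hne]⟩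
      rw [Finset.sum_congr rfl this, Finset.sum_const, smul_eq_mul, mul_comm]
    have h2 : ∑ a ∈ s, ∑ b ∈ t, N a b ≤ k * t.card := by
      rw [Finset.sum_comm]
      calc ∑ b ∈ t, ∑ a ∈ s, N a b ≤ ∑ b ∈ t, k := by
            apply Finset.sum_le_sum
            intro b _
            rw [← hcol b]
            exact Finset.sum_le_sum_of_subset (Finset.subset_univ s)
        _ = k * t.card := by rw [Finset.sum_const, smul_eq_mul, mul_comm]
    have h3 : k * s.card ≤ k * t.card := h1 ▸ h2
    exact Nat.le_of_mul_le_mul_left h3 hk
  obtain ⟨f, hf, hf'⟩ := (Finset.all_card_le_biUnion_card_iff_exists_injective _).1 hall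
  have hb : Function.Bijective f := (Fintype.bijective_iff_injective_and_card f).2 ⟨hf, hc⟩
  refine ⟨Equiv.ofBijective f hb, fun a => ?_⟩
  have := hf' a
  simpa using this

/-- the theorem by induction on `k` -/
theorem KOE_main {α β : Type} [Fintype α] [Fintype β] [DecidableEq α] [DecidableEq β]
    (hc : Fintype.card α = Fintype.card β) (k : ℕ) : ∀ N : α → β → ℕ,
    (∀ a, ∑ b, N a b = k) → (∀ b, ∑ a, N a b = k) →
    ∃ π : Fin k → (α ≃ β), ∀ a b, N a b = (univ.filter (fun x => π x a = b)).card := by
  induction k with
  | zero =>
    intro N hr _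
    refine ⟨fun x => Fin.elim0 x, fun a b => ?_⟩
    have h := (Finset.sum_eq_zero_iff.1 (hr a)) b (Finset.mem_univ b)
    rw [h]
    simp
  | succ k ih =>
    intro N hr hcol
    obtain ⟨e, he⟩ := KOE_step (k + 1) N hc (Nat.succ_pos k) hr hcol
    have hN : ∀ a b, N a b = (N a b - if e a = b then 1 else 0) + if e a = b then 1 else 0 := by
      intro a b
      by_cases h : e a = b
      · have := he a
        rw [h] at this
        simp only [h, if_true]
        omega
      · simp [h]
    obtain ⟨π, hπ⟩ := ih (fun a b => N a b - if e a = b then 1 else 0)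
      (by
        intro a
        have h1 := hr a
        rw [Finset.sum_congr rfl (fun b _ => hN a b), Finset.sum_add_distrib] at h1
        have h2 : (∑ b, if e a = b then 1 else 0 : ℕ) = 1 := by simp
        rw [h2] at h1
        exact Nat.succ.inj h1)
      (by
        intro b
        have h1 := hcol b
        rw [Finset.sum_congr rfl (fun a _ => hN a b), Finset.sum_add_distrib] at h1
        have h2 : (∑ a, if e a = b then 1 else 0 : ℕ) = 1 := by
          have h3 : ∀ a, (if e a = b then 1 else 0 : ℕ) = if a = e.symm b then 1 else 0 := by
            intro a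
            by_cases h : e a = b
            · subst h
              simp
            · have h' : a ≠ e.symm b := by
                intro h'
                apply h
                rw [h', Equiv.apply_symm_apply]
              simp [h, h']
          rw [Finset.sum_congr rfl (fun a _ => h3 a)]
          simp
        rw [h2] at h1
        exact Nat.succ.inj h1)
    refine ⟨Fin.cons e π, fun a b => ?_⟩
    rw [hN a b]
    have h1 := hπ a b
    rw [h1, Finset.card_filter, Finset.card_filter, Fin.sum_univ_succ, add_comm]
    simp

theorem stmt_KOE : Stmt_KOE := by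
  intro α β _ _ _ _ k N hc hr hcol
  exact KOE_main hc k N hr hcol

end Pool.Agent.Work.MP_1ce445_lin
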