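import Pool.Agent.Work.MP_1ce445_lin.Interface

/-!
Block INC: the inequality for set systems.
-/

namespace Pool.Agent.Work.MP_1ce445_lin

open Finset Pool.Agent.Work.MP_1ce445_co_56

lemma INC_amgm {ι : Type*} (A : Finset ι) (z : ι → ℝ) (hz : ∀ j ∈ A, 0 ≤ z j) (hA : 0 < A.card) :
    ∏ j ∈ A, z j ≤ ((∑ j ∈ A, z j) / A.card) ^ A.card := by
  have hA' : (0 : ℝ) < A.card := by exact_mod_cast hA
  have h1 := Real.geom_mean_le_arith_mean_weighted A (fun _ => (1 : ℝ) / A.card) z
    (fun _ _ => by positivity) (by
      rw [sum_const, nsmul_eq_mul]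
      field_simp) hz
  have h2 : ∏ j ∈ A, z j = (∏ j ∈ A, z j ^ ((1 : ℝ) / A.card)) ^ A.card := by
    rw [← prod_pow]
    refine prod_congr rfl fun j hj => ?_
    rw [← Real.rpow_natCast, ← Real.rpow_mul (hz j hj)]
    rw [one_div, inv_mul_cancel₀ hA'.ne', Real.rpow_one]
  rw [h2]
  refine pow_le_pow_left₀ (prod_nonneg fun j hj => Real.rpow_nonneg (hz j hj) _) ?_ _
  refine h1.trans (le_of_eq ?_)
  rw [← mul_sum]
  ring

lemma INC_count {n k : ℕ} (B : Finset (Fin k)) (T : Fin n → Finset (Fin k)) :
    ∑ j ∈ B, ((univ.filter (fun v => j ∈ T v)).card : ℝ) = ∑ v, ((T v ∩ B).card : ℝ) := by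
  have h1 : ∀ j ∈ B, ((univ.filter (fun v => j ∈ T v)).card : ℝ)
      = ∑ v : Fin n, (if j ∈ T v then (1 : ℝ) else 0) := by
    intro j _
    rw [sum_boole]
  rw [sum_congr rfl h1, sum_comm]
  refine sum_congr rfl fun v _ => ?_
  rw [sum_boole]
  congr 2
  ext j
  simp only [mem_filter, mem_inter]
  tauto

theorem stmt_INC (hINA : Stmt_INA) : Stmt_INC := by
  intro n k m M T s D Vg hn hm hT hs hs1 hD hD1 hVg hVD
  classical
  have hn' : (0 : ℝ) < n := by exact_mod_cast hn
  set p : Fin k → ℝ := fun j => ((univ.filter (fun v => j ∈ T v)).card : ℝ) / n with hp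
  have hp0 : ∀ j, 0 ≤ p j := fun j => by simp only [hp]; positivity
  have hp1 : ∀ j, p j ≤ 1 := fun j => by
    simp only [hp]
    rw [div_le_one hn']
    have : (univ.filter (fun v => j ∈ T v)).card ≤ n := by
      calc _ ≤ (univ : Finset (Fin n)).card := card_le_card (filter_subset _ _)
        _ = n := by simp
    exact_mod_cast this
  set A : Finset (Fin k) := M.filter (fun j => ∃ v ∈ Vg, T v = {j}) with hA
  have hAM : A ⊆ M := filter_subset _ _
  have hAD : ∀ j ∈ A, D ≤ p j := by
    intro j hj
    obtain ⟨v, hv, hTv⟩ := (mem_filter.1 hj).2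
    have h1 := hVD v hv
    have h2 : (univ.filter (fun w => T v ∩ T w ≠ ∅)) = univ.filter (fun w => j ∈ T w) := by
      ext w
      simp only [mem_filter, mem_univ, true_and]
      rw [hTv]
      constructor
      · intro h
        by_contra hj'
        apply h
        rw [singleton_inter_of_notMem hj']
      · intro h h3
        rw [singleton_inter_of_mem h] at h3
        exact singleton_ne_empty _ h3
    rw [h2] at h1
    simp only [hp]
    rw [le_div_iff₀ hn']
    exact h1
  have hexp1 : (1 : ℝ) ≤ Real.exp (2 * s) := by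
    rw [Real.one_le_exp_iff]
    linarith
  have hmax0 : 0 ≤ max ((1 - 1 / (m : ℝ)) ^ m) ((1 - D) ^ (m + 1)) :=
    le_max_of_le_right (pow_nonneg (by linarith) _)
  have hsplit : ∀ B ⊆ M, ∏ j ∈ M, (1 - p j) = (∏ j ∈ M \ B, (1 - p j)) * ∏ j ∈ B, (1 - p j) :=
    fun B hB => (prod_sdiff hB).symm
  have hgoal : ∏ j ∈ M, (1 - p j) ≤
      Real.exp (2 * s) * max ((1 - 1 / (m : ℝ)) ^ m) ((1 - D) ^ (m + 1)) := by
    rcases Nat.lt_or_ge m A.card with hlt | hle
    · -- many singletons
      obtain ⟨B, hBA, hBc⟩ := exists_subset_card_eq (show m + 1 ≤ A.card by omega)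
      rw [hsplit B (hBA.trans hAM)]
      have h1 : ∏ j ∈ M \ B, (1 - p j) ≤ 1 :=
        prod_le_one (fun j _ => by linarith [hp1 j]) (fun j _ => by linarith [hp0 j])
      have h2 : ∏ j ∈ B, (1 - p j) ≤ (1 - D) ^ (m + 1) := by
        calc ∏ j ∈ B, (1 - p j) ≤ ∏ _j ∈ B, (1 - D) :=
              prod_le_prod (fun j _ => by linarith [hp1 j])
                (fun j hj => by linarith [hAD j (hBA hj)])
          _ = (1 - D) ^ (m + 1) := by rw [prod_const, hBc]
      have h3 : 0 ≤ ∏ j ∈ B, (1 - p j) := prod_nonneg fun j _ => by linarith [hp1 j]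
      calc (∏ j ∈ M \ B, (1 - p j)) * ∏ j ∈ B, (1 - p j)
          ≤ 1 * ∏ j ∈ B, (1 - p j) := mul_le_mul_of_nonneg_right h1 h3
        _ ≤ max ((1 - 1 / (m : ℝ)) ^ m) ((1 - D) ^ (m + 1)) := by
            rw [one_mul]
            exact h2.trans (le_max_right _ _)
        _ ≤ _ := le_mul_of_one_le_left hmax0 hexp1
    · -- few singletons
      set S2 : Finset (Fin n) := Vg.filter (fun v => 2 ≤ (T v).card) with hS2
      set r : ℝ := (S2.card : ℝ) / n with hr
      have hr0 : 0 ≤ r := by positivity
      have hrn : r * n = S2.card := by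
        rw [hr]
        field_simp
      have hTne : ∀ v ∈ Vg, 1 ≤ (T v).card := by
        intro v hv
        by_contra h
        have h0 : T v = ∅ := by
          rw [← card_eq_zero]
          omega
        have h1 := hVD v hv
        rw [h0] at h1
        have h2 : (univ.filter (fun w : Fin n => (∅ : Finset (Fin k)) ∩ T w ≠ ∅)) = ∅ := by
          ext w
          simp
        rw [h2] at h1
        simp only [card_empty, Nat.cast_zero] at h1
        have := mul_pos hD hn'
        linarith
      have hsumM : 1 - s + r ≤ ∑ j ∈ M, p j := by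
        have h1 : (∑ j ∈ M, p j) * n = ∑ v, ((T v ∩ M).card : ℝ) := by
          rw [← INC_count, sum_mul]
          refine sum_congr rfl fun j _ => ?_
          simp only [hp]
          field_simp
        have h2 : (Vg.card : ℝ) + S2.card ≤ ∑ v, ((T v ∩ M).card : ℝ) := by
          calc (Vg.card : ℝ) + S2.card = ∑ v ∈ Vg, (1 + (if 2 ≤ (T v).card then (1 : ℝ) else 0)) := by
                rw [sum_add_distrib, sum_boole, sum_const, nsmul_eq_mul, mul_one]
            _ ≤ ∑ v ∈ Vg, ((T v ∩ M).card : ℝ) := by
                refine sum_le_sum fun v hv => ?_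
                rw [inter_eq_left.2 (hT v)]
                have h3 := hTne v hv
                split_ifs with h4
                · have : (2 : ℝ) ≤ (T v).card := by exact_mod_cast h4
                  linarith
                · have : (1 : ℝ) ≤ (T v).card := by exact_mod_cast h3
                  linarith
            _ ≤ ∑ v, ((T v ∩ M).card : ℝ) :=
                sum_le_sum_of_subset_of_nonneg (subset_univ _) fun _ _ _ => Nat.cast_nonneg _
        have h3 : (1 - s + r) * n ≤ (∑ j ∈ M, p j) * n := by
          rw [h1]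
          have h4 : (1 - s + r) * n = (1 - s) * n + r * n := by ring
          rw [h4, hrn]
          linarith
        exact le_of_mul_le_mul_right h3 hn'
      have hsumA : 1 - s - r ≤ ∑ j ∈ A, p j := by
        have h1 : (∑ j ∈ A, p j) * n = ∑ v, ((T v ∩ A).card : ℝ) := by
          rw [← INC_count, sum_mul]
          refine sum_congr rfl fun j _ => ?_
          simp only [hp]
          field_simp
        have h2 : (Vg.card : ℝ) - S2.card ≤ ∑ v, ((T v ∩ A).card : ℝ) := by
          calc (Vg.card : ℝ) - S2.card = ∑ v ∈ Vg, (1 - (if 2 ≤ (T v).card then (1 : ℝ) else 0)) := by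
                rw [sum_sub_distrib, sum_boole, sum_const, nsmul_eq_mul, mul_one]
            _ ≤ ∑ v ∈ Vg, ((T v ∩ A).card : ℝ) := by
                refine sum_le_sum fun v hv => ?_
                have h3 := hTne v hv
                split_ifs with h4
                · have : (0 : ℝ) ≤ ((T v ∩ A).card : ℝ) := Nat.cast_nonneg _
                  linarith
                · have h5 : (T v).card = 1 := by omega
                  obtain ⟨j, hj⟩ := card_eq_one.1 h5
                  have hjM : j ∈ M := hT v (by rw [hj]; exact mem_singleton_self _)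
                  have hjA : j ∈ A := mem_filter.2 ⟨hjM, v, hv, hj⟩
                  have h6 : T v ∩ A = {j} := by
                    rw [hj, singleton_inter_of_mem hjA]
                  rw [h6, card_singleton]
                  norm_num
            _ ≤ ∑ v, ((T v ∩ A).card : ℝ) :=
                sum_le_sum_of_subset_of_nonneg (subset_univ _) fun _ _ _ => Nat.cast_nonneg _
        have h3 : (1 - s - r) * n ≤ (∑ j ∈ A, p j) * n := by
          rw [h1]
          have h4 : (1 - s - r) * n = (1 - s) * n - r * n := by ring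
          rw [h4, hrn]
          linarith
        exact le_of_mul_le_mul_right h3 hn'
      have hexpB : ∀ B : Finset (Fin k), ∏ j ∈ B, (1 - p j) ≤ Real.exp (-∑ j ∈ B, p j) := by
        intro B
        rw [← sum_neg_distrib, Real.exp_sum]
        exact prod_le_prod (fun j _ => by linarith [hp1 j])
          (fun j _ => Real.one_sub_le_exp_neg (p j))
      have hfin : ∏ j ∈ M, (1 - p j) ≤ Real.exp (2 * s) * (1 - 1 / (m : ℝ)) ^ m := by
        rcases Nat.eq_zero_or_pos A.card with ha | ha
        · have hA0 : A = ∅ := card_eq_zero.1 ha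
          rw [hA0, sum_empty] at hsumA
          have h1 := hINA 1 m 0 0 1 le_rfl (by omega) hm le_rfl zero_le_one le_rfl (by norm_num)
            (by norm_num)
          norm_num at h1
          have h2 : ∏ j ∈ M, (1 - p j) ≤ Real.exp (2 * s) * Real.exp (-2) := by
            rw [← Real.exp_add]
            refine (hexpB M).trans (Real.exp_le_exp.2 ?_)
            linarith
          refine h2.trans (mul_le_mul_of_nonneg_left ?_ (Real.exp_pos _).le)
          refine le_trans h1 (le_of_eq ?_)
          norm_num
        · have hA' : (0 : ℝ) < A.card := by exact_mod_cast ha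
          set x : ℝ := ∑ j ∈ A, p j with hx
          have hx0 : 0 ≤ x := sum_nonneg fun j _ => hp0 j
          have hxa : x ≤ A.card := by
            calc x ≤ ∑ _j ∈ A, (1 : ℝ) := sum_le_sum fun j _ => hp1 j
              _ = A.card := by simp
          have h1 := hINA A.card m x s r ha hle hm hs hr0 hx0 hxa hsumA
          refine le_trans ?_ h1
          rw [hsplit A hAM, mul_comm]
          have h2 : ∏ j ∈ A, (1 - p j) ≤ (1 - x / A.card) ^ A.card := by
            refine (INC_amgm A (fun j => 1 - p j) (fun j _ => by linarith [hp1 j]) ha).trans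
              (le_of_eq ?_)
            congr 1
            rw [sum_sub_distrib, sum_const, nsmul_eq_mul, mul_one, ← hx]
            field_simp
          have h3 : ∏ j ∈ M \ A, (1 - p j) ≤ Real.exp (-(1 - s + r - x)) := by
            refine (hexpB (M \ A)).trans (Real.exp_le_exp.2 ?_)
            have h4 : ∑ j ∈ M \ A, p j + ∑ j ∈ A, p j = ∑ j ∈ M, p j := sum_sdiff hAM
            rw [← hx] at h4
            linarith
          refine mul_le_mul h2 h3 (prod_nonneg fun j _ => by linarith [hp1 j]) ?_
          refine pow_nonneg ?_ _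
          rw [sub_nonneg, div_le_one hA']
          exact hxa
      exact hfin.trans (mul_le_mul_of_nonneg_left (le_max_left _ _) (Real.exp_pos _).le)
  exact hgoal

end Pool.Agent.Work.MP_1ce445_lin
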