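import Pool.Agent.Work.MP_1ce445_lin.Interface2

/-! # Block ALL -/

namespace Pool.Agent.Work.MP_1ce445_lin

open Finset Pool.Agent.Work.MP_1ce445_co_56

theorem stmt_ALL (h1 : Stmt_ATW) (h2 : Stmt_AON) (h3 : Stmt_AZE) : Stmt_ALL := by
  intro V _ k M T W c κ hS
  have h0 := Real.sqrt_nonneg κ
  by_cases ha : ∃ (i : Fin k) (u : V), T u = {i}
  · obtain ⟨i, u, hu⟩ := ha
    by_cases hb : ∃ (j : Fin k) (v : V), T v = {j} ∧ j ≠ i
    · obtain ⟨j, v, hv, hne⟩ := hb
      exact h1 M T W c κ hS i j u v (Ne.symm hne) hu hv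
    · have h4 := h2 M T W c κ hS i u hu (fun j v hv => by
        by_contra hne
        exact hb ⟨j, v, hv, hne⟩)
      linarith
  · have h4 := h3 M T W c κ hS (fun j v hv => ha ⟨j, v, hv⟩)
    linarith

end Pool.Agent.Work.MP_1ce445_lin
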