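import Pool.Agent.Work.MP_1ce445_lin.Interface2

namespace Pool.Agent.Work.MP_1ce445_lin

open Finset Pool.Agent.Work.MP_1ce445_co_56

lemma AON_pairs {V : Type} [Fintype V] {k : ℕ} (T : V → Finset (Fin k)) (S : Finset (Fin k))
    (B C : Finset V) (m : ℝ)
    (h : ∀ v ∈ B, m ≤ ((C.filter (fun w => ∃ x ∈ S, x ∈ T v ∧ x ∈ T w)).card : ℝ)) :
    (B.card : ℝ) * m ≤ ∑ x ∈ S, (((B.filter (fun v => x ∈ T v)).card : ℝ) *
      ((C.filter (fun w => x ∈ T w)).card : ℝ)) := by
  classical
  have e1 : ∀ x ∈ S, (((B.filter (fun v => x ∈ T v)).card : ℝ) *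
      ((C.filter (fun w => x ∈ T w)).card : ℝ)) =
      ∑ v ∈ B, if x ∈ T v then ((C.filter (fun w => x ∈ T w)).card : ℝ) else 0 := by
    intro x _
    rw [← Finset.sum_filter, Finset.sum_const, nsmul_eq_mul]
  rw [Finset.sum_congr rfl e1, Finset.sum_comm]
  rw [← nsmul_eq_mul, ← Finset.sum_const]
  apply Finset.sum_le_sum
  intro v hv
  refine (h v hv).trans ?_
  rw [← Finset.sum_filter]
  have : (C.filter (fun w => ∃ x ∈ S, x ∈ T v ∧ x ∈ T w)).card ≤
      ∑ x ∈ S.filter (fun x => x ∈ T v), (C.filter (fun w => x ∈ T w)).card := by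
    refine le_trans (Finset.card_le_card ?_) (Finset.card_biUnion_le)
    intro w hw
    simp only [Finset.mem_filter, Finset.mem_biUnion] at hw ⊢
    obtain ⟨hwC, x, hxS, hxv, hxw⟩ := hw
    exact ⟨x, ⟨hxS, hxv⟩, hwC, hxw⟩
  exact_mod_cast this

lemma AON_point {k : ℕ} (i : Fin k) (S : Finset (Fin k)) (hne : S.Nonempty)
    (hu : ∀ j, S = {j} → j = i) :
    (1 : ℝ) + (if i ∉ S then 1 else 0) - (if S = {i} then 1 else 0) ≤
      (S.card : ℝ) - (if i ∈ S then 1 else 0) := by
  have h2 : S ≠ {i} → 2 ≤ S.card := by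
    intro hS
    have h0 : 0 < S.card := Finset.card_pos.mpr hne
    have h1 : S.card ≠ 1 := by
      intro h
      obtain ⟨j, hj⟩ := Finset.card_eq_one.mp h
      have := hu j hj
      rw [this] at hj
      exact hS hj
    omega
  by_cases hi : i ∈ S
  · by_cases hs : S = {i}
    · have : S.card = 1 := by rw [hs]; simp
      rw [if_neg (by simpa using hi), if_pos hs, if_pos hi, this]
      norm_num
    · have := h2 hs
      have h3 : (2 : ℝ) ≤ S.card := by exact_mod_cast this
      rw [if_neg (by simpa using hi), if_neg hs, if_pos hi]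
      linarith
  · have hs : S ≠ {i} := by
      intro h
      apply hi
      rw [h]
      simp
    have := h2 hs
    have h3 : (2 : ℝ) ≤ S.card := by exact_mod_cast this
    rw [if_pos hi, if_neg hs, if_neg hi]
    linarith

theorem stmt_AON (h1 : Stmt_TAN) (h2 : Stmt_RAO) (h3 : Stmt_BAS) : Stmt_AON := by
  classical
  intro V _ k M T W c κ hS i u hu huniq
  obtain ⟨hp, hne, hsing, hdeg, hdc⟩ := h3 M T W c κ hS
  have hiM : i ∈ M := by
    have := hS.sub u
    rw [hu] at this
    exact this (Finset.mem_singleton_self i)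
  have hq0 : 0 ≤ 1 - pr T i := by linarith [(hp i).2]
  have hqc : 1 - pr T i ≤ c := by linarith [hsing u i hu]
  have hc3 := hS.cl
  have hc2 : c ≤ 1 / 2 := hS.cu.le
  have hR := h2.1 c (1 - pr T i) hc3 hc2 hq0 hqc
  rw [← Finset.mul_prod_erase M _ hiM]
  refine le_trans ?_ hR
  rcases eq_or_lt_of_le hq0 with hq | hq
  · rw [← hq]; simp
  apply mul_le_mul_of_nonneg_left _ hq0
  have hprod : ∏ x ∈ M.erase i, (1 - pr T x) ≤ Real.exp (-(47 / 48 * ∑ x ∈ M.erase i, pr T x +
      2 / 3 * ∑ x ∈ M.erase i, pr T x ^ 2)) := by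
    calc ∏ x ∈ M.erase i, (1 - pr T x) ≤
        ∏ x ∈ M.erase i, Real.exp (-(47 / 48 * pr T x + 2 / 3 * pr T x ^ 2)) := by
          apply Finset.prod_le_prod
          · intro x _
            linarith [(hp x).2]
          · intro x _
            exact (h1 (pr T x) (hp x).1 (hp x).2).1
      _ = _ := by
          rw [← Real.exp_sum]
          congr 1
          rw [Finset.sum_neg_distrib, Finset.sum_add_distrib, Finset.mul_sum, Finset.mul_sum]
  refine hprod.trans (Real.exp_le_exp.mpr ?_)
  have hN : (0 : ℝ) < Fintype.card V := by exact_mod_cast hS.pos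
  set N : ℝ := (Fintype.card V : ℝ) with hNdef
  set B : Finset V := univ.filter (fun v => i ∉ T v) with hB
  set D : Finset V := univ.filter (fun v => i ∈ T v) with hD
  set A : Finset V := univ.filter (fun v => T v = {i}) with hA
  have hDc : (D.card : ℝ) = pr T i * N := by
    unfold pr
    rw [div_mul_cancel₀ _ hN.ne']
  have hBDc : (D.card : ℝ) + B.card = N := by
    have := Finset.card_filter_add_card_filter_not (s := (univ : Finset V)) (fun v => i ∈ T v)
    rw [Finset.card_univ] at this
    rw [hNdef]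
    exact_mod_cast this
  have hBc : (B.card : ℝ) = (1 - pr T i) * N := by linarith
  have hBne : B.Nonempty := by
    rw [← Finset.card_pos]
    have : (0 : ℝ) < B.card := by rw [hBc]; exact mul_pos hq hN
    exact_mod_cast this
  have hlow : ∀ v, (1 - c) * N ≤ ((univ.filter (fun w => W v w)).card : ℝ) := by
    intro v
    have := hS.low v
    unfold dW at this
    convert this
  -- the bound for A
  have hAc : (A.card : ℝ) ≤ c * N := by
    obtain ⟨v, hv⟩ := hBne
    have hvi : i ∉ T v := by simpa [hB] using hv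
    have hdis : Disjoint (univ.filter (fun w => W v w)) A := by
      rw [Finset.disjoint_left]
      intro w hw hwA
      simp only [Finset.mem_filter, Finset.mem_univ, true_and, hA] at hw hwA
      obtain ⟨x, hx⟩ := hS.meet v w hw
      rw [Finset.mem_inter, hwA, Finset.mem_singleton] at hx
      exact hvi (hx.2 ▸ hx.1)
    have hc : (univ.filter (fun w => W v w)).card + A.card ≤ Fintype.card V := by
      rw [← Finset.card_union_of_disjoint hdis]
      exact Finset.card_le_univ _
    have hc' : ((univ.filter (fun w => W v w)).card : ℝ) + A.card ≤ N := by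
      rw [hNdef]
      exact_mod_cast hc
    have := hlow v
    linarith
  -- first bound
  have hs1 : 1 + (1 - pr T i) - c ≤ ∑ x ∈ M.erase i, pr T x := by
    have e1 : (∑ x ∈ M.erase i, pr T x) * N = ∑ v, ((T v).card : ℝ) - D.card := by
      rw [← hdc, ← Finset.add_sum_erase M _ hiM, Finset.sum_mul, hDc]
      ring
    have e2 : (D.card : ℝ) = ∑ v, (if i ∈ T v then (1 : ℝ) else 0) := by
      rw [← Finset.sum_filter, Finset.sum_const, nsmul_eq_mul, mul_one]
    have e3 : (B.card : ℝ) = ∑ v, (if i ∉ T v then (1 : ℝ) else 0) := by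
      rw [← Finset.sum_filter, Finset.sum_const, nsmul_eq_mul, mul_one]
    have e4 : (A.card : ℝ) = ∑ v, (if T v = {i} then (1 : ℝ) else 0) := by
      rw [← Finset.sum_filter, Finset.sum_const, nsmul_eq_mul, mul_one]
    have e5 : N = ∑ _v : V, (1 : ℝ) := by
      rw [Finset.sum_const, nsmul_eq_mul, mul_one, Finset.card_univ]
    have e6 : N + B.card - A.card ≤ ∑ v, ((T v).card : ℝ) - D.card := by
      rw [e2, e3, e4, e5, ← Finset.sum_add_distrib, ← Finset.sum_sub_distrib,
        ← Finset.sum_sub_distrib]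
      apply Finset.sum_le_sum
      intro v _
      exact AON_point i (T v) (hne v) (fun j hj => huniq j v hj)
    have e7 : (1 + (1 - pr T i) - c) * N ≤ (∑ x ∈ M.erase i, pr T x) * N := by
      rw [e1]
      nlinarith
    exact le_of_mul_le_mul_right e7 hN
  -- second bound
  have hs2 : 4 * (1 - pr T i) * (1 - (1 - pr T i) - c) ≤ ∑ x ∈ M.erase i, pr T x ^ 2 := by
    have hpairs := AON_pairs T (M.erase i) B D ((1 - c) * N - B.card) (by
      intro v hv
      have hvi : i ∉ T v := by simpa [hB] using hv
      have hsub : univ.filter (fun w => W v w) ⊆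
          D.filter (fun w => ∃ x ∈ M.erase i, x ∈ T v ∧ x ∈ T w) ∪ B := by
        intro w hw
        simp only [Finset.mem_filter, Finset.mem_univ, true_and] at hw
        rw [Finset.mem_union]
        by_cases hwi : i ∈ T w
        · left
          obtain ⟨x, hx⟩ := hS.meet v w hw
          rw [Finset.mem_inter] at hx
          rw [Finset.mem_filter]
          refine ⟨by simp [hD, hwi], x, ?_, hx.1, hx.2⟩
          rw [Finset.mem_erase]
          refine ⟨?_, hS.sub v hx.1⟩
          rintro rfl
          exact hvi hx.1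
        · right
          simp [hB, hwi]
      have hc := (Finset.card_le_card hsub).trans (Finset.card_union_le _ _)
      have hc' : ((univ.filter (fun w => W v w)).card : ℝ) ≤
          ((D.filter (fun w => ∃ x ∈ M.erase i, x ∈ T v ∧ x ∈ T w)).card : ℝ) + B.card := by
        exact_mod_cast hc
      have := hlow v
      linarith)
    have hsq : ∀ x ∈ M.erase i, 4 * (((B.filter (fun v => x ∈ T v)).card : ℝ) *
        ((D.filter (fun w => x ∈ T w)).card : ℝ)) ≤ pr T x ^ 2 * N ^ 2 := by
      intro x _
      have hx1 : pr T x * N = ((univ.filter (fun v => x ∈ T v)).card : ℝ) := by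
        unfold pr
        rw [div_mul_cancel₀ _ hN.ne']
      have hx2 : ((univ.filter (fun v => x ∈ T v)).card : ℝ) =
          ((D.filter (fun v => x ∈ T v)).card : ℝ) + ((B.filter (fun v => x ∈ T v)).card : ℝ) := by
        have := Finset.card_filter_add_card_filter_not
          (s := univ.filter (fun v => x ∈ T v)) (fun v => i ∈ T v)
        rw [Finset.filter_comm, Finset.filter_comm (fun v => x ∈ T v) (fun v => i ∉ T v)] at this
        exact_mod_cast this.symm
      rw [← mul_pow, hx1, hx2]
      nlinarith [sq_nonneg (((D.filter (fun v => x ∈ T v)).card : ℝ) -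
        ((B.filter (fun v => x ∈ T v)).card : ℝ))]
    have hsum := Finset.sum_le_sum hsq
    rw [← Finset.mul_sum, ← Finset.sum_mul] at hsum
    have hN2 : 0 < N ^ 2 := by positivity
    have e7 : (4 * (1 - pr T i) * (1 - (1 - pr T i) - c)) * N ^ 2 ≤
        (∑ x ∈ M.erase i, pr T x ^ 2) * N ^ 2 := by
      refine le_trans ?_ hsum
      refine le_trans (le_of_eq ?_) (mul_le_mul_of_nonneg_left hpairs (by norm_num : (0:ℝ) ≤ 4))
      rw [hBc]
      ring
    exact le_of_mul_le_mul_right e7 hN2
  have : 47 / 48 * (1 + (1 - pr T i) - c) + 2 / 3 * (4 * (1 - pr T i) * (1 - (1 - pr T i) - c)) ≤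
      47 / 48 * ∑ x ∈ M.erase i, pr T x + 2 / 3 * ∑ x ∈ M.erase i, pr T x ^ 2 := by
    linarith
  linarith

end Pool.Agent.Work.MP_1ce445_lin
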