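import Pool.Agent.Work.MP_1ce445_lin.Interface2

/-!
THEOREM LR2 for MP_1ce445_co, block ATW: set systems with at least two singletons.
-/

namespace Pool.Agent.Work.MP_1ce445_lin

open Finset Pool.Agent.Work.MP_1ce445_co_56

theorem ATW_min {ι : Type} (F : Finset ι) (s : ℝ) (hs : 0 ≤ s) (b : ι → ℝ)
    (hb : ∀ x ∈ F, 0 ≤ b x) : min s (∑ x ∈ F, b x) ≤ ∑ x ∈ F, min s (b x) := by
  classical
  induction F using Finset.induction_on with
  | empty => simp
  | insert a F ha ih =>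
    rw [Finset.sum_insert ha, Finset.sum_insert ha]
    have h1 := ih (fun x hx => hb x (Finset.mem_insert_of_mem hx))
    have h2 := hb a (Finset.mem_insert_self a F)
    have h3 : 0 ≤ ∑ x ∈ F, b x :=
      Finset.sum_nonneg (fun x hx => hb x (Finset.mem_insert_of_mem hx))
    have h4 : min s (b a + ∑ x ∈ F, b x) ≤ min s (b a) + min s (∑ x ∈ F, b x) := by
      rcases le_total s (b a) with h | h
      · rw [min_eq_left h]
        have := le_min hs h3
        exact (min_le_left _ _).trans (by linarith)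
      · rw [min_eq_right h]
        rcases le_total s (∑ x ∈ F, b x) with h' | h'
        · rw [min_eq_left h']
          exact (min_le_left _ _).trans (by linarith)
        · rw [min_eq_right h']
          exact min_le_right _ _
    linarith

theorem ATW_side {V : Type} [Fintype V] {k : ℕ} (M' : Finset (Fin k)) (T : V → Finset (Fin k))
    (e : V → V → ℝ) (V1 V2 V3 : Finset V) (N D Y : ℝ) (hN : 0 < N)
    (hY : (V1.card : ℝ) = Y * N) (hs : 0 ≤ D - Y) (he0 : ∀ v w, 0 ≤ e v w)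
    (he1 : ∀ v w, e v w ≤ 1)
    (hdeg : ∀ v, D * N ≤ ∑ w ∈ V1, e v w + ∑ w ∈ V2, e v w + ∑ w ∈ V3, e v w)
    (hmeet : ∀ v ∈ V1, ∀ w ∈ V2,
      e v w ≤ ∑ x ∈ M'.filter (fun x => x ∈ T v), if x ∈ T w then (1 : ℝ) else 0)
    (b : Fin k → ℝ) (hb0 : ∀ x, 0 ≤ b x)
    (hb : ∀ x, b x * N = ∑ w ∈ V2, if x ∈ T w then (1 : ℝ) else 0) :
    Y * (D - Y) * N ^ 2 -
      ∑ x ∈ M', (∑ v ∈ V1, if x ∈ T v then (1 : ℝ) else 0) * (min (D - Y) (b x) * N) ≤
      ∑ v ∈ V1, ∑ w ∈ V3, e v w := by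
  have hpt : ∀ v ∈ V1, (D - Y) * N -
      ∑ x ∈ M', (if x ∈ T v then (1 : ℝ) else 0) * (min (D - Y) (b x) * N) ≤
      ∑ w ∈ V3, e v w := by
    intro v hv
    have h1 : ∑ w ∈ V1, e v w ≤ Y * N := by
      rw [← hY]
      calc ∑ w ∈ V1, e v w ≤ ∑ w ∈ V1, (1 : ℝ) := Finset.sum_le_sum (fun w _ => he1 v w)
        _ = (V1.card : ℝ) := by simp
    have h2 : ∑ w ∈ V2, e v w ≤ (∑ x ∈ M'.filter (fun x => x ∈ T v), b x) * N := by
      calc ∑ w ∈ V2, e v w
          ≤ ∑ w ∈ V2, ∑ x ∈ M'.filter (fun x => x ∈ T v), (if x ∈ T w then (1 : ℝ) else 0) :=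
            Finset.sum_le_sum (fun w hw => hmeet v hv w hw)
        _ = ∑ x ∈ M'.filter (fun x => x ∈ T v), ∑ w ∈ V2, (if x ∈ T w then (1 : ℝ) else 0) :=
            Finset.sum_comm
        _ = ∑ x ∈ M'.filter (fun x => x ∈ T v), b x * N :=
            Finset.sum_congr rfl (fun x _ => (hb x).symm)
        _ = (∑ x ∈ M'.filter (fun x => x ∈ T v), b x) * N := by rw [Finset.sum_mul]
    have h3 := hdeg v
    have h4 : 0 ≤ ∑ w ∈ V3, e v w := Finset.sum_nonneg (fun w _ => he0 v w)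
    have h5 := ATW_min (M'.filter (fun x => x ∈ T v)) (D - Y) hs b (fun x _ => hb0 x)
    have h6 : ∑ x ∈ M', (if x ∈ T v then (1 : ℝ) else 0) * (min (D - Y) (b x) * N) =
        (∑ x ∈ M'.filter (fun x => x ∈ T v), min (D - Y) (b x)) * N := by
      rw [Finset.sum_mul, Finset.sum_filter]
      refine Finset.sum_congr rfl (fun x _ => ?_)
      split_ifs <;> ring
    rw [h6]
    have h7 : min (D - Y) (∑ x ∈ M'.filter (fun x => x ∈ T v), b x) * N ≤
        (∑ x ∈ M'.filter (fun x => x ∈ T v), min (D - Y) (b x)) * N :=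
      mul_le_mul_of_nonneg_right h5 hN.le
    rcases le_total (D - Y) (∑ x ∈ M'.filter (fun x => x ∈ T v), b x) with h | h
    · rw [min_eq_left h] at h7
      linarith
    · rw [min_eq_right h] at h7
      linarith
  have hsum := Finset.sum_le_sum hpt
  rw [Finset.sum_sub_distrib, Finset.sum_const, nsmul_eq_mul, hY, Finset.sum_comm] at hsum
  have h8 : ∑ x ∈ M', ∑ v ∈ V1, (if x ∈ T v then (1 : ℝ) else 0) * (min (D - Y) (b x) * N) =
      ∑ x ∈ M', (∑ v ∈ V1, if x ∈ T v then (1 : ℝ) else 0) * (min (D - Y) (b x) * N) :=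
    Finset.sum_congr rfl (fun x _ => by rw [Finset.sum_mul])
  rw [h8] at hsum
  linarith [hsum, (by ring : Y * N * ((D - Y) * N) = Y * (D - Y) * N ^ 2)]

theorem ATW_exp (c : ℝ) (h1 : 1 / 3 ≤ c) (h2 : c < 1 / 2) :
    c * Real.exp (-(1 - c)) ≤ 31 / 100 := by
  have h3 : Real.exp (-(1 - c)) ≤ Real.exp (-(1 / 2)) := Real.exp_le_exp.2 (by linarith)
  have h4 : (1 : ℝ) + 1 / 2 + (1 / 2) ^ 2 / 2 ≤ Real.exp (1 / 2) :=
    Real.quadratic_le_exp_of_nonneg (by norm_num)
  have h5 : Real.exp (-(1 / 2)) ≤ 62 / 100 := by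
    rw [Real.exp_neg]
    rw [inv_le_comm₀ (Real.exp_pos _) (by norm_num)]
    refine le_trans ?_ h4
    norm_num
  have h6 := Real.exp_pos (-(1 - c))
  nlinarith

theorem ATW_sumle {k : ℕ} (M' : Finset (Fin k)) (p : Fin k → ℝ) (hp : ∀ x, 0 ≤ p x ∧ p x ≤ 1) :
    0 ≤ ∏ x ∈ M', (1 - p x) ∧ ∏ x ∈ M', (1 - p x) ≤ 1 := by
  refine ⟨Finset.prod_nonneg (fun x _ => by linarith [(hp x).2]), ?_⟩
  exact Finset.prod_le_one (fun x _ => by linarith [(hp x).2]) (fun x _ => by linarith [(hp x).1])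

theorem stmt_ATW (h1 : Stmt_GK) (h2 : Stmt_PHI) (h3 : Stmt_RC) (h4 : Stmt_BAS) : Stmt_ATW := by
  intro V _ k M T W c κ hS i j u v hij hTu hTv
  classical
  obtain ⟨B1, B2, B3, B4, -⟩ := h4 M T W c κ hS
  obtain ⟨-, -, P3, P4, -⟩ := h2
  have hcl := hS.cl
  have hcu := hS.cu
  have hκ := hS.kap
  have hN : (0 : ℝ) < (Fintype.card V : ℝ) := by exact_mod_cast hS.pos
  have hsq : 0 ≤ Real.sqrt κ := Real.sqrt_nonneg κ
  have hiM : i ∈ M := hS.sub u (by rw [hTu]; exact Finset.mem_singleton_self i)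
  have hjM : j ∈ M := hS.sub v (by rw [hTv]; exact Finset.mem_singleton_self j)
  have hXc : 1 - pr T i ≤ c := by linarith [B3 u i hTu]
  have hYc : 1 - pr T j ≤ c := by linarith [B3 v j hTv]
  have hX0 : 0 ≤ 1 - pr T i := by linarith [(B1 i).2]
  have hY0 : 0 ≤ 1 - pr T j := by linarith [(B1 j).2]
  have hM' : ∀ x, x ∈ (M.erase i).erase j ↔ x ∈ M ∧ x ≠ i ∧ x ≠ j := by
    intro x
    rw [Finset.mem_erase, Finset.mem_erase]
    tauto
  have hprod : ∏ x ∈ M, (1 - pr T x) =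
      (1 - pr T i) * (1 - pr T j) * ∏ x ∈ (M.erase i).erase j, (1 - pr T x) := by
    rw [← Finset.mul_prod_erase M (fun x => 1 - pr T x) hiM,
      ← Finset.mul_prod_erase (M.erase i) (fun x => 1 - pr T x)
        (Finset.mem_erase.2 ⟨hij.symm, hjM⟩)]
    ring
  rw [hprod]
  have hXY : (1 - pr T i) * (1 - pr T j) ≤ c ^ 2 := by
    have := mul_le_mul hXc hYc hY0 (by linarith)
    linarith [this, (by ring : c * c = c ^ 2)]
  have hXY0 : 0 ≤ (1 - pr T i) * (1 - pr T j) := mul_nonneg hX0 hY0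
  obtain ⟨hP0, hP1⟩ := ATW_sumle ((M.erase i).erase j) (pr T) B1
  rcases le_or_gt c (1 / 3) with hc | hc
  · rw [P3 c (by linarith) hc]
    have : (1 - pr T i) * (1 - pr T j) * ∏ x ∈ (M.erase i).erase j, (1 - pr T x) ≤
        (1 - pr T i) * (1 - pr T j) * 1 := mul_le_mul_of_nonneg_left hP1 hXY0
    linarith
  obtain ⟨Q1, -, Q3, -⟩ := P4 c hc.le hcu.le
  by_cases hb : ∃ w, i ∉ T w ∧ j ∉ T w
  · obtain ⟨w, hwi, hwj⟩ := hb
    have g2 := (h1 ((M.erase i).erase j) (pr T) (fun x _ => B1 x)).2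
    have g3 : 1 - c ≤ ∑ x ∈ (M.erase i).erase j, pr T x := by
      refine (B4 w).trans (Finset.sum_le_sum_of_subset_of_nonneg ?_ (fun x _ _ => (B1 x).1))
      intro x hx
      rw [hM']
      exact ⟨hS.sub w hx, fun h => hwi (h ▸ hx), fun h => hwj (h ▸ hx)⟩
    have g4 : ∏ x ∈ (M.erase i).erase j, (1 - pr T x) ≤ Real.exp (-(1 - c)) :=
      g2.trans (Real.exp_le_exp.2 (by linarith))
    have g5 := ATW_exp c hc.le hcu
    have g6 : (1 - pr T i) * (1 - pr T j) * ∏ x ∈ (M.erase i).erase j, (1 - pr T x) ≤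
        c ^ 2 * Real.exp (-(1 - c)) := mul_le_mul hXY g4 hP0 (by positivity)
    have g7 : c ^ 2 * Real.exp (-(1 - c)) = c * (c * Real.exp (-(1 - c))) := by ring
    have g8 : c * (c * Real.exp (-(1 - c))) ≤ c * (1 - c - Real.sqrt (c * (1 - 2 * c))) :=
      mul_le_mul_of_nonneg_left (g5.trans Q3) (by linarith)
    rw [Q1]
    linarith
  have hb' : ∀ w, i ∈ T w ∨ j ∈ T w := by
    intro w
    by_contra h
    push Not at h
    exact hb ⟨w, h.1, h.2⟩
  -- the three parts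
  obtain ⟨V1, hV1⟩ : ∃ V1 : Finset V, V1 = univ.filter (fun w => i ∈ T w ∧ j ∉ T w) := ⟨_, rfl⟩
  obtain ⟨V2, hV2⟩ : ∃ V2 : Finset V, V2 = univ.filter (fun w => j ∈ T w ∧ i ∉ T w) := ⟨_, rfl⟩
  obtain ⟨V3, hV3⟩ : ∃ V3 : Finset V, V3 = univ.filter (fun w => i ∈ T w ∧ j ∈ T w) := ⟨_, rfl⟩
  have m1 : ∀ w, w ∈ V1 ↔ i ∈ T w ∧ j ∉ T w := by intro w; rw [hV1]; simp
  have m2 : ∀ w, w ∈ V2 ↔ j ∈ T w ∧ i ∉ T w := by intro w; rw [hV2]; simp
  have hpart : ∀ f : V → ℝ, ∑ w, f w = ∑ w ∈ V1, f w + ∑ w ∈ V2, f w + ∑ w ∈ V3, f w := by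
    intro f
    rw [hV1, hV2, hV3, Finset.sum_filter, Finset.sum_filter, Finset.sum_filter,
      ← Finset.sum_add_distrib, ← Finset.sum_add_distrib]
    refine Finset.sum_congr rfl (fun w _ => ?_)
    by_cases hi : i ∈ T w <;> by_cases hj : j ∈ T w
    · simp [hi, hj]
    · simp [hi, hj]
    · simp [hi, hj]
    · exact absurd (hb' w) (by tauto)
  have hpr : ∀ x, pr T x * (Fintype.card V : ℝ) = ∑ w, if x ∈ T w then (1 : ℝ) else 0 := by
    intro x
    rw [Finset.sum_boole]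
    unfold pr
    exact div_mul_cancel₀ _ hN.ne'
  -- cardinalities
  have hc0 : (Fintype.card V : ℝ) = V1.card + V2.card + V3.card := by
    have := hpart (fun _ => 1)
    simpa using this
  have hcj : pr T j * (Fintype.card V : ℝ) = V2.card + V3.card := by
    rw [hpr j, hpart, hV1, hV2, hV3]
    rw [Finset.sum_filter, Finset.sum_filter, Finset.sum_filter, Finset.card_filter,
      Finset.card_filter]
    push_cast
    rw [← Finset.sum_add_distrib, ← Finset.sum_add_distrib, ← Finset.sum_add_distrib]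
    refine Finset.sum_congr rfl (fun w _ => ?_)
    by_cases hi : i ∈ T w <;> by_cases hj : j ∈ T w <;> simp [hi, hj]
  have hci : pr T i * (Fintype.card V : ℝ) = V1.card + V3.card := by
    rw [hpr i, hpart, hV1, hV2, hV3]
    rw [Finset.sum_filter, Finset.sum_filter, Finset.sum_filter, Finset.card_filter,
      Finset.card_filter]
    push_cast
    rw [← Finset.sum_add_distrib, ← Finset.sum_add_distrib, ← Finset.sum_add_distrib]
    refine Finset.sum_congr rfl (fun w _ => ?_)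
    by_cases hi : i ∈ T w <;> by_cases hj : j ∈ T w <;> simp [hi, hj]
  obtain ⟨N, hNN⟩ : ∃ N : ℝ, N = (Fintype.card V : ℝ) := ⟨_, rfl⟩
  obtain ⟨X, hX⟩ : ∃ X : ℝ, X = 1 - pr T i := ⟨_, rfl⟩
  obtain ⟨Y, hY⟩ : ∃ Y : ℝ, Y = 1 - pr T j := ⟨_, rfl⟩
  rw [← hNN] at hN hpr hc0 hcj hci
  rw [← hX] at hXc hX0 hXY hXY0
  rw [← hY] at hYc hY0 hXY hXY0
  rw [← hX, ← hY]
  have c1 : (V1.card : ℝ) = Y * N := by rw [hY]; linear_combination hcj - hc0
  have c2 : (V2.card : ℝ) = X * N := by rw [hX]; linear_combination hci - hc0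
  have c3 : (V3.card : ℝ) = (1 - X - Y) * N := by
    rw [hX, hY]; linear_combination hc0 - hcj - hci
  -- the edges
  let e : V → V → ℝ := fun v w => if W v w then 1 else 0
  have he0 : ∀ v w, 0 ≤ e v w := by
    intro v w
    show 0 ≤ (if W v w then (1 : ℝ) else 0)
    split_ifs <;> norm_num
  have he1 : ∀ v w, e v w ≤ 1 := by
    intro v w
    show (if W v w then (1 : ℝ) else 0) ≤ 1
    split_ifs <;> norm_num
  have hes : ∀ v w, e v w = e w v := by
    intro v w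
    show (if W v w then (1 : ℝ) else 0) = (if W w v then (1 : ℝ) else 0)
    by_cases h : W v w
    · rw [if_pos h, if_pos (hS.symm v w h)]
    · rw [if_neg h, if_neg (fun h' => h (hS.symm w v h'))]
  have hdW : ∀ v, dW W v = ∑ w, e v w := by
    intro v
    show dW W v = ∑ w, (if W v w then (1 : ℝ) else 0)
    rw [Finset.sum_boole]
    rfl
  have hdeg : ∀ v, (1 - c) * N ≤ ∑ w ∈ V1, e v w + ∑ w ∈ V2, e v w + ∑ w ∈ V3, e v w := by
    intro v
    rw [← hpart, ← hdW, hNN]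
    exact hS.low v
  have hdeg' : ∀ v, (1 - c) * N ≤ ∑ w ∈ V2, e v w + ∑ w ∈ V1, e v w + ∑ w ∈ V3, e v w := by
    intro v
    linarith [hdeg v]
  have hmm : ∀ v w, i ∉ T v ∨ i ∉ T w → j ∉ T v ∨ j ∉ T w →
      e v w ≤ ∑ x ∈ ((M.erase i).erase j).filter (fun x => x ∈ T v),
        if x ∈ T w then (1 : ℝ) else 0 := by
    intro v w hi hj
    show (if W v w then (1 : ℝ) else 0) ≤ _
    by_cases h : W v w
    · rw [if_pos h]
      obtain ⟨x, hx⟩ := hS.meet v w h
      rw [Finset.mem_inter] at hx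
      have hxi : x ≠ i := by
        rintro rfl
        rcases hi with h' | h'
        · exact h' hx.1
        · exact h' hx.2
      have hxj : x ≠ j := by
        rintro rfl
        rcases hj with h' | h'
        · exact h' hx.1
        · exact h' hx.2
      have hxm : x ∈ ((M.erase i).erase j).filter (fun x => x ∈ T v) := by
        rw [Finset.mem_filter, hM']
        exact ⟨⟨hS.sub v hx.1, hxi, hxj⟩, hx.1⟩
      have := Finset.single_le_sum (f := fun x => if x ∈ T w then (1 : ℝ) else 0)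
        (fun y _ => by
          show (0 : ℝ) ≤ if y ∈ T w then (1 : ℝ) else 0
          split_ifs <;> norm_num) hxm
      simp only [hx.2, if_true] at this
      exact this
    · rw [if_neg h]
      exact Finset.sum_nonneg (fun y _ => by split_ifs <;> norm_num)
  let a : Fin k → ℝ := fun x => (∑ w ∈ V1, if x ∈ T w then (1 : ℝ) else 0) / N
  let b : Fin k → ℝ := fun x => (∑ w ∈ V2, if x ∈ T w then (1 : ℝ) else 0) / N
  have ha0 : ∀ x, 0 ≤ a x := fun x =>
    div_nonneg (Finset.sum_nonneg (fun y _ => by split_ifs <;> norm_num)) hN.le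
  have hb0 : ∀ x, 0 ≤ b x := fun x =>
    div_nonneg (Finset.sum_nonneg (fun y _ => by split_ifs <;> norm_num)) hN.le
  have haN : ∀ x, a x * N = ∑ w ∈ V1, if x ∈ T w then (1 : ℝ) else 0 := fun x =>
    div_mul_cancel₀ _ hN.ne'
  have hbN : ∀ x, b x * N = ∑ w ∈ V2, if x ∈ T w then (1 : ℝ) else 0 := fun x =>
    div_mul_cancel₀ _ hN.ne'
  have hab : ∀ x, a x + b x ≤ pr T x := by
    intro x
    have h5 : (a x + b x) * N ≤ pr T x * N := by
      rw [hpr x, hpart, add_mul, haN, hbN]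
      have : 0 ≤ ∑ w ∈ V3, if x ∈ T w then (1 : ℝ) else 0 :=
        Finset.sum_nonneg (fun y _ => by split_ifs <;> norm_num)
      linarith
    exact le_of_mul_le_mul_right h5 hN
  have s1 := ATW_side ((M.erase i).erase j) T e V1 V2 V3 N (1 - c) Y hN c1 (by linarith) he0 he1
    hdeg (fun v hv w hw => hmm v w (Or.inr ((m2 w).1 hw).2) (Or.inl ((m1 v).1 hv).2)) b hb0 hbN
  have s2 := ATW_side ((M.erase i).erase j) T e V2 V1 V3 N (1 - c) X hN c2 (by linarith) he0 he1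
    hdeg' (fun v hv w hw => hmm v w (Or.inl ((m2 v).1 hv).2) (Or.inr ((m1 w).1 hw).2)) a ha0 haN
  have s3 : ∑ v ∈ V1, ∑ w ∈ V3, e v w + ∑ v ∈ V2, ∑ w ∈ V3, e v w ≤
      (1 - c + κ) * (1 - X - Y) * N ^ 2 := by
    rw [Finset.sum_comm, Finset.sum_comm (s := V2), ← Finset.sum_add_distrib]
    calc ∑ w ∈ V3, (∑ v ∈ V1, e v w + ∑ v ∈ V2, e v w)
        ≤ ∑ w ∈ V3, (1 - c + κ) * N := by
          refine Finset.sum_le_sum (fun w _ => ?_)
          have t1 := hS.upp w
          rw [hdW, hpart, ← hNN] at t1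
          have t2 : 0 ≤ ∑ v ∈ V3, e w v := Finset.sum_nonneg (fun y _ => he0 w y)
          have t3 : ∑ v ∈ V1, e v w = ∑ v ∈ V1, e w v :=
            Finset.sum_congr rfl (fun y _ => hes y w)
          have t4 : ∑ v ∈ V2, e v w = ∑ v ∈ V2, e w v :=
            Finset.sum_congr rfl (fun y _ => hes y w)
          rw [t3, t4]
          linarith
      _ = (1 - c + κ) * (1 - X - Y) * N ^ 2 := by
          rw [Finset.sum_const, nsmul_eq_mul, c3]
          ring
  -- the quantity G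
  let G : ℝ := ∑ x ∈ (M.erase i).erase j,
    (a x * min (1 - c - Y) (b x) + b x * min (1 - c - X) (a x))
  have g1 : ∑ x ∈ (M.erase i).erase j, (∑ v ∈ V1, if x ∈ T v then (1 : ℝ) else 0) *
      (min (1 - c - Y) (b x) * N) = (∑ x ∈ (M.erase i).erase j, a x * min (1 - c - Y) (b x)) *
        N ^ 2 := by
    rw [Finset.sum_mul]
    refine Finset.sum_congr rfl (fun x _ => ?_)
    rw [← haN]
    ring
  have g2 : ∑ x ∈ (M.erase i).erase j, (∑ v ∈ V2, if x ∈ T v then (1 : ℝ) else 0) *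
      (min (1 - c - X) (a x) * N) = (∑ x ∈ (M.erase i).erase j, b x * min (1 - c - X) (a x)) *
        N ^ 2 := by
    rw [Finset.sum_mul]
    refine Finset.sum_congr rfl (fun x _ => ?_)
    rw [← hbN]
    ring
  have hG : G = ∑ x ∈ (M.erase i).erase j, a x * min (1 - c - Y) (b x) +
      ∑ x ∈ (M.erase i).erase j, b x * min (1 - c - X) (a x) := Finset.sum_add_distrib
  rw [g1] at s1
  rw [g2] at s2
  have key : 2 * (1 - c) * (X + Y) - X ^ 2 - Y ^ 2 ≤ (1 - c) + G + κ := by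
    have h5 : (Y * (1 - c - Y) + X * (1 - c - X) - G) * N ^ 2 ≤
        ((1 - c + κ) * (1 - X - Y)) * N ^ 2 := by
      rw [hG]
      linarith
    have h6 := le_of_mul_le_mul_right h5 (by positivity)
    have h7 : 0 ≤ κ * (X + Y) := mul_nonneg hκ (by linarith)
    nlinarith
  have hs1 : 0 ≤ 1 - c - Y := by linarith
  have hs2 : 0 ≤ 1 - c - X := by linarith
  have hG0 : 0 ≤ G := Finset.sum_nonneg (fun x _ => add_nonneg
    (mul_nonneg (ha0 x) (le_min hs1 (hb0 x))) (mul_nonneg (hb0 x) (le_min hs2 (ha0 x))))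
  have hp : ∀ x ∈ (M.erase i).erase j, 0 ≤ a x + b x ∧ a x + b x ≤ 1 := fun x _ =>
    ⟨add_nonneg (ha0 x) (hb0 x), (hab x).trans (B1 x).2⟩
  obtain ⟨k1, k2⟩ := h1 ((M.erase i).erase j) (fun x => a x + b x) hp
  have k3 := k1 G hG0 (by
    show 2 * ∑ x ∈ (M.erase i).erase j,
      (a x * min (1 - c - Y) (b x) + b x * min (1 - c - X) (a x)) ≤ _
    rw [Finset.mul_sum]
    refine Finset.sum_le_sum (fun x _ => ?_)
    have t1 : a x * min (1 - c - Y) (b x) ≤ a x * b x :=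
      mul_le_mul_of_nonneg_left (min_le_right _ _) (ha0 x)
    have t2 : b x * min (1 - c - X) (a x) ≤ b x * a x :=
      mul_le_mul_of_nonneg_left (min_le_right _ _) (hb0 x)
    have t3 := sq_nonneg (a x - b x)
    nlinarith)
  have hD : 0 < 1 - c - min X Y := by
    have := min_le_left X Y
    linarith
  have k4 : ∏ x ∈ (M.erase i).erase j, (1 - (a x + b x)) ≤
      Real.exp (-(G / (1 - c - min X Y))) := by
    refine k2.trans (Real.exp_le_exp.2 (neg_le_neg ?_))
    rw [div_le_iff₀ hD]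
    show ∑ x ∈ (M.erase i).erase j,
      (a x * min (1 - c - Y) (b x) + b x * min (1 - c - X) (a x)) ≤ _
    rw [Finset.sum_mul]
    refine Finset.sum_le_sum (fun x _ => ?_)
    have t1 : a x * min (1 - c - Y) (b x) ≤ a x * (1 - c - min X Y) :=
      mul_le_mul_of_nonneg_left ((min_le_left _ _).trans (by linarith [min_le_right X Y])) (ha0 x)
    have t2 : b x * min (1 - c - X) (a x) ≤ b x * (1 - c - min X Y) :=
      mul_le_mul_of_nonneg_left ((min_le_left _ _).trans (by linarith [min_le_left X Y])) (hb0 x)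
    linarith [t1, t2, (by ring : (a x + b x) * (1 - c - min X Y) =
      a x * (1 - c - min X Y) + b x * (1 - c - min X Y))]
  have hK0 : 0 ≤ ∏ x ∈ (M.erase i).erase j, (1 - (a x + b x)) :=
    Finset.prod_nonneg (fun x hx => by linarith [(hp x hx).2])
  have hrc := h3 c κ X Y G (∏ x ∈ (M.erase i).erase j, (1 - (a x + b x))) hc.le hcu hκ hX0 hXc
    hY0 hYc hG0 hK0 k3 k4 key
  have hPK : ∏ x ∈ (M.erase i).erase j, (1 - pr T x) ≤
      ∏ x ∈ (M.erase i).erase j, (1 - (a x + b x)) :=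
    Finset.prod_le_prod (fun x _ => by linarith [(B1 x).2]) (fun x _ => by linarith [hab x])
  rw [Q1]
  exact (mul_le_mul_of_nonneg_left hPK hXY0).trans hrc

end Pool.Agent.Work.MP_1ce445_lin
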