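import Pool.Agent.Work.MP_1ce445_lin.Interface2

/-! # Block AZE: no singleton -/

namespace Pool.Agent.Work.MP_1ce445_lin

open Finset Pool.Agent.Work.MP_1ce445_co_56

theorem AZE_sum {V : Type} [Fintype V] {k : ℕ} (M : Finset (Fin k)) (T : V → Finset (Fin k))
    (hT : ∀ v, T v ⊆ M) (hN : (0 : ℝ) < Fintype.card V) :
    ∑ v, ∑ j ∈ T v, pr T j = (∑ j ∈ M, pr T j ^ 2) * Fintype.card V := by
  have h1 : ∀ v, ∑ j ∈ T v, pr T j = ∑ j ∈ M, if j ∈ T v then pr T j else 0 := by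
    intro v
    rw [← Finset.sum_filter]
    congr 1
    ext j
    simp only [Finset.mem_filter]
    exact ⟨fun h => ⟨hT v h, h⟩, fun h => h.2⟩
  simp_rw [h1]
  rw [Finset.sum_comm, Finset.sum_mul]
  refine Finset.sum_congr rfl fun j _ => ?_
  rw [← Finset.sum_filter, Finset.sum_const, nsmul_eq_mul]
  have h2 : ((univ.filter (fun v => j ∈ T v)).card : ℝ) = pr T j * Fintype.card V := by
    unfold pr
    field_simp
  rw [h2]
  ring

theorem stmt_AZE (h1 : Stmt_TAN) (h2 : Stmt_RAO) (h3 : Stmt_BAS) : Stmt_AZE := by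
  intro V _ k M T W c κ hS hns
  obtain ⟨b1, b2, -, b4, b5⟩ := h3 M T W c κ hS
  have hN : (0 : ℝ) < Fintype.card V := by exact_mod_cast hS.pos
  have hcard : ∀ v, (2 : ℝ) ≤ ((T v).card : ℝ) := by
    intro v
    have h4 : 0 < (T v).card := Finset.card_pos.2 (b2 v)
    have h5 : (T v).card ≠ 1 := by
      intro h
      obtain ⟨a, ha⟩ := Finset.card_eq_one.1 h
      exact hns a v ha
    have h6 : 2 ≤ (T v).card := by omega
    exact_mod_cast h6
  have hs1 : 2 ≤ ∑ j ∈ M, pr T j := by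
    have h4 : (∑ j ∈ M, pr T j) * Fintype.card V = ∑ v, ((T v).card : ℝ) := by
      rw [Finset.sum_mul]
      exact b5
    have h5 : ∑ _v : V, (2 : ℝ) ≤ ∑ v, ((T v).card : ℝ) := Finset.sum_le_sum fun v _ => hcard v
    rw [Finset.sum_const, nsmul_eq_mul, ← h4, Finset.card_univ] at h5
    have h6 : 2 * (Fintype.card V : ℝ) ≤ (∑ j ∈ M, pr T j) * Fintype.card V := by linarith
    exact le_of_mul_le_mul_right h6 hN
  have hs2 : 1 - c ≤ ∑ j ∈ M, pr T j ^ 2 := by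
    have h5 : ∑ _v : V, (1 - c) ≤ ∑ v, ∑ j ∈ T v, pr T j := Finset.sum_le_sum fun v _ => b4 v
    rw [Finset.sum_const, nsmul_eq_mul, AZE_sum M T hS.sub hN, Finset.card_univ] at h5
    have h6 : (1 - c) * (Fintype.card V : ℝ) ≤ (∑ j ∈ M, pr T j ^ 2) * Fintype.card V := by
      linarith
    exact le_of_mul_le_mul_right h6 hN
  have h7 : ∏ x ∈ M, (1 - pr T x) ≤
      ∏ x ∈ M, Real.exp (-(26 / 27 * pr T x + 13 / 18 * pr T x ^ 2)) :=
    Finset.prod_le_prod (fun x _ => by linarith [(b1 x).2])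
      fun x _ => (h1 (pr T x) (b1 x).1 (b1 x).2).2
  refine h7.trans ?_
  rw [← Real.exp_sum]
  refine le_trans (Real.exp_le_exp.2 ?_) (h2.2 c hS.cl hS.cu.le)
  rw [Finset.sum_neg_distrib, Finset.sum_add_distrib, ← Finset.mul_sum, ← Finset.mul_sum]
  nlinarith [hs1, hs2]

end Pool.Agent.Work.MP_1ce445_lin
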