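import Pool.Agent.Work.MP_1ce445_lin.Interface2

/-! # Block BAS: basic consequences for the set systems -/

namespace Pool.Agent.Work.MP_1ce445_lin

open Finset Pool.Agent.Work.MP_1ce445_co_56

theorem BAS_pr {V : Type} [Fintype V] {k : ℕ} (T : V → Finset (Fin k)) (j : Fin k)
    (hN : 0 < Fintype.card V) :
    pr T j * Fintype.card V = ((univ.filter (fun v => j ∈ T v)).card : ℝ) := by
  have h : (Fintype.card V : ℝ) ≠ 0 := by exact_mod_cast hN.ne'
  unfold pr
  rw [div_mul_cancel₀ _ h]

theorem BAS_deg {V : Type} [Fintype V] {k : ℕ} {M : Finset (Fin k)} {T : V → Finset (Fin k)}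
    {W : V → V → Prop} {c κ : ℝ} (h : Sys M T W c κ) (v : V) :
    dW W v ≤ ∑ j ∈ T v, ((univ.filter (fun w => j ∈ T w)).card : ℝ) := by
  classical
  have h1 : (univ.filter (fun w => W v w)) ⊆
      (T v).biUnion (fun j => univ.filter (fun w => j ∈ T w)) := by
    intro w hw
    have h2 : W v w := (Finset.mem_filter.1 hw).2
    obtain ⟨j, hj⟩ := h.meet v w h2
    rw [Finset.mem_inter] at hj
    rw [Finset.mem_biUnion]
    exact ⟨j, hj.1, Finset.mem_filter.2 ⟨Finset.mem_univ w, hj.2⟩⟩
  have h2 : (univ.filter (fun w => W v w)).card ≤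
      ∑ j ∈ T v, (univ.filter (fun w => j ∈ T w)).card :=
    (Finset.card_le_card h1).trans Finset.card_biUnion_le
  have h3 : ((univ.filter (fun w => W v w)).card : ℝ) ≤
      ((∑ j ∈ T v, (univ.filter (fun w => j ∈ T w)).card : ℕ) : ℝ) := by exact_mod_cast h2
  rw [Nat.cast_sum] at h3
  have h4 : dW W v = ((univ.filter (fun w => W v w)).card : ℝ) := by
    unfold dW
    congr 1
  rw [h4]
  exact h3

theorem BAS_four {V : Type} [Fintype V] {k : ℕ} {M : Finset (Fin k)} {T : V → Finset (Fin k)}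
    {W : V → V → Prop} {c κ : ℝ} (h : Sys M T W c κ) (v : V) :
    1 - c ≤ ∑ j ∈ T v, pr T j := by
  have hN : (0 : ℝ) < Fintype.card V := by exact_mod_cast h.pos
  have h1 := (h.low v).trans (BAS_deg h v)
  have h2 : ∑ j ∈ T v, ((univ.filter (fun w => j ∈ T w)).card : ℝ) =
      (∑ j ∈ T v, pr T j) * Fintype.card V := by
    rw [Finset.sum_mul]
    exact Finset.sum_congr rfl fun j _ => (BAS_pr T j h.pos).symm
  rw [h2] at h1
  exact le_of_mul_le_mul_right h1 hN

theorem BAS_five {V : Type} [Fintype V] {k : ℕ} {M : Finset (Fin k)} {T : V → Finset (Fin k)}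
    (hN : 0 < Fintype.card V) (hT : ∀ v, T v ⊆ M) :
    ∑ j ∈ M, pr T j * Fintype.card V = ∑ v, ((T v).card : ℝ) := by
  classical
  have h1 : ∑ j ∈ M, (univ.filter (fun v => j ∈ T v)).card = ∑ v, (T v).card := by
    have h2 : ∀ j ∈ M, (univ.filter (fun v => j ∈ T v)).card = ∑ v, if j ∈ T v then 1 else 0 :=
      fun j _ => Finset.card_filter _ _
    rw [Finset.sum_congr rfl h2, Finset.sum_comm]
    refine Finset.sum_congr rfl fun v _ => ?_
    rw [← Finset.card_filter]
    congr 1
    ext j
    rw [Finset.mem_filter]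
    exact ⟨fun hj => hj.2, fun hj => ⟨hT v hj, hj⟩⟩
  have h3 : ∑ j ∈ M, pr T j * Fintype.card V =
      ((∑ j ∈ M, (univ.filter (fun v => j ∈ T v)).card : ℕ) : ℝ) := by
    rw [Nat.cast_sum]
    exact Finset.sum_congr rfl fun j _ => BAS_pr T j hN
  rw [h3, h1, Nat.cast_sum]

theorem stmt_BAS : Stmt_BAS := by
  intro V _ k M T W c κ h
  have hN : (0 : ℝ) < Fintype.card V := by exact_mod_cast h.pos
  refine ⟨?_, ?_, ?_, fun v => BAS_four h v, BAS_five h.pos h.sub⟩
  · intro j
    have h1 := BAS_pr T j h.pos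
    constructor
    · unfold pr
      positivity
    · have h2 : (univ.filter (fun v => j ∈ T v)).card ≤ Fintype.card V := by
        rw [← Finset.card_univ]
        exact Finset.card_le_card (Finset.filter_subset _ _)
      have h3 : ((univ.filter (fun v => j ∈ T v)).card : ℝ) ≤ Fintype.card V := by
        exact_mod_cast h2
      unfold pr
      rw [div_le_one hN]
      exact h3
  · intro v
    rw [Finset.nonempty_iff_ne_empty]
    intro h0
    have h1 := BAS_four h v
    rw [h0, Finset.sum_empty] at h1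
    have h2 := h.cu
    linarith
  · intro v j hj
    have h1 := BAS_four h v
    rw [hj, Finset.sum_singleton] at h1
    exact h1

end Pool.Agent.Work.MP_1ce445_lin
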