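import Pool.Agent.Work.MP_1ce445_lin.Interface

/-!
Block CRD of THEOREM LR for MP_1ce445_co: the number of vertices and the number of colours.
-/

namespace Pool.Agent.Work.MP_1ce445_lin

open Finset

theorem CRD_pos_lt {r h j : ℕ} (hj : j < 2 * (r + 1)) (hh : 4 * (r + 1) ^ 2 ≤ h) :
    pos r j < h := by
  unfold pos
  have h1 : j / 2 ≤ r := by omega
  have h2 : j % 2 ≤ 1 := by omega
  have h3 : (j % 2) * (j / 2 + 1) ≤ 1 * (r + 1) := Nat.mul_le_mul h2 (by omega)
  have h4 : 2 * (r + 1) * (j / 2) ≤ 2 * (r + 1) * r := Nat.mul_le_mul_left _ h1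
  nlinarith

theorem CRD_pos_div {r i : ℕ} (hi : i < 2 * (r + 1)) :
    pos r i / (2 * (r + 1)) = i / 2 ∧ pos r i % (2 * (r + 1)) = (i % 2) * (i / 2 + 1) := by
  have h1 : i / 2 ≤ r := by omega
  have h2 : i % 2 ≤ 1 := by omega
  have h3 : (i % 2) * (i / 2 + 1) ≤ 1 * (r + 1) := Nat.mul_le_mul h2 (by omega)
  have h4 : (i % 2) * (i / 2 + 1) < 2 * (r + 1) := by omega
  unfold pos
  constructor
  · rw [Nat.mul_add_div (by omega), Nat.div_eq_of_lt h4, Nat.add_zero]
  · rw [Nat.mul_add_mod, Nat.mod_eq_of_lt h4]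

theorem CRD_pos_inj {r i j : ℕ} (hi : i < 2 * (r + 1)) (hj : j < 2 * (r + 1))
    (h : pos r i = pos r j) : i = j := by
  obtain ⟨a1, a2⟩ := CRD_pos_div hi
  obtain ⟨b1, b2⟩ := CRD_pos_div hj
  rw [h] at a1 a2
  have e1 : i / 2 = j / 2 := by omega
  have e2 : (i % 2) * (j / 2 + 1) = (j % 2) * (j / 2 + 1) := by rw [← b2, ← e1, ← a2]
  have e3 : i % 2 = j % 2 := Nat.eq_of_mul_eq_mul_right (by omega) e2
  omega

theorem CRD_lt_card (h g : ℕ) [NeZero h] (hg : g ≤ h) :
    (univ.filter (fun z : ZMod h => z.val < g)).card = g := by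
  classical
  have : (univ.filter (fun z : ZMod h => z.val < g)) =
      (range g).image (fun i : ℕ => (i : ZMod h)) := by
    ext z
    simp only [mem_filter, mem_univ, true_and, mem_image, mem_range]
    constructor
    · intro hz
      exact ⟨z.val, hz, ZMod.natCast_zmod_val z⟩
    · rintro ⟨i, hi, rfl⟩
      rw [ZMod.val_natCast_of_lt (lt_of_lt_of_le hi hg)]
      exact hi
  rw [this, card_image_of_injOn, card_range]
  intro i hi j hj hij
  simp only [coe_range, Set.mem_Iio] at hi hj
  have := congrArg ZMod.val hij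
  simp only at this
  rw [ZMod.val_natCast_of_lt (lt_of_lt_of_le hi hg),
    ZMod.val_natCast_of_lt (lt_of_lt_of_le hj hg)] at this
  exact this

theorem CRD_del_card (r h e : ℕ) [NeZero h] (ok : OK r h e) [DecidablePred (fun x : X r h => x.1 = none ∧ Del r e x.2.val)] :
    (univ.filter (fun x : X r h => x.1 = none ∧ Del r e x.2.val)).card = e := by
  classical
  obtain ⟨hr, he, hh⟩ := ok
  have : (univ.filter (fun x : X r h => x.1 = none ∧ Del r e x.2.val)) =
      (range e).image (fun i : ℕ => ((none, ((pos r i : ℕ) : ZMod h)) : X r h)) := by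
    ext z
    simp only [mem_filter, mem_univ, true_and, mem_image, mem_range]
    constructor
    · rintro ⟨hz, j, hj, hp⟩
      refine ⟨j, hj, ?_⟩
      rw [hp, ZMod.natCast_zmod_val, ← hz]
    · rintro ⟨i, hi, rfl⟩
      refine ⟨rfl, i, hi, ?_⟩
      rw [ZMod.val_natCast_of_lt (CRD_pos_lt (by omega) hh)]
  rw [this, card_image_of_injOn, card_range]
  intro i hi j hj hij
  simp only [coe_range, Set.mem_Iio] at hi hj
  have := congrArg ZMod.val (Prod.ext_iff.mp hij).2
  simp only at this
  rw [ZMod.val_natCast_of_lt (CRD_pos_lt (by omega) hh),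
    ZMod.val_natCast_of_lt (CRD_pos_lt (by omega) hh)] at this
  exact CRD_pos_inj (by omega) (by omega) this

theorem stmt_CRD : Stmt_CRD := by
  classical
  intro r h e g _ ok hg
  constructor
  · have h1 : Fintype.card (Vt r h e) = Nat.card {x : X r h // ¬ (x.1 = none ∧ Del r e x.2.val)} := by
      rw [← Nat.card_eq_fintype_card]
      rfl
    rw [h1, Nat.card_eq_fintype_card, Fintype.card_subtype_compl, Fintype.card_subtype]
    have h2 := CRD_del_card r h e ok
    have h3 : Fintype.card (X r h) = 2 * (r + 1) * h := by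
      simp only [X, Fintype.card_prod, Fintype.card_option, ZMod.card]
      ring
    have h4 : (univ.filter (fun x : X r h => x.1 = none ∧ Del r e x.2.val)).card ≤
        Fintype.card (X r h) := card_le_univ _
    rw [h2] at h4
    rw [h2, h3]
    rw [h3] at h4
    omega
  · have h1 : Fintype.card (Cl r h g) =
        Nat.card {p : ZMod (2 * r + 1) × ZMod h // p.1 ≠ 0 ∨ p.2.val < g} + (r + 1) := by
      rw [← Nat.card_eq_fintype_card, Nat.card_sum, Nat.card_eq_fintype_card (α := Fin (r + 1)),
        Fintype.card_fin]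
    rw [h1, Nat.card_eq_fintype_card, Fintype.card_subtype]
    have h2 : (univ.filter (fun p : ZMod (2 * r + 1) × ZMod h => p.1 ≠ 0 ∨ p.2.val < g)) =
        ((univ.filter (fun a : ZMod (2 * r + 1) => a ≠ 0)) ×ˢ (univ : Finset (ZMod h))) ∪
        (({0} : Finset (ZMod (2 * r + 1))) ×ˢ (univ.filter (fun z : ZMod h => z.val < g))) := by
      ext ⟨a, b⟩
      simp only [mem_filter, mem_univ, true_and, mem_union, mem_product, mem_singleton, and_true]
      tauto
    rw [h2, card_union_of_disjoint, card_product, card_product, CRD_lt_card h g (by omega),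
      card_singleton, card_univ, ZMod.card]
    · have h3 : (univ.filter (fun a : ZMod (2 * r + 1) => a ≠ 0)).card = 2 * r := by
        rw [filter_ne' univ (0 : ZMod (2 * r + 1)), card_erase_of_mem (mem_univ _), card_univ,
          ZMod.card]
        omega
      rw [h3]
      omega
    · rw [disjoint_left]
      rintro ⟨a, b⟩ hp hq
      simp only [mem_filter, mem_univ, true_and, mem_product, mem_singleton, and_true] at hp hq
      exact hp hq.1

end Pool.Agent.Work.MP_1ce445_lin
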