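import Pool.Agent.Work.MP_1ce445_lin.Interface

/-! Block FAC (MP_1ce445_co, linear range): the coloured graphs form a factorization. -/

namespace Pool.Agent.Work.MP_1ce445_lin

open Finset Pool.Agent.Work.MP_1ce445_co_56

namespace FACaux

variable {r h e g : ℕ}

lemma lab_none {x y : X r h} (hl : lab r h e x y = none) : x.1 = y.1 := by
  by_contra hne
  unfold lab at hl
  rw [if_neg hne] at hl
  exact Option.some_ne_none _ hl

lemma part_eq_of_lab (h3 : Stmt_PART) {x y : X r h} {b : ZMod h}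
    (hl : lab r h e x y = some (0, b)) : part x.1 = part y.1 := by
  by_cases hxy : x.1 = y.1
  · rw [hxy]
  · unfold lab at hl
    rw [if_neg hxy] at hl
    have h0 : aOf x.1 y.1 = 0 := congrArg Prod.fst (Option.some.inj hl)
    exact (h3 r).1 x.1 y.1 hxy h0

lemma colr_of_none {x y : X r h} (hl : lab r h e x y = none) :
    colr r h e g x y = Sum.inr (part x.1) := by
  unfold colr
  rw [hl]

lemma colr_of_some {x y : X r h} {a : ZMod (2 * r + 1)} {b : ZMod h}
    (hl : lab r h e x y = some (a, b)) :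
    colr r h e g x y = if a ≠ 0 ∨ b.val < g then Sum.inl (a, b)
      else if b.val < g + (r + 1) then Sum.inr (b.val - g) else Sum.inr (part x.1) := by
  unfold colr
  rw [hl]

lemma colr_symm [NeZero h] (h1 : Stmt_LSYM) (h3 : Stmt_PART) (hOK : OK r h e) (x y : X r h) :
    colr r h e g x y = colr r h e g y x := by
  have hs : lab r h e y x = lab r h e x y := (h1 r h e hOK x y).symm
  rcases hl : lab r h e x y with _ | ⟨a, b⟩
  · rw [colr_of_none hl, colr_of_none (hs.trans hl), lab_none hl]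
  · rw [colr_of_some hl, colr_of_some (hs.trans hl)]
    by_cases hc : a ≠ 0 ∨ b.val < g
    · rw [if_pos hc, if_pos hc]
    · rw [if_neg hc, if_neg hc]
      have ha : a = 0 := by
        by_contra hne
        exact hc (Or.inl hne)
      subst ha
      rw [part_eq_of_lab h3 hl]

lemma em_inj {c c' : Cl r h g} (hcc : em c = em c') : c = c' := by
  rcases c with p | i <;> rcases c' with q | j
  · have h1 : p.1 = q.1 := Sum.inl.inj hcc
    exact congrArg Sum.inl (Subtype.ext h1)
  · exact absurd hcc Sum.inl_ne_inr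
  · exact absurd hcc Sum.inr_ne_inl
  · have h1 : i.val = j.val := Sum.inr.inj hcc
    exact congrArg Sum.inr (Fin.ext h1)

lemma exists_colour (h3 : Stmt_PART) (x y : X r h) : ∃ c : Cl r h g, colr r h e g x y = em c := by
  have hp : part x.1 < r + 1 := Nat.lt_succ_of_le ((h3 r).2.1 x.1)
  rcases hl : lab r h e x y with _ | ⟨a, b⟩
  · exact ⟨Sum.inr ⟨part x.1, hp⟩, colr_of_none hl⟩
  · rw [colr_of_some hl]
    by_cases hc : a ≠ 0 ∨ b.val < g
    · rw [if_pos hc]
      exact ⟨Sum.inl ⟨(a, b), hc⟩, rfl⟩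
    · rw [if_neg hc]
      by_cases hd : b.val < g + (r + 1)
      · rw [if_pos hd]
        exact ⟨Sum.inr ⟨b.val - g, by omega⟩, rfl⟩
      · rw [if_neg hd]
        exact ⟨Sum.inr ⟨part x.1, hp⟩, rfl⟩

lemma adj_iff [NeZero h] (h1 : Stmt_LSYM) (h3 : Stmt_PART) (hOK : OK r h e) (c : Cl r h g)
    (x y : Vt r h e) :
    (Gr r h e g c).Adj x y ↔ x ≠ y ∧ colr r h e g x.1 y.1 = em c := by
  unfold Gr
  rw [SimpleGraph.fromRel_adj]
  constructor
  · rintro ⟨hne, hor⟩
    refine ⟨hne, ?_⟩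
    rcases hor with hor | hor
    · exact hor
    · rw [colr_symm h1 h3 hOK]
      exact hor
  · rintro ⟨hne, hc⟩
    exact ⟨hne, Or.inl hc⟩

end FACaux

open FACaux

theorem stmt_FAC (h1 : Stmt_LSYM) (h2 : Stmt_LEX) (h3 : Stmt_PART) : Stmt_FAC := by
  intro r h e g _ hOK hg
  apply IsFactorization.of_adj
  · intro i j x y hi hj
    rw [adj_iff h1 h3 hOK] at hi hj
    exact em_inj (hi.2.symm.trans hj.2)
  · intro x y hxy
    obtain ⟨c, hc⟩ := exists_colour (g := g) (e := e) h3 x.1 y.1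
    exact ⟨c, (adj_iff h1 h3 hOK c x y).2 ⟨hxy, hc⟩⟩
  · intro c x
    rcases c with p | i
    · obtain ⟨⟨a, b⟩, hp⟩ := p
      obtain ⟨y, hy⟩ := h2 r h e hOK a b x
      refine ⟨y, (adj_iff h1 h3 hOK _ x y).2 ⟨hy.1, ?_⟩⟩
      rw [colr_of_some hy.2, if_pos hp]
      rfl
    · have hi : i.val < r + 1 := i.isLt
      have hlt : g + i.val < h := by omega
      obtain ⟨y, hy⟩ := h2 r h e hOK 0 ((g + i.val : ℕ) : ZMod h) x
      have hval : (((g + i.val : ℕ) : ZMod h)).val = g + i.val := ZMod.val_cast_of_lt hlt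
      refine ⟨y, (adj_iff h1 h3 hOK _ x y).2 ⟨hy.1, ?_⟩⟩
      have hn : ¬ ((0 : ZMod (2 * r + 1)) ≠ 0 ∨ (((g + i.val : ℕ) : ZMod h)).val < g) := by
        rw [hval]
        rintro (h0 | h0)
        · exact h0 rfl
        · omega
      rw [colr_of_some hy.2, if_neg hn, hval, if_pos (by omega)]
      have hsub : g + i.val - g = i.val := by omega
      rw [hsub]
      rfl

end Pool.Agent.Work.MP_1ce445_lin
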