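import Pool.Agent.Work.MP_1ce445_lin.Interface

/-!
Block GAM: the total domination numbers of the factors.
-/

namespace Pool.Agent.Work.MP_1ce445_lin

open Finset Pool.Agent.Work.MP_1ce445_co_56

section general

variable {V : Type*} [Fintype V] [DecidableEq V]

/-- Unique neighbours with respect to a relation which contains the edges at the vertices of `U`. -/
lemma GAM_sub_two {G : SimpleGraph V} (hm : ∀ v, ∃ w, G.Adj v w) (R : V → V → Prop)
    (hsym : ∀ x y, R x y → R y x) (U : Finset V) (x0 v : V)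
    (ha : ∀ x ∈ U, ∀ y, G.Adj x y → R x y)
    (hb : ∀ x y y', x ≠ x0 → R x y → R x y' → y = y')
    (hc : ∀ y y', y ≠ v → y' ≠ v → R x0 y → R x0 y' → y = y') :
    U.card ≤ gammaT G + 2 := by
  obtain ⟨S, hS, hcard⟩ := exists_tds hm
  choose f hf using hm
  set W : Finset V := U.filter (fun x => x ≠ x0 ∧ x ≠ v) with hW
  have h1 : W.image f ⊆ S := by
    intro y hy
    obtain ⟨x, hx, rfl⟩ := mem_image.1 hy
    obtain ⟨hxU, hx0, -⟩ := mem_filter.1 hx
    obtain ⟨w, hw, haw⟩ := hS x
    rw [hb x (f x) w hx0 (ha x hxU _ (hf x)) (ha x hxU _ haw)]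
    exact hw
  have h2 : Set.InjOn f (W : Set V) := by
    intro x hx x' hx' hxx
    obtain ⟨hxU, hx0, hxv⟩ := mem_filter.1 (mem_coe.1 hx)
    obtain ⟨hxU', hx0', hxv'⟩ := mem_filter.1 (mem_coe.1 hx')
    have h3 : R (f x) x := hsym _ _ (ha x hxU _ (hf x))
    have h4 : R (f x) x' := by
      rw [hxx]
      exact hsym _ _ (ha x' hxU' _ (hf x'))
    by_cases h5 : f x = x0
    · rw [h5] at h3 h4
      exact hc _ _ hxv hxv' h3 h4
    · exact hb _ _ _ h5 h3 h4
  have h3 : W.card ≤ gammaT G := by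
    rw [← hcard, ← card_image_of_injOn h2]
    exact card_le_card h1
  have h4 : U ⊆ W ∪ {x0, v} := by
    intro x hx
    rw [mem_union, mem_insert, mem_singleton]
    by_cases h5 : x = x0
    · exact Or.inr (Or.inl h5)
    by_cases h6 : x = v
    · exact Or.inr (Or.inr h6)
    · exact Or.inl (mem_filter.2 ⟨hx, h5, h6⟩)
  have h5 : ({x0, v} : Finset V).card ≤ 2 := card_le_two
  have h6 := (card_le_card h4).trans (card_union_le _ _)
  omega

/-- Unique neighbours except at one vertex. -/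
lemma GAM_sub_one {G : SimpleGraph V} (hm : ∀ v, ∃ w, G.Adj v w) (x0 v : V)
    (hb : ∀ x y y', x ≠ x0 → G.Adj x y → G.Adj x y' → y = y')
    (hc : ∀ y y', y ≠ v → y' ≠ v → G.Adj x0 y → G.Adj x0 y' → y = y') :
    Fintype.card V ≤ gammaT G + 1 := by
  obtain ⟨S, hS, hcard⟩ := exists_tds hm
  choose f hf using hm
  set W : Finset V := univ.filter (fun x => x ≠ x0 ∧ x ≠ v) with hW
  have h1 : W.image f ⊆ S := by
    intro y hy
    obtain ⟨x, hx, rfl⟩ := mem_image.1 hy
    obtain ⟨-, hx0, -⟩ := mem_filter.1 hx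
    obtain ⟨w, hw, haw⟩ := hS x
    rw [hb x (f x) w hx0 (hf x) haw]
    exact hw
  have h2 : Set.InjOn f (W : Set V) := by
    intro x hx x' hx' hxx
    obtain ⟨-, hx0, hxv⟩ := mem_filter.1 (mem_coe.1 hx)
    obtain ⟨-, hx0', hxv'⟩ := mem_filter.1 (mem_coe.1 hx')
    have h3 : G.Adj (f x) x := (hf x).symm
    have h4 : G.Adj (f x) x' := by
      rw [hxx]
      exact (hf x').symm
    by_cases h5 : f x = x0
    · rw [h5] at h3 h4
      exact hc _ _ hxv hxv' h3 h4
    · exact hb _ _ _ h5 h3 h4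
  obtain ⟨y, hyS, hy⟩ := hS x0
  have h3 : y ∉ W.image f := by
    intro hyW
    obtain ⟨x, hx, hxy⟩ := mem_image.1 hyW
    obtain ⟨-, hx0, -⟩ := mem_filter.1 hx
    have h4 : G.Adj y x := by
      rw [← hxy]
      exact (hf x).symm
    exact hx0 (hb y x x0 hy.ne' h4 hy.symm)
  have h4 : (insert y (W.image f)).card ≤ S.card :=
    card_le_card (insert_subset hyS h1)
  rw [card_insert_of_notMem h3, card_image_of_injOn h2, hcard] at h4
  have h5 : (univ : Finset V) ⊆ W ∪ {x0, v} := by
    intro x hx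
    rw [mem_union, mem_insert, mem_singleton]
    by_cases h5 : x = x0
    · exact Or.inr (Or.inl h5)
    by_cases h6 : x = v
    · exact Or.inr (Or.inr h6)
    · exact Or.inl (mem_filter.2 ⟨hx, h5, h6⟩)
  have h6 : ({x0, v} : Finset V).card ≤ 2 := card_le_two
  have h7 := (card_le_card h5).trans (card_union_le _ _)
  rw [card_univ] at h7
  omega

end general

section colours

variable {r h e g : ℕ} [NeZero h]

omit [NeZero h] in
lemma GAM_colr_inl {x y : X r h} {q : ZMod (2 * r + 1) × ZMod h} :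
    colr r h e g x y = Sum.inl q ↔
      lab r h e x y = some q ∧ (q.1 ≠ 0 ∨ q.2.val < g) := by
  unfold colr
  cases hl : lab r h e x y with
  | none => simp
  | some q' =>
    obtain ⟨a, b⟩ := q'
    simp only [Option.some.injEq]
    split_ifs with h1 h2
    · constructor
      · intro h3
        have h4 := Sum.inl.inj h3
        exact ⟨h4, by rw [← h4]; exact h1⟩
      · rintro ⟨h3, -⟩
        rw [h3]
    · constructor
      · intro h3
        exact absurd h3 (by simp)
      · rintro ⟨h3, h4⟩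
        rw [← h3] at h4
        exact absurd h4 h1
    · constructor
      · intro h3
        exact absurd h3 (by simp)
      · rintro ⟨h3, h4⟩
        rw [← h3] at h4
        exact absurd h4 h1

omit [NeZero h] in
lemma GAM_colr_inr {x y : X r h} {i : ℕ} (hc : colr r h e g x y = Sum.inr i) :
    (lab r h e x y = none ∧ part x.1 = i) ∨
    (∃ b : ZMod h, lab r h e x y = some (0, b) ∧ b.val = g + i) ∨
    (∃ b : ZMod h, lab r h e x y = some (0, b) ∧ part x.1 = i) := by
  unfold colr at hc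
  cases hl : lab r h e x y with
  | none =>
    rw [hl] at hc
    left
    exact ⟨rfl, Sum.inr.inj hc⟩
  | some q' =>
    obtain ⟨a, b⟩ := q'
    rw [hl] at hc
    simp only at hc
    right
    split_ifs at hc with h1 h2
    · push Not at h1
      left
      refine ⟨b, by rw [h1.1], ?_⟩
      have h3 := Sum.inr.inj hc
      omega
    · push Not at h1
      right
      exact ⟨b, by rw [h1.1], Sum.inr.inj hc⟩

lemma GAM_adj_inl (hs : Stmt_LSYM) (hok : OK r h e)
    (p : {p : ZMod (2 * r + 1) × ZMod h // p.1 ≠ 0 ∨ p.2.val < g}) (x y : Vt r h e) :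
    (Gr r h e g (Sum.inl p)).Adj x y ↔ Rl p.1.1 p.1.2 x y := by
  unfold Gr Rl
  rw [SimpleGraph.fromRel_adj]
  simp only [em]
  rw [GAM_colr_inl, GAM_colr_inl, hs r h e hok y.1 x.1]
  constructor
  · rintro ⟨h1, h2 | h2⟩
    · exact ⟨h1, h2.1⟩
    · exact ⟨h1, h2.1⟩
  · rintro ⟨h1, h2⟩
    exact ⟨h1, Or.inl ⟨h2, p.2⟩⟩

lemma GAM_rl_symm (hs : Stmt_LSYM) (hok : OK r h e) {a : ZMod (2 * r + 1)} {b : ZMod h}
    {x y : Vt r h e} (hxy : Rl a b x y) : Rl a b y x := by
  refine ⟨hxy.1.symm, ?_⟩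
  rw [hs r h e hok y.1 x.1]
  exact hxy.2

omit [NeZero h] in
lemma GAM_lab_part (hp : Stmt_PART) {x y : X r h}
    (h1 : lab r h e x y = none ∨ ∃ b : ZMod h, lab r h e x y = some (0, b)) :
    part x.1 = part y.1 := by
  by_cases hxy : x.1 = y.1
  · rw [hxy]
  · rcases h1 with h1 | ⟨b, h1⟩
    · unfold lab at h1
      rw [if_neg hxy] at h1
      exact absurd h1 (by simp)
    · unfold lab at h1
      rw [if_neg hxy] at h1
      have h2 := Option.some.inj h1
      have h3 : aOf x.1 y.1 = 0 := (Prod.ext_iff.1 h2).1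
      exact (hp r).1 _ _ hxy h3

lemma GAM_adj_inr (hs : Stmt_LSYM) (hp : Stmt_PART) (hok : OK r h e)
    (i : Fin (r + 1)) (x y : Vt r h e) (hx : part x.1.1 ≠ i.val)
    (hxy : (Gr r h e g (Sum.inr i)).Adj x y) :
    Rl 0 ((g + i.val : ℕ) : ZMod h) x y := by
  unfold Gr at hxy
  rw [SimpleGraph.fromRel_adj] at hxy
  obtain ⟨h1, h2⟩ := hxy
  simp only [em] at h2
  refine ⟨h1, ?_⟩
  have hval : ∀ b : ZMod h, b.val = g + i.val → b = ((g + i.val : ℕ) : ZMod h) := by
    intro b hb
    rw [← hb, ZMod.natCast_zmod_val]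
  rcases h2 with h2 | h2
  · rcases GAM_colr_inr h2 with ⟨h3, h4⟩ | ⟨b, h3, h4⟩ | ⟨b, h3, h4⟩
    · exact absurd h4 hx
    · rw [h3, hval b h4]
    · exact absurd h4 hx
  · rcases GAM_colr_inr h2 with ⟨h3, h4⟩ | ⟨b, h3, h4⟩ | ⟨b, h3, h4⟩
    · exact absurd (GAM_lab_part hp (Or.inl h3) ▸ h4) hx
    · rw [hs r h e hok x.1 y.1, h3, hval b h4]
    · exact absurd (GAM_lab_part hp (Or.inr ⟨b, h3⟩) ▸ h4) hx

lemma GAM_deg_inr (hlex : Stmt_LEX) (hok : OK r h e) (hg : g + (r + 1) ≤ h)
    (i : Fin (r + 1)) (x : Vt r h e) : ∃ y, (Gr r h e g (Sum.inr i)).Adj x y := by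
  obtain ⟨y, hy1, hy2⟩ := hlex r h e hok 0 ((g + i.val : ℕ) : ZMod h) x
  refine ⟨y, ?_⟩
  unfold Gr
  rw [SimpleGraph.fromRel_adj]
  refine ⟨hy1, Or.inl ?_⟩
  simp only [em]
  have hi := i.2
  have hv : ((g + i.val : ℕ) : ZMod h).val = g + i.val := ZMod.val_natCast_of_lt (by omega)
  unfold colr
  rw [hy2]
  simp only
  rw [if_neg (by
    rw [hv]
    simp), if_pos (by
    rw [hv]
    omega), hv]
  congr 1
  omega

/-- The number of vertices in a part. -/
lemma GAM_part_card (hp : Stmt_PART) (i : ℕ) :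
    (univ.filter (fun x : Vt r h e => part x.1.1 = i)).card ≤ 2 * h := by
  classical
  have h1 : (univ.filter (fun x : Vt r h e => part x.1.1 = i)).card ≤
      ((univ.filter (fun u : Option (ZMod (2 * r + 1)) => part u = i)) ×ˢ
        (univ : Finset (ZMod h))).card := by
    apply card_le_card_of_injOn (fun x => x.1)
    · intro x hx
      have hx' := (mem_filter.1 (mem_coe.1 hx)).2
      exact mem_coe.2 (mem_product.2 ⟨mem_filter.2 ⟨mem_univ _, hx'⟩, mem_univ _⟩)
    · intro x _ y _ hxy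
      exact Subtype.ext hxy
  rw [card_product, card_univ, ZMod.card] at h1
  exact h1.trans (Nat.mul_le_mul_right _ ((hp r).2.2 i))

end colours

theorem stmt_GAM (hs : Stmt_LSYM) (hlex : Stmt_LEX) (hun : Stmt_LUN) (hp : Stmt_PART)
    (hcrd : Stmt_CRD) : Stmt_GAM := by
  intro r h e g _ hok hg
  constructor
  · intro p
    have hm : ∀ x : Vt r h e, ∃ y, (Gr r h e g (Sum.inl p)).Adj x y := by
      intro x
      obtain ⟨y, hy⟩ := hlex r h e hok p.1.1 p.1.2 x
      exact ⟨y, (GAM_adj_inl hs hok p x y).2 hy⟩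
    rcases hun r h e hok p.1.1 p.1.2 with h1 | ⟨hodd, x0, v, -, h2, h3⟩
    · have hm' := hm
      choose f hf using hm'
      have h2 : Function.Injective f := by
        intro x x' hxx
        have h3 : Rl p.1.1 p.1.2 (f x) x :=
          GAM_rl_symm hs hok ((GAM_adj_inl hs hok p _ _).1 (hf x))
        have h4 : Rl p.1.1 p.1.2 (f x) x' := by
          rw [hxx]
          exact GAM_rl_symm hs hok ((GAM_adj_inl hs hok p _ _).1 (hf x'))
        exact h1 _ _ _ h3 h4
      have h3 := card_le_gammaT hm (fun x => x) f h2 (fun x w hw =>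
        h1 _ _ _ ((GAM_adj_inl hs hok p _ _).1 hw) ((GAM_adj_inl hs hok p _ _).1 (hf x)))
      unfold NN
      omega
    · have h4 := GAM_sub_one hm x0 v
        (fun x y y' hx hy hy' => h2 x y y' hx ((GAM_adj_inl hs hok p _ _).1 hy)
          ((GAM_adj_inl hs hok p _ _).1 hy'))
        (fun y y' hy hy' h5 h6 => h3 y y' hy hy' ((GAM_adj_inl hs hok p _ _).1 h5)
          ((GAM_adj_inl hs hok p _ _).1 h6))
      have h5 := (hcrd r h e g hok hg).1
      obtain ⟨t, ht⟩ := hodd
      have h6 : 2 * (r + 1) * h = 2 * ((r + 1) * h) := by ring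
      rw [h6] at h5
      unfold NN
      omega
  · intro i
    have hm : ∀ x : Vt r h e, ∃ y, (Gr r h e g (Sum.inr i)).Adj x y :=
      GAM_deg_inr hlex hok hg i
    set U : Finset (Vt r h e) := univ.filter (fun x => ¬ part x.1.1 = i.val) with hU
    have hcard : Fintype.card (Vt r h e) ≤ U.card + 2 * h := by
      have h1 : (univ.filter (fun x : Vt r h e => part x.1.1 = i.val)).card + U.card =
          (univ : Finset (Vt r h e)).card :=
        card_filter_add_card_filter_not (fun x : Vt r h e => part x.1.1 = i.val)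
      have h2 := GAM_part_card (r := r) (h := h) (e := e) hp i.val
      rw [card_univ] at h1
      omega
    have key : U.card ≤ gammaT (Gr r h e g (Sum.inr i)) + 2 := by
      have ha : ∀ x ∈ U, ∀ y, (Gr r h e g (Sum.inr i)).Adj x y →
          Rl 0 ((g + i.val : ℕ) : ZMod h) x y := by
        intro x hx y hxy
        exact GAM_adj_inr hs hp hok i x y (mem_filter.1 hx).2 hxy
      rcases hun r h e hok 0 ((g + i.val : ℕ) : ZMod h) with h1 | ⟨-, x0, v, -, h2, h3⟩
      · rcases isEmpty_or_nonempty (Vt r h e) with hem | ⟨⟨x0⟩⟩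
        · have h2 : U = ∅ := by
            apply eq_empty_of_isEmpty
          rw [h2, card_empty]
          exact Nat.zero_le _
        · exact GAM_sub_two hm _ (fun x y => GAM_rl_symm hs hok) U x0 x0 ha
            (fun x y y' _ => h1 x y y') (fun y y' _ _ => h1 x0 y y')
      · exact GAM_sub_two hm _ (fun x y => GAM_rl_symm hs hok) U x0 v ha h2 h3
    omega

end Pool.Agent.Work.MP_1ce445_lin
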