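import Pool.Agent.Work.MP_1ce445_lin.Interface2

/-!
# Block GK (MP_1ce445_co, helper10): product bounds
-/

namespace Pool.Agent.Work.MP_1ce445_lin

open Finset Pool.Agent.Work.MP_1ce445_co_56

theorem GK_step (a b : ℝ) (ha : 0 ≤ a) (hb : 0 ≤ b) (ha2 : a ≤ 1 / 2) (hb2 : b ≤ 1 / 2) :
    (1 - b) * (1 - a) ≤ 1 - Real.sqrt (b ^ 2 + a ^ 2) := by
  have h1 : Real.sqrt (b ^ 2 + a ^ 2) ≤ a + b - a * b := by
    have h0 : 0 ≤ a + b - a * b := by nlinarith
    rw [show a + b - a * b = Real.sqrt ((a + b - a * b) ^ 2) from (Real.sqrt_sq h0).symm]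
    apply Real.sqrt_le_sqrt
    have hab : 0 ≤ a * b := mul_nonneg ha hb
    have : 0 ≤ a * b * (2 - 2 * (a + b) + a * b) := mul_nonneg hab (by linarith)
    nlinarith
  nlinarith

theorem GK_aux {ι : Type} (p : ι → ℝ) (F : Finset ι) : (∀ j ∈ F, 0 ≤ p j) →
    ∑ j ∈ F, p j ^ 2 ≤ 1 / 4 → ∏ j ∈ F, (1 - p j) ≤ 1 - Real.sqrt (∑ j ∈ F, p j ^ 2) := by
  classical
  induction F using Finset.induction_on with
  | empty => intro _ _; simp
  | insert i F hi ih =>
    intro h hS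
    rw [Finset.sum_insert hi] at hS ⊢
    rw [Finset.prod_insert hi]
    have hp0 : 0 ≤ p i := h i (Finset.mem_insert_self i F)
    have hS' : 0 ≤ ∑ j ∈ F, p j ^ 2 := Finset.sum_nonneg fun j _ => sq_nonneg _
    have hSF : ∑ j ∈ F, p j ^ 2 ≤ 1 / 4 := by nlinarith [sq_nonneg (p i)]
    have hIH := ih (fun j hj => h j (Finset.mem_insert_of_mem hj)) hSF
    have hp2 : p i ≤ 1 / 2 := by
      by_contra hc
      push Not at hc
      nlinarith
    set s := Real.sqrt (∑ j ∈ F, p j ^ 2) with hs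
    have hs0 : 0 ≤ s := Real.sqrt_nonneg _
    have hss : s ^ 2 = ∑ j ∈ F, p j ^ 2 := Real.sq_sqrt hS'
    have hs2 : s ≤ 1 / 2 := by
      by_contra hc
      push Not at hc
      nlinarith
    have hst := GK_step s (p i) hs0 hp0 hs2 hp2
    rw [← hss]
    calc (1 - p i) * ∏ j ∈ F, (1 - p j) ≤ (1 - p i) * (1 - s) :=
          mul_le_mul_of_nonneg_left hIH (by linarith)
      _ ≤ 1 - Real.sqrt (p i ^ 2 + s ^ 2) := hst

theorem GK_half {ι : Type} (p : ι → ℝ) (F : Finset ι) (h : ∀ j ∈ F, 0 ≤ p j ∧ p j ≤ 1)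
    (hS : 1 / 4 < ∑ j ∈ F, p j ^ 2) : ∏ j ∈ F, (1 - p j) ≤ 1 / 2 := by
  set S := ∑ j ∈ F, p j ^ 2 with hSdef
  have hS0 : 0 < S := by linarith
  set s := Real.sqrt S with hs
  have hss : s ^ 2 = S := Real.sq_sqrt hS0.le
  have hs0 : 0 < s := Real.sqrt_pos.2 hS0
  have hs1 : 1 / 2 < s := by
    by_contra hc
    push Not at hc
    nlinarith
  set t := 1 / (2 * s) with ht
  have ht0 : 0 < t := by positivity
  have ht1 : t ≤ 1 := by
    rw [ht, div_le_one (by positivity)]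
    linarith
  have hsum : ∑ j ∈ F, (t * p j) ^ 2 = 1 / 4 := by
    have : ∑ j ∈ F, (t * p j) ^ 2 = t ^ 2 * S := by
      rw [hSdef, Finset.mul_sum]
      exact Finset.sum_congr rfl fun j _ => by ring
    rw [this, ← hss, ht]
    field_simp
    norm_num
  have h1 := GK_aux (fun j => t * p j) F (fun j hj => mul_nonneg ht0.le (h j hj).1) hsum.le
  rw [hsum] at h1
  have h2 : Real.sqrt (1 / 4) = 1 / 2 := by
    rw [show (1 / 4 : ℝ) = (1 / 2) ^ 2 by norm_num]
    exact Real.sqrt_sq (by norm_num)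
  rw [h2] at h1
  have h3 : ∏ j ∈ F, (1 - p j) ≤ ∏ j ∈ F, (1 - t * p j) := by
    apply Finset.prod_le_prod
    · intro j hj
      linarith [(h j hj).2]
    · intro j hj
      nlinarith [(h j hj).1]
  linarith

theorem stmt_GK : Stmt_GK := by
  intro ι F p h
  refine ⟨fun G hG0 hG => ?_, ?_⟩
  · rcases le_or_gt (∑ j ∈ F, p j ^ 2) (1 / 4) with hS | hS
    · have h1 := GK_aux p F (fun j hj => (h j hj).1) hS
      have h2 : Real.sqrt (2 * G) ≤ Real.sqrt (∑ j ∈ F, p j ^ 2) := Real.sqrt_le_sqrt hG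
      have h3 : min (Real.sqrt (2 * G)) (1 / 2) ≤ Real.sqrt (2 * G) := min_le_left _ _
      linarith
    · have h1 := GK_half p F h hS
      have h3 : min (Real.sqrt (2 * G)) (1 / 2) ≤ 1 / 2 := min_le_right _ _
      linarith
  · calc ∏ j ∈ F, (1 - p j) ≤ ∏ j ∈ F, Real.exp (-p j) := by
          apply Finset.prod_le_prod
          · intro j hj
            linarith [(h j hj).2]
          · intro j _
            exact Real.one_sub_le_exp_neg (p j)
      _ = Real.exp (-∑ j ∈ F, p j) := by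
          rw [← Real.exp_sum, Finset.sum_neg_distrib]

end Pool.Agent.Work.MP_1ce445_lin
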