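import Pool.Agent.Work.MP_1ce445_lin.Interface

/-!
Block INA of `MP_1ce445_lin`: the one-variable inequality.
-/

namespace Pool.Agent.Work.MP_1ce445_lin

open Finset Pool.Agent.Work.MP_1ce445_co_56

namespace INA

theorem pow_step (a : ℕ) (ha : 1 ≤ a) :
    (1 - 1 / (a : ℝ)) ^ a ≤ (1 - 1 / ((a + 1 : ℕ) : ℝ)) ^ (a + 1) := by
  rcases Nat.eq_or_lt_of_le ha with h | h
  · subst h
    norm_num
  · have hA : (2 : ℝ) ≤ a := by exact_mod_cast h
    have h1 : (0 : ℝ) < (a : ℝ) ^ 2 - 1 := by nlinarith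
    have h2 : (0 : ℝ) < (a : ℝ) + 1 := by linarith
    have h3 : (0 : ℝ) < (a : ℝ) := by linarith
    have hq : 0 ≤ 1 - 1 / (a : ℝ) := by
      rw [sub_nonneg, div_le_one h3]; linarith
    have hp : (1 - 1 / ((a + 1 : ℕ) : ℝ))
        = (1 - 1 / (a : ℝ)) * (1 + 1 / ((a : ℝ) ^ 2 - 1)) := by
      push_cast
      field_simp
      ring
    have hp0 : 0 ≤ 1 - 1 / ((a + 1 : ℕ) : ℝ) := by
      push_cast
      rw [sub_nonneg, div_le_one h2]; linarith
    have hb : 1 + (a : ℝ) * (1 / ((a : ℝ) ^ 2 - 1)) ≤ (1 + 1 / ((a : ℝ) ^ 2 - 1)) ^ a := by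
      apply one_add_mul_le_pow
      have : (0 : ℝ) ≤ 1 / ((a : ℝ) ^ 2 - 1) := by positivity
      linarith
    have hc : 1 ≤ (1 - 1 / ((a + 1 : ℕ) : ℝ)) * (1 + (a : ℝ) * (1 / ((a : ℝ) ^ 2 - 1))) := by
      have he : (1 - 1 / ((a + 1 : ℕ) : ℝ)) * (1 + (a : ℝ) * (1 / ((a : ℝ) ^ 2 - 1)))
          = (a * ((a : ℝ) ^ 2 - 1 + a)) / (((a : ℝ) + 1) * ((a : ℝ) ^ 2 - 1)) := by
        push_cast
        field_simp
        ring
      rw [he, le_div_iff₀ (by positivity)]
      nlinarith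
    calc (1 - 1 / (a : ℝ)) ^ a = (1 - 1 / (a : ℝ)) ^ a * 1 := by ring
      _ ≤ (1 - 1 / (a : ℝ)) ^ a *
          ((1 - 1 / ((a + 1 : ℕ) : ℝ)) * (1 + (a : ℝ) * (1 / ((a : ℝ) ^ 2 - 1)))) :=
          mul_le_mul_of_nonneg_left hc (pow_nonneg hq a)
      _ ≤ (1 - 1 / (a : ℝ)) ^ a *
          ((1 - 1 / ((a + 1 : ℕ) : ℝ)) * (1 + 1 / ((a : ℝ) ^ 2 - 1)) ^ a) :=
          mul_le_mul_of_nonneg_left (mul_le_mul_of_nonneg_left hb hp0) (pow_nonneg hq a)
      _ = (1 - 1 / ((a + 1 : ℕ) : ℝ)) *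
          ((1 - 1 / (a : ℝ)) * (1 + 1 / ((a : ℝ) ^ 2 - 1))) ^ a := by
          rw [mul_pow]; ring
      _ = (1 - 1 / ((a + 1 : ℕ) : ℝ)) * (1 - 1 / ((a + 1 : ℕ) : ℝ)) ^ a := by rw [← hp]
      _ = (1 - 1 / ((a + 1 : ℕ) : ℝ)) ^ (a + 1) := by ring

theorem pow_mono (a m : ℕ) (ha : 1 ≤ a) (h : a ≤ m) :
    (1 - 1 / (a : ℝ)) ^ a ≤ (1 - 1 / (m : ℝ)) ^ m := by
  induction m, h using Nat.le_induction with
  | base => exact le_rfl
  | succ m hm ih => exact ih.trans (pow_step m (ha.trans hm))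

theorem quarter_le (m : ℕ) (hm : 2 ≤ m) : (1 : ℝ) / 4 ≤ (1 - 1 / (m : ℝ)) ^ m := by
  have h := pow_mono 2 m (by norm_num) hm
  have h2 : (1 - 1 / ((2 : ℕ) : ℝ)) ^ 2 = 1 / 4 := by norm_num
  linarith

/-- `(1 - x/a)^a e^x` is decreasing in `x`. -/
theorem decr (a : ℕ) (x y : ℝ) (ha : 1 ≤ a) (hy : 0 ≤ y) (hyx : y ≤ x) (hx : x ≤ a) :
    (1 - x / a) ^ a * Real.exp x ≤ (1 - y / a) ^ a * Real.exp y := by
  have ha0 : (0 : ℝ) < a := by exact_mod_cast ha
  have h1 : 0 ≤ 1 - x / a := by rw [sub_nonneg, div_le_one ha0]; exact hx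
  have h1' : 0 ≤ 1 - y / a := by
    rw [sub_nonneg, div_le_one ha0]; linarith
  have h2 : 1 - x / a ≤ (1 - y / a) * Real.exp (-((x - y) / a)) := by
    have h3 : 1 - (x - y) / a ≤ Real.exp (-((x - y) / a)) := by
      have := Real.add_one_le_exp (-((x - y) / a))
      linarith
    have h4 : 1 - x / a ≤ (1 - y / a) * (1 - (x - y) / a) := by
      have h5 : (1 - y / a) * (1 - (x - y) / a) - (1 - x / a) = (y / a) * ((x - y) / a) := by
        ring
      have h6 : 0 ≤ (y / a) * ((x - y) / a) :=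
        mul_nonneg (div_nonneg hy ha0.le) (div_nonneg (by linarith) ha0.le)
      linarith
    exact h4.trans (mul_le_mul_of_nonneg_left h3 h1')
  have h7 : (1 - x / a) ^ a ≤ (1 - y / a) ^ a * Real.exp (-(x - y)) := by
    calc (1 - x / a) ^ a ≤ ((1 - y / a) * Real.exp (-((x - y) / a))) ^ a :=
          pow_le_pow_left₀ h1 h2 a
      _ = (1 - y / a) ^ a * Real.exp (-(x - y)) := by
          rw [mul_pow, ← Real.exp_nat_mul]
          congr 2
          field_simp
  calc (1 - x / a) ^ a * Real.exp x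
      ≤ ((1 - y / a) ^ a * Real.exp (-(x - y))) * Real.exp x :=
        mul_le_mul_of_nonneg_right h7 (Real.exp_pos _).le
    _ = (1 - y / a) ^ a * Real.exp y := by
        rw [mul_assoc, ← Real.exp_add]
        congr 2
        ring

/-- The case `u ≤ 1`. -/
theorem key (a m : ℕ) (u : ℝ) (ha : 1 ≤ a) (ham : a ≤ m) (hm : 2 ≤ m) (hu : 0 ≤ u) :
    (1 - (1 - u) / a) ^ a ≤ Real.exp (2 * u) * (1 - 1 / (m : ℝ)) ^ m ∨ 1 < u := by
  by_cases hu1 : 1 < u
  · exact Or.inr hu1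
  left
  rcases Nat.eq_or_lt_of_le ha with h | h
  · subst h
    have h1 : 1 + 2 * u + (2 * u) ^ 2 / 2 ≤ Real.exp (2 * u) :=
      Real.quadratic_le_exp_of_nonneg (by linarith)
    have h2 : 4 * u ≤ Real.exp (2 * u) := by nlinarith [sq_nonneg (1 - u), sq_nonneg u]
    have h3 := quarter_le m hm
    have h4 : (1 - (1 - u) / ((1 : ℕ) : ℝ)) ^ 1 = u := by norm_num
    rw [h4]
    calc u = (4 * u) * (1 / 4) := by ring
      _ ≤ Real.exp (2 * u) * (1 - 1 / (m : ℝ)) ^ m :=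
          mul_le_mul h2 h3 (by norm_num) (Real.exp_pos _).le
  · have hA : (2 : ℝ) ≤ a := by exact_mod_cast h
    have hA0 : (0 : ℝ) < a := by linarith
    have hA1 : (0 : ℝ) < (a : ℝ) - 1 := by linarith
    have h1 : 1 - (1 - u) / (a : ℝ) = (1 - 1 / a) * (1 + u / ((a : ℝ) - 1)) := by
      field_simp
      ring
    have hq : 0 ≤ 1 - 1 / (a : ℝ) := by
      rw [sub_nonneg, div_le_one hA0]; linarith
    have h2 : 1 + u / ((a : ℝ) - 1) ≤ Real.exp (u / ((a : ℝ) - 1)) := by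
      have := Real.add_one_le_exp (u / ((a : ℝ) - 1))
      linarith
    have h3 : 0 ≤ 1 + u / ((a : ℝ) - 1) := by positivity
    have h4 : (1 + u / ((a : ℝ) - 1)) ^ a ≤ Real.exp (2 * u) := by
      calc (1 + u / ((a : ℝ) - 1)) ^ a ≤ Real.exp (u / ((a : ℝ) - 1)) ^ a :=
            pow_le_pow_left₀ h3 h2 a
        _ = Real.exp (a * (u / ((a : ℝ) - 1))) := by rw [← Real.exp_nat_mul]
        _ ≤ Real.exp (2 * u) := by
            apply Real.exp_le_exp.mpr
            rw [mul_div_assoc', div_le_iff₀ hA1]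
            nlinarith
    rw [h1, mul_pow, mul_comm]
    exact mul_le_mul h4 (pow_mono a m ha ham) (pow_nonneg hq a) (Real.exp_pos _).le

end INA

theorem stmt_INA : Stmt_INA := by
  intro a m x s r ha ham hm hs hr hx hxa hsr
  have ha0 : (0 : ℝ) < a := by exact_mod_cast ha
  have hL : (1 - x / a) ^ a * Real.exp (-(1 - s + r - x))
      = ((1 - x / a) ^ a * Real.exp x) * Real.exp (-1 + s - r) := by
    rw [mul_assoc, ← Real.exp_add]
    congr 2
    ring
  rw [hL]
  rcases INA.key a m (r + s) ha ham hm (by linarith) with h | h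
  · by_cases hu : r + s ≤ 1
    · have h1 := INA.decr a x (1 - (r + s)) ha (by linarith) (by linarith) hxa
      calc ((1 - x / a) ^ a * Real.exp x) * Real.exp (-1 + s - r)
          ≤ ((1 - (1 - (r + s)) / a) ^ a * Real.exp (1 - (r + s))) * Real.exp (-1 + s - r) :=
            mul_le_mul_of_nonneg_right h1 (Real.exp_pos _).le
        _ = (1 - (1 - (r + s)) / a) ^ a * Real.exp (-2 * r) := by
            rw [mul_assoc, ← Real.exp_add]
            congr 2
            ring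
        _ ≤ (Real.exp (2 * (r + s)) * (1 - 1 / (m : ℝ)) ^ m) * Real.exp (-2 * r) :=
            mul_le_mul_of_nonneg_right h (Real.exp_pos _).le
        _ = Real.exp (2 * s) * (1 - 1 / (m : ℝ)) ^ m := by
            have h2 : Real.exp (2 * s) = Real.exp (2 * (r + s)) * Real.exp (-2 * r) := by
              rw [← Real.exp_add]
              congr 1
              ring
            rw [h2]
            ring
    · push Not at hu
      exact big a m x s r ha hm hx hxa hu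
  · exact big a m x s r ha hm hx hxa h
where
  big (a m : ℕ) (x s r : ℝ) (ha : 1 ≤ a) (hm : 2 ≤ m) (hx : 0 ≤ x) (hxa : x ≤ a)
      (hu : 1 < r + s) :
      ((1 - x / a) ^ a * Real.exp x) * Real.exp (-1 + s - r) ≤
        Real.exp (2 * s) * (1 - 1 / (m : ℝ)) ^ m := by
    have h1 := INA.decr a x 0 ha le_rfl hx hxa
    have h1' : (1 - x / a) ^ a * Real.exp x ≤ 1 := by simpa using h1
    have h2 : Real.exp (-1 + s - r) ≤ Real.exp (2 * s) * (1 / 4) := by
      have h3 : Real.exp (-1 + s - r) ≤ Real.exp (2 * s + -2) :=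
        Real.exp_le_exp.mpr (by linarith)
      have h4 : Real.exp (2 * s + -2) = Real.exp (2 * s) * Real.exp (-2) := Real.exp_add _ _
      have h5 : Real.exp (-2) ≤ 1 / 4 := by
        have h6 : (2 : ℝ) ≤ Real.exp 1 := by
          have := Real.add_one_le_exp (1 : ℝ)
          linarith
        have h7 : (4 : ℝ) ≤ Real.exp 2 := by
          have h8 : Real.exp 2 = Real.exp 1 * Real.exp 1 := by
            rw [← Real.exp_add]; norm_num
          nlinarith
        rw [Real.exp_neg, one_div]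
        exact inv_anti₀ (by norm_num) h7
      rw [h4] at h3
      exact h3.trans (mul_le_mul_of_nonneg_left h5 (Real.exp_pos _).le)
    calc ((1 - x / a) ^ a * Real.exp x) * Real.exp (-1 + s - r)
        ≤ 1 * Real.exp (-1 + s - r) := mul_le_mul_of_nonneg_right h1' (Real.exp_pos _).le
      _ ≤ Real.exp (2 * s) * (1 / 4) := by rw [one_mul]; exact h2
      _ ≤ Real.exp (2 * s) * (1 - 1 / (m : ℝ)) ^ m :=
          mul_le_mul_of_nonneg_left (INA.quarter_le m hm) (Real.exp_pos _).le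

end Pool.Agent.Work.MP_1ce445_lin
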