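import Pool.Agent.Work.MP_1ce445_lin.Interface

/-!
Block LEX: every vertex has a neighbour with each label `(a, b)`.
-/

namespace Pool.Agent.Work.MP_1ce445_lin

open Finset Pool.Agent.Work.MP_1ce445_co_56

/-- `2 (r+1) = 1` in `ZMod (2r+1)`. -/
lemma LEX_half (r : ℕ) (a : ZMod (2 * r + 1)) :
    (2 * a) * ((r + 1 : ℕ) : ZMod (2 * r + 1)) = a := by
  have h0 : ((2 * r + 1 : ℕ) : ZMod (2 * r + 1)) = 0 := ZMod.natCast_self _
  have h1 : (2 * (r : ZMod (2 * r + 1)) + 1) = 0 := by
    have := h0
    push_cast at this
    exact this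
  push_cast
  linear_combination a * h1

lemma LEX_two (r : ℕ) (a u : ZMod (2 * r + 1)) (h : 2 * a - u = u) : a = u := by
  have e1 := LEX_half r a
  have e2 := LEX_half r u
  have e3 : 2 * a = 2 * u := by linear_combination h
  rw [← e1, ← e2, e3]

/-- the value of a small natural number in `ZMod h` -/
lemma LEX_val (h i : ℕ) [NeZero h] (hi : i < h) : ((i : ℕ) : ZMod h).val = i :=
  ZMod.val_cast_of_lt hi

lemma LEX_rep_pos (r h e : ℕ) [NeZero h] (hh : 2 * (r + 1) < h) (he : e < 2 * (r + 1)) (i : ℕ)
    (hi : i + 1 ≤ (e + 1) / 2) (z : ZMod h) :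
    rep r h e z (z + ((i + 1 : ℕ) : ZMod h)) =
      some (z - ((2 * (r + 1) * i : ℕ) : ZMod h)) := by
  have h1 : (z + ((i + 1 : ℕ) : ZMod h)) - z = ((i + 1 : ℕ) : ZMod h) := by ring
  have h2 : (((i + 1 : ℕ) : ZMod h)).val = i + 1 := LEX_val h (i + 1) (by omega)
  unfold rep
  rw [h1, h2, if_pos ⟨by omega, hi⟩, Nat.add_sub_cancel]

lemma LEX_rep_neg (r h e : ℕ) [NeZero h] (hh : 2 * (r + 1) < h) (he : e < 2 * (r + 1)) (i : ℕ)
    (hi : i + 1 ≤ (e + 1) / 2) (z : ZMod h) :
    rep r h e z (z - ((i + 1 : ℕ) : ZMod h)) =
      some (z - ((i + 1 : ℕ) : ZMod h) - ((2 * (r + 1) * i : ℕ) : ZMod h)) := by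
  have h1 : (z - ((i + 1 : ℕ) : ZMod h)) - z = -((i + 1 : ℕ) : ZMod h) := by ring
  have h3 : z - (z - ((i + 1 : ℕ) : ZMod h)) = ((i + 1 : ℕ) : ZMod h) := by ring
  have h2 : (((i + 1 : ℕ) : ZMod h)).val = i + 1 := LEX_val h (i + 1) (by omega)
  have hne : ((i + 1 : ℕ) : ZMod h) ≠ 0 := by
    intro h0
    rw [h0, ZMod.val_zero] at h2
    omega
  have h4 : (-((i + 1 : ℕ) : ZMod h)).val = h - (i + 1) := by
    rw [ZMod.neg_val, if_neg hne, h2]
  unfold rep
  rw [h1, h3, h4, h2, if_neg (by omega), if_pos ⟨by omega, hi⟩, Nat.add_sub_cancel]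

theorem stmt_LEX : Stmt_LEX := by
  intro r h e _ hOK a b x
  obtain ⟨hr, he, hh4⟩ := hOK
  have hh : 2 * (r + 1) < h := by nlinarith
  obtain ⟨⟨u, z⟩, hx⟩ := x
  rcases u with _ | u
  · -- block `∞`
    refine ⟨⟨(some a, z + b), by simp⟩, ?_, ?_⟩
    · intro hc
      have := congrArg (fun t : Vt r h e => t.1.1) hc
      simp at this
    · have h1 : rk (none : Option (ZMod (2 * r + 1))) < rk (some a) := by
        simp [rk]
      show lab r h e (none, z) (some a, z + b) = some (a, b)
      unfold lab
      rw [if_neg (by simp)]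
      simp only [if_pos h1]
      simp [aOf]
  · by_cases hua : u = a
    · subst hua
      by_cases hd : Del r e (z - b).val
      · -- the partner is deleted
        obtain ⟨j, hje, hj⟩ := hd
        have hzb : z - b = ((pos r j : ℕ) : ZMod h) := by
          rw [hj, ZMod.natCast_zmod_val]
        have hdiv : 2 * (j / 2) + j % 2 = j := Nat.div_add_mod j 2
        rcases Nat.mod_two_eq_zero_or_one j with hj2 | hj2
        · -- `j = 2i`
          have hi : j / 2 + 1 ≤ (e + 1) / 2 := by omega
          have hpos : pos r j = 2 * (r + 1) * (j / 2) := by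
            unfold pos
            rw [hj2]
            ring
          rw [hpos] at hzb
          refine ⟨⟨(some u, z + ((j / 2 + 1 : ℕ) : ZMod h)), by simp⟩, ?_, ?_⟩
          · intro hc
            have h5 := congrArg (fun t : Vt r h e => t.1.2) hc
            have h6 : ((j / 2 + 1 : ℕ) : ZMod h) = 0 := by
              have h7 : z = z + ((j / 2 + 1 : ℕ) : ZMod h) := h5
              linear_combination -h7
            have h2 : (((j / 2 + 1 : ℕ) : ZMod h)).val = j / 2 + 1 :=
              LEX_val h (j / 2 + 1) (by omega)
            rw [h6, ZMod.val_zero] at h2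
            omega
          · show lab r h e (some u, z) (some u, z + ((j / 2 + 1 : ℕ) : ZMod h)) = some (u, b)
            unfold lab
            rw [if_pos rfl]
            show (rep r h e z (z + ((j / 2 + 1 : ℕ) : ZMod h))).map (fun b => (u, b)) = some (u, b)
            rw [LEX_rep_pos r h e hh he (j / 2) hi z, ← hzb]
            simp
        · -- `j = 2i + 1`
          have hi : j / 2 + 1 ≤ (e + 1) / 2 := by omega
          have hpos : pos r j = 2 * (r + 1) * (j / 2) + (j / 2 + 1) := by
            unfold pos
            rw [hj2]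
            ring
          rw [hpos] at hzb
          refine ⟨⟨(some u, z - ((j / 2 + 1 : ℕ) : ZMod h)), by simp⟩, ?_, ?_⟩
          · intro hc
            have h5 := congrArg (fun t : Vt r h e => t.1.2) hc
            have h6 : ((j / 2 + 1 : ℕ) : ZMod h) = 0 := by
              have h7 : z = z - ((j / 2 + 1 : ℕ) : ZMod h) := h5
              linear_combination h7
            have h2 : (((j / 2 + 1 : ℕ) : ZMod h)).val = j / 2 + 1 :=
              LEX_val h (j / 2 + 1) (by omega)
            rw [h6, ZMod.val_zero] at h2
            omega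
          · show lab r h e (some u, z) (some u, z - ((j / 2 + 1 : ℕ) : ZMod h)) = some (u, b)
            unfold lab
            rw [if_pos rfl]
            show (rep r h e z (z - ((j / 2 + 1 : ℕ) : ZMod h))).map (fun b => (u, b)) = some (u, b)
            rw [LEX_rep_neg r h e hh he (j / 2) hi z]
            have hb : z - ((j / 2 + 1 : ℕ) : ZMod h) - ((2 * (r + 1) * (j / 2) : ℕ) : ZMod h) = b := by
              rw [Nat.cast_add (2 * (r + 1) * (j / 2)) (j / 2 + 1)] at hzb
              linear_combination hzb
            rw [hb]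
            rfl
      · -- the partner in block `∞`
        refine ⟨⟨(none, z - b), by simpa using hd⟩, ?_, ?_⟩
        · intro hc
          have := congrArg (fun t : Vt r h e => t.1.1) hc
          simp at this
        · have h1 : ¬ rk (some u) < rk (none : Option (ZMod (2 * r + 1))) := by
            simp [rk]
          show lab r h e (some u, z) (none, z - b) = some (u, b)
          unfold lab
          rw [if_neg (by simp)]
          simp only [if_neg h1]
          simp [aOf]
    · -- two different finite blocks
      have hne : (some u : Option (ZMod (2 * r + 1))) ≠ some (2 * a - u) := by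
        intro hc
        have h1 : u = 2 * a - u := Option.some.inj hc
        exact hua (LEX_two r a u h1.symm).symm
      have hae : aOf (some u) (some (2 * a - u)) = a := by
        show (u + (2 * a - u)) * ((r + 1 : ℕ) : ZMod (2 * r + 1)) = a
        have h1 : u + (2 * a - u) = 2 * a := by ring
        rw [h1]
        exact LEX_half r a
      by_cases hrk : rk (some u) < rk (some (2 * a - u))
      · refine ⟨⟨(some (2 * a - u), z + b), by simp⟩, ?_, ?_⟩
        · intro hc
          exact hne (congrArg (fun t : Vt r h e => t.1.1) hc)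
        · show lab r h e (some u, z) (some (2 * a - u), z + b) = some (a, b)
          unfold lab
          rw [if_neg hne]
          simp only [if_pos hrk, hae]
          simp
      · refine ⟨⟨(some (2 * a - u), z - b), by simp⟩, ?_, ?_⟩
        · intro hc
          exact hne (congrArg (fun t : Vt r h e => t.1.1) hc)
        · show lab r h e (some u, z) (some (2 * a - u), z - b) = some (a, b)
          unfold lab
          rw [if_neg hne]
          simp only [if_neg hrk, hae]
          simp

end Pool.Agent.Work.MP_1ce445_lin
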