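import Pool.Agent.Work.MP_1ce445_lin.Interface

/-!
MP_1ce445_co, block LOW: the lower bound in the linear range.
-/

namespace Pool.Agent.Work.MP_1ce445_lin

open Finset Pool.Agent.Work.MP_1ce445_co_56

theorem LOW_prod {r h g : ℕ} [NeZero h] (b : Cl r h g → ℕ) (A B : ℕ)
    (hA : ∀ p, A ≤ b (Sum.inl p)) (hB : ∀ i, B ≤ b (Sum.inr i)) :
    A ^ (Fintype.card (Cl r h g) - (r + 1)) * B ^ (r + 1) ≤ ∏ i, b i := by
  classical
  have h1 : (∏ i, b i) = (∏ p, b (Sum.inl p)) * ∏ i, b (Sum.inr i) := by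
    rw [← Fintype.prod_sum_type]
  have h2 : Fintype.card (Cl r h g) =
      Fintype.card {p : ZMod (2 * r + 1) × ZMod h // p.1 ≠ 0 ∨ p.2.val < g} + (r + 1) := by
    rw [← Nat.card_eq_fintype_card, Nat.card_sum, Nat.card_eq_fintype_card,
      Nat.card_eq_fintype_card (α := Fin (r + 1)), Fintype.card_fin]
  rw [h1, h2, Nat.add_sub_cancel]
  apply Nat.mul_le_mul
  · calc A ^ Fintype.card {p : ZMod (2 * r + 1) × ZMod h // p.1 ≠ 0 ∨ p.2.val < g}
        = ∏ _p : {p : ZMod (2 * r + 1) × ZMod h // p.1 ≠ 0 ∨ p.2.val < g}, A := by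
          rw [Finset.prod_const, Finset.card_univ]
      _ ≤ _ := Finset.prod_le_prod' fun p _ => hA p
  · calc B ^ (r + 1) = ∏ _i : Fin (r + 1), B := by
          rw [Finset.prod_const, Finset.card_univ, Fintype.card_fin]
      _ ≤ _ := Finset.prod_le_prod' fun i _ => hB i

theorem LOW_nat (h1 : Stmt_FAC) (h2 : Stmt_GAM) (h3 : Stmt_CRD) (r n k h e g : ℕ) (hr : 1 ≤ r)
    (hh : 4 * (r + 1) ^ 2 ≤ h) (he : e < 2 * (r + 1)) (hn : n + e = 2 * (r + 1) * h)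
    (hg : g + (r + 1) ≤ h) (hk : k = 2 * r * h + g + (r + 1)) :
    (NN n) ^ (k - (r + 1)) * (n - 2 * h - 2) ^ (r + 1) ≤ P n k := by
  have : NeZero h := ⟨by
    have : 0 < (r + 1) ^ 2 := by positivity
    omega⟩
  have hOK : OK r h e := ⟨hr, he, hh⟩
  obtain ⟨hV, hC⟩ := h3 r h e g hOK hg
  obtain ⟨hG1, hG2⟩ := h2 r h e g hOK hg
  have hV' : Fintype.card (Vt r h e) = n := by omega
  have hP := le_P (V := Vt r h e) (ι := Cl r h g) hV' (hC.trans hk.symm)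
    (h1 r h e g hOK hg)
  rw [hV'] at hG1 hG2
  refine le_trans ?_ hP
  have h4 := LOW_prod (r := r) (h := h) (g := g) (fun c => gammaT (Gr r h e g c)) (NN n)
    (n - 2 * h - 2) hG1 (fun i => by have := hG2 i; omega)
  rw [hC, ← hk] at h4
  exact h4

theorem LOW_pow (a b : ℝ) (hb : 0 ≤ b) (hba : b ≤ a) (ha : a ≤ 1) (m : ℕ) :
    a ^ m - m * b ≤ (a - b) ^ m := by
  induction m with
  | zero => simp
  | succ m ih =>
    have h1 : 0 ≤ a - b := by linarith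
    have h2 : (a - b) ^ m ≤ 1 := pow_le_one₀ h1 (by linarith)
    have h3 : 0 ≤ (a - b) ^ m := pow_nonneg h1 m
    have h4 : a * (a ^ m - m * b) ≤ a * (a - b) ^ m := mul_le_mul_of_nonneg_left ih (by linarith)
    have h5 : b * (a - b) ^ m ≤ b * 1 := mul_le_mul_of_nonneg_left h2 hb
    have h6 : a * (m * b) ≤ 1 * (m * b) := mul_le_mul_of_nonneg_right ha (by positivity)
    push_cast
    rw [pow_succ, pow_succ]
    nlinarith

/-- Block LOW. -/
theorem stmt_LOW (h1 : Stmt_FAC) (h2 : Stmt_GAM) (h3 : Stmt_CRD) : Stmt_LOW := by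
  intro m ε hm hε
  obtain ⟨r, rfl⟩ : ∃ r, m = r + 1 := ⟨m - 1, by omega⟩
  have hr : 1 ≤ r := by omega
  have hr' : (1 : ℝ) ≤ r := by exact_mod_cast hr
  obtain ⟨n1, hn1⟩ := exists_nat_ge (4 * ((r : ℝ) + 1) / ε)
  refine ⟨8 * (r + 1) ^ 3 + 100 + n1, fun n k hn hk1 hk2 => ?_⟩
  have hnn1 : 4 * ((r : ℝ) + 1) / ε ≤ n := hn1.trans (by exact_mod_cast (by omega : n1 ≤ n))
  have hn8 : 8 * (r + 1) ^ 3 ≤ n := by omega
  have hn100 : (100 : ℝ) ≤ n := by exact_mod_cast (by omega : 100 ≤ n)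
  have hn0 : (0 : ℝ) < n := by linarith
  obtain ⟨h, hh1, hh2⟩ : ∃ h, n ≤ 2 * (r + 1) * h ∧ 2 * (r + 1) * h < n + 2 * (r + 1) := by
    refine ⟨(n + 2 * (r + 1) - 1) / (2 * (r + 1)), ?_, ?_⟩
    · have h5 := Nat.div_add_mod (n + 2 * (r + 1) - 1) (2 * (r + 1))
      have h6 := Nat.mod_lt (n + 2 * (r + 1) - 1) (by omega : 0 < 2 * (r + 1))
      omega
    · have h5 := Nat.div_mul_le_self (n + 2 * (r + 1) - 1) (2 * (r + 1))
      rw [Nat.mul_comm] at h5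
      omega
  have hh4 : 4 * (r + 1) ^ 2 ≤ h := by
    apply Nat.le_of_mul_le_mul_left _ (by omega : 0 < 2 * (r + 1))
    calc 2 * (r + 1) * (4 * (r + 1) ^ 2) = 8 * (r + 1) ^ 3 := by ring
      _ ≤ n := hn8
      _ ≤ _ := hh1
  have hh1' : (n : ℝ) ≤ 2 * ((r : ℝ) + 1) * h := by exact_mod_cast hh1
  have hh2' : 2 * ((r : ℝ) + 1) * h ≤ n + 2 * ((r : ℝ) + 1) := by exact_mod_cast hh2.le
  push_cast at hk1 hk2 ⊢
  have hm0 : (0 : ℝ) < (r : ℝ) + 1 := by linarith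
  have hlow : 2 * r * h + (r + 1) ≤ k := by
    have h5 : 2 * (r : ℝ) * h ≤ (1 - 1 / ((r : ℝ) + 1)) * n + 2 * r := by
      have h6 : 2 * (r : ℝ) * h = (1 - 1 / ((r : ℝ) + 1)) * (2 * ((r : ℝ) + 1) * h) := by
        field_simp
        ring
      have h7 : (0 : ℝ) ≤ 1 - 1 / ((r : ℝ) + 1) := by
        rw [sub_nonneg, div_le_one hm0]; linarith
      have h8 := mul_le_mul_of_nonneg_left hh2' h7
      have h9 : (1 - 1 / ((r : ℝ) + 1)) * (2 * ((r : ℝ) + 1)) = 2 * r := by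
        field_simp
        ring
      rw [h6]
      linarith
    have h6 : (2 * (r : ℝ) * h + (r + 1)) ≤ k := by linarith
    exact_mod_cast h6
  have hupp : k ≤ (2 * r + 1) * h := by
    have h5 : (k : ℝ) ≤ (2 * r + 1) * h := by
      have h6 : (1 - 1 / ((r : ℝ) + 1 + 1)) ≤ (2 * r + 1) / (2 * (r + 1)) := by
        rw [sub_le_iff_le_add, ← sub_le_iff_le_add']
        have h7 : (1 : ℝ) - (2 * r + 1) / (2 * (r + 1)) = 1 / (2 * (r + 1)) := by
          field_simp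
          ring
        rw [h7]
        apply one_div_le_one_div_of_le (by linarith)
        linarith
      have h7 : (2 * (r : ℝ) + 1) / (2 * (r + 1)) * n ≤ (2 * (r : ℝ) + 1) * h := by
        rw [div_mul_eq_mul_div, div_le_iff₀ (by linarith)]
        have h8 := mul_le_mul_of_nonneg_left hh1' (by linarith : (0 : ℝ) ≤ 2 * r + 1)
        linarith
      have h8 := mul_le_mul_of_nonneg_right h6 hn0.le
      linarith
    exact_mod_cast h5
  obtain ⟨g, hg⟩ : ∃ g, k = 2 * r * h + g + (r + 1) := ⟨k - (2 * r * h + (r + 1)), by omega⟩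
  obtain ⟨e, he⟩ : ∃ e, n + e = 2 * (r + 1) * h := ⟨2 * (r + 1) * h - n, by omega⟩
  have hgh : g + (r + 1) ≤ h := by
    have h5 : (2 * r + 1) * h = 2 * r * h + h := by ring
    omega
  have hnat := LOW_nat h1 h2 h3 r n k h e g hr hh4 (by omega) he hgh hg
  have hR : (NN n : ℝ) ^ (k - (r + 1)) * ((n - 2 * h - 2 : ℕ) : ℝ) ^ (r + 1) ≤ (P n k : ℝ) := by
    exact_mod_cast hnat
  refine le_trans ?_ hR
  have hcast : (1 - 1 / ((r : ℝ) + 1)) * n - 4 ≤ ((n - 2 * h - 2 : ℕ) : ℝ) := by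
    have h5 : (n : ℝ) - 2 * h - 2 ≤ ((n - 2 * h - 2 : ℕ) : ℝ) := by
      have h6 : (n : ℤ) - 2 * h - 2 ≤ ((n - 2 * h - 2 : ℕ) : ℤ) := by omega
      exact_mod_cast h6
    have h6 : 2 * (h : ℝ) ≤ 1 / ((r : ℝ) + 1) * n + 2 := by
      have h7 : 2 * (h : ℝ) = 1 / ((r : ℝ) + 1) * (2 * ((r : ℝ) + 1) * h) := by
        field_simp
      have h8 := mul_le_mul_of_nonneg_left hh2' (by positivity : (0 : ℝ) ≤ 1 / ((r : ℝ) + 1))
      have h9 : 1 / ((r : ℝ) + 1) * (2 * ((r : ℝ) + 1)) = 2 := by field_simp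
      rw [h7]
      linarith
    linarith
  have ha0 : 1 / 2 ≤ 1 - 1 / ((r : ℝ) + 1) := by
    have : 1 / ((r : ℝ) + 1) ≤ 1 / 2 := one_div_le_one_div_of_le (by norm_num) (by linarith)
    linarith
  have ha1 : 1 - 1 / ((r : ℝ) + 1) ≤ 1 := by
    have : 0 ≤ 1 / ((r : ℝ) + 1) := by positivity
    linarith
  obtain ⟨a, hadef⟩ : ∃ a : ℝ, a = 1 - 1 / ((r : ℝ) + 1) := ⟨_, rfl⟩
  rw [← hadef] at hcast ha0 ha1 ⊢
  have hb : 4 / (n : ℝ) ≤ a := by
    rw [div_le_iff₀ hn0]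
    have : 1 / 2 * (n : ℝ) ≤ a * n := mul_le_mul_of_nonneg_right ha0 hn0.le
    linarith
  have hpow := LOW_pow a (4 / n) (by positivity) hb ha1 (r + 1)
  have hsmall : ((r + 1 : ℕ) : ℝ) * (4 / n) ≤ ε := by
    rw [div_le_iff₀ hε] at hnn1
    rw [mul_div_assoc', div_le_iff₀ hn0]
    push_cast
    linarith
  have hkpow : (NN n : ℝ) ^ k = (NN n : ℝ) ^ (k - (r + 1)) * (NN n : ℝ) ^ (r + 1) := by
    rw [← pow_add]; congr 1; omega
  have hNN : (NN n : ℝ) ≤ n := by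
    have : NN n ≤ n := by unfold NN; omega
    exact_mod_cast this
  have hNN0 : (0 : ℝ) ≤ (NN n : ℝ) := Nat.cast_nonneg _
  have hmain : (a ^ (r + 1) - ε) * (NN n : ℝ) ^ (r + 1) ≤
      ((n - 2 * h - 2 : ℕ) : ℝ) ^ (r + 1) := by
    rcases le_total (a ^ (r + 1) - ε) 0 with h0 | h0
    · exact (mul_nonpos_of_nonpos_of_nonneg h0 (by positivity)).trans (by positivity)
    · calc (a ^ (r + 1) - ε) * (NN n : ℝ) ^ (r + 1)
          ≤ (a ^ (r + 1) - ε) * (n : ℝ) ^ (r + 1) :=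
            mul_le_mul_of_nonneg_left (pow_le_pow_left₀ hNN0 hNN _) h0
        _ ≤ (a - 4 / n) ^ (r + 1) * (n : ℝ) ^ (r + 1) :=
            mul_le_mul_of_nonneg_right (by linarith) (by positivity)
        _ = (a * n - 4) ^ (r + 1) := by
            rw [← mul_pow]
            congr 1
            field_simp
        _ ≤ _ := by
            apply pow_le_pow_left₀ _ hcast
            have : 1 / 2 * (n : ℝ) ≤ a * n := mul_le_mul_of_nonneg_right ha0 hn0.le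
            linarith
  calc (a ^ (r + 1) - ε) * (NN n : ℝ) ^ k
      = (NN n : ℝ) ^ (k - (r + 1)) * ((a ^ (r + 1) - ε) * (NN n : ℝ) ^ (r + 1)) := by
        rw [hkpow]; ring
    _ ≤ _ := mul_le_mul_of_nonneg_left hmain (by positivity)

end Pool.Agent.Work.MP_1ce445_lin
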