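import Pool.Agent.Work.MP_1ce445_lin.Interface2

/-!
MP_1ce445_co, block LOW2: the lower bound.
-/

namespace Pool.Agent.Work.MP_1ce445_lin

open Finset Pool.Agent.Work.MP_1ce445_co_56

theorem LOW2_psi (h1 : Stmt_PHI) (c : ℝ) (h3 : 3 / 10 ≤ c) (h5 : c ≤ 1 / 2) :
    3 / 10 ≤ min c (1 - c - Real.sqrt (c * (1 - 2 * c))) := by
  obtain ⟨-, -, ha, hb, -⟩ := h1
  rcases le_total c (1 / 3) with h | h
  · have h6 := ha c (by linarith) h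
    unfold Phi at h6
    have hc : 0 < c := by linarith
    have h7 : min c (1 - c - Real.sqrt (c * (1 - 2 * c))) = c := by
      have h8 : c * min c (1 - c - Real.sqrt (c * (1 - 2 * c))) = c * c := by rw [h6]; ring
      exact mul_left_cancel₀ hc.ne' h8
    rw [h7]; exact h3
  · obtain ⟨-, -, h6, -⟩ := hb c h h5
    exact le_min h3 (by linarith)

theorem LOW2_nat (h2 : Stmt_MAT) (h3 : Stmt_EVN) (h4 : Stmt_ODD2) (n k σ t m : ℕ)
    (hk : 4 ≤ k) (hσ : 1 ≤ σ) (hσk : σ + 3 ≤ k)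
    (ht : k + σ + (2 * t + 1) = 2 * ((n + 1) / 2)) (hm : 2 * k + 2 * m = 2 * ((n + 1) / 2))
    (hkm : k * m ≤ t * (2 * t + 1)) :
    (NN n) ^ (k - 2) * ((σ - 1) * (k - 1)) ≤ P n k := by
  obtain ⟨μ, hμ⟩ := h2 k σ t m (by omega) hσk hkm
  rcases Nat.even_or_odd n with hn | hn
  · obtain ⟨a, ha⟩ := hn
    have hn' : n = k + σ + (2 * t + 1) := by omega
    have hNN : NN n = n := by unfold NN; omega
    have h5 := h3 k σ t μ hk hμ
    rw [← hn'] at h5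
    rw [hNN]
    exact (Nat.mul_le_mul_left _ (Nat.mul_le_mul (by omega) (by omega))).trans h5
  · obtain ⟨a, ha⟩ := hn
    have hn' : n = k + σ + 2 * t := by omega
    have hNN : NN n = n - 1 := by unfold NN; omega
    have h5 := h4 k σ t μ hk hσ hμ
    rw [← hn'] at h5
    rw [hNN]
    exact h5

theorem LOW2_sigma (y : ℝ) (k : ℕ) (hy : 1 ≤ y) :
    ∃ σ : ℕ, (σ : ℝ) ≤ y ∧ y - 2 ≤ σ ∧ (k + σ) % 2 = 1 := by
  have h0 : 0 ≤ y := by linarith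
  have hx1 : (⌊y⌋₊ : ℝ) ≤ y := Nat.floor_le h0
  have hx2 : y < (⌊y⌋₊ : ℝ) + 1 := Nat.lt_floor_add_one y
  have hx3 : 1 ≤ ⌊y⌋₊ := Nat.le_floor (by simpa using hy)
  by_cases hp : (k + ⌊y⌋₊) % 2 = 1
  · exact ⟨⌊y⌋₊, hx1, by linarith, hp⟩
  · refine ⟨⌊y⌋₊ - 1, ?_, ?_, by omega⟩
    · rw [Nat.cast_sub hx3]; push_cast; linarith
    · rw [Nat.cast_sub hx3]; push_cast; linarith

theorem LOW2_km (n k m t σ : ℕ) (c ψ ε r : ℝ) (hc : c * n = k) (hr0 : 0 ≤ r)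
    (hr : r ^ 2 = c * (1 - 2 * c)) (hr1 : r ≤ 1 / 2) (hc2 : c ≤ 1 / 2)
    (hψ : ψ ≤ 1 - c - r) (hε : 0 < ε) (hε1 : ε ≤ 1 / 10) (hεn : 100 ≤ ε ^ 2 * n)
    (hn : (100 : ℝ) ≤ n) (hσ : (σ : ℝ) ≤ (ψ - ε / 2) * n)
    (ht : k + σ + (2 * t + 1) = 2 * ((n + 1) / 2)) (hm : 2 * k + 2 * m = 2 * ((n + 1) / 2)) :
    k * m ≤ t * (2 * t + 1) := by
  have h1 : 2 * k + 2 * m ≤ n + 1 := by omega
  have h2 : n ≤ k + σ + (2 * t + 1) := by omega
  have h1' : 2 * (k : ℝ) + 2 * m ≤ n + 1 := by exact_mod_cast h1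
  have h2' : (n : ℝ) ≤ k + σ + (2 * t + 1) := by exact_mod_cast h2
  have hk0 : (0 : ℝ) ≤ k := Nat.cast_nonneg k
  have hv : (r + ε / 2) * n ≤ 2 * (t : ℝ) + 1 := by
    have h3 : (ψ - ε / 2) * n ≤ (1 - c - r - ε / 2) * n := by
      apply mul_le_mul_of_nonneg_right _ (by linarith)
      linarith
    have h4 : (1 - c - r - ε / 2) * n = n - k - (r + ε / 2) * n := by rw [← hc]; ring
    linarith
  have hεn1 : 1000 ≤ ε * n := by
    have h5 : ε ^ 2 * n ≤ 1 / 10 * (ε * n) := by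
      have : ε * n * (1 / 10 - ε) ≥ 0 := by
        apply mul_nonneg (by positivity) (by linarith)
      nlinarith
    linarith
  have hv1 : 1 ≤ (r + ε / 2) * n := by
    have : 0 ≤ r * n := by positivity
    nlinarith
  have hu : ((r + ε / 2) * n) ^ 2 - (r + ε / 2) * n ≤ (2 * (t : ℝ) + 1) ^ 2 - (2 * t + 1) := by
    nlinarith
  have hv2 : r ^ 2 * n ^ 2 + 24 * n ≤ ((r + ε / 2) * n) ^ 2 - (r + ε / 2) * n := by
    have h6 : ((r + ε / 2) * n) ^ 2 = r ^ 2 * n ^ 2 + r * ε * n ^ 2 + (ε ^ 2 * n) * n / 4 := by ring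
    have h7 : 100 * n ≤ (ε ^ 2 * n) * n := mul_le_mul_of_nonneg_right hεn (by linarith)
    have h8 : (r + ε / 2) * n ≤ 1 * n := mul_le_mul_of_nonneg_right (by linarith) (by linarith)
    have h9 : 0 ≤ r * ε * n ^ 2 := by positivity
    rw [h6]; linarith
  have hkm : 2 * ((k : ℝ) * m) ≤ r ^ 2 * n ^ 2 + 24 * n := by
    have h6 : (k : ℝ) * (2 * m) ≤ k * (n + 1 - 2 * k) :=
      mul_le_mul_of_nonneg_left (by linarith) hk0
    have h7 : (k : ℝ) * (n + 1 - 2 * k) = r ^ 2 * n ^ 2 + c * n := by rw [hr, ← hc]; ring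
    have h8 : c * n ≤ 1 / 2 * n := mul_le_mul_of_nonneg_right hc2 (by linarith)
    nlinarith
  have hfin : (k : ℝ) * m ≤ t * (2 * t + 1) := by nlinarith
  exact_mod_cast hfin

theorem LOW2_prod (n k σ : ℕ) (c ψ ε ε0 : ℝ) (hc : c * n = k) (hc3 : 3 / 10 ≤ c) (hc2 : c ≤ 1 / 2)
    (hψ3 : 3 / 10 ≤ ψ) (hψc : ψ ≤ c) (hε : 0 < ε) (hε1 : ε ≤ 1 / 10) (hε0 : ε ≤ ε0)
    (hεn : 1000 ≤ ε * n) (hn : (100 : ℝ) ≤ n) (hσ : (ψ - ε / 2) * n - 2 ≤ σ) (hσ1 : 1 ≤ σ)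
    (hk : 4 ≤ k) (h : (NN n) ^ (k - 2) * ((σ - 1) * (k - 1)) ≤ P n k) :
    (c * ψ - ε0) * (NN n : ℝ) ^ k ≤ (P n k : ℝ) := by
  have hR : (NN n : ℝ) ^ (k - 2) * (((σ : ℝ) - 1) * ((k : ℝ) - 1)) ≤ (P n k : ℝ) := by
    have h5 : (((NN n) ^ (k - 2) * ((σ - 1) * (k - 1)) : ℕ) : ℝ) ≤ (P n k : ℝ) := by
      exact_mod_cast h
    rw [Nat.cast_mul, Nat.cast_mul, Nat.cast_pow, Nat.cast_sub hσ1,
      Nat.cast_sub (by omega : 1 ≤ k)] at h5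
    simpa using h5
  refine le_trans ?_ hR
  have hpow : (NN n : ℝ) ^ k = (NN n : ℝ) ^ (k - 2) * (NN n : ℝ) ^ 2 := by
    rw [← pow_add]; congr 1; omega
  have hpos : (0 : ℝ) ≤ (NN n : ℝ) ^ (k - 2) := by positivity
  have hNN : (NN n : ℝ) ≤ n := by
    have : NN n ≤ n := by unfold NN; omega
    exact_mod_cast this
  have hNN0 : (0 : ℝ) ≤ (NN n : ℝ) := Nat.cast_nonneg _
  have hcr : ((ψ - ε / 2) * n - 3) * (c * n - 1) ≤ ((σ : ℝ) - 1) * ((k : ℝ) - 1) := by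
    rw [hc]
    have h6 : (0 : ℝ) ≤ (k : ℝ) - 1 := by
      have : (4 : ℝ) ≤ k := by exact_mod_cast hk
      linarith
    exact mul_le_mul_of_nonneg_right (by linarith) h6
  have hmain : (c * ψ - ε) * (n : ℝ) ^ 2 ≤ ((ψ - ε / 2) * n - 3) * (c * n - 1) := by
    have h7 : ((ψ - ε / 2) * n - 3) * (c * n - 1) =
        c * ψ * (n : ℝ) ^ 2 - (ε * n) * (c / 2) * n - (ψ - ε / 2) * n - 3 * c * n + 3 := by ring
    have h8 : (ε * n) * (c / 2) * n ≤ (ε * n) * (1 / 4) * n := by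
      apply mul_le_mul_of_nonneg_right _ (by linarith)
      exact mul_le_mul_of_nonneg_left (by linarith) (by positivity)
    have h9 : (ψ - ε / 2) * n ≤ 1 / 2 * n := mul_le_mul_of_nonneg_right (by linarith) (by linarith)
    have h10 : c * n ≤ 1 / 2 * n := mul_le_mul_of_nonneg_right hc2 (by linarith)
    have h11 : 1000 * n ≤ (ε * n) * n := mul_le_mul_of_nonneg_right hεn (by linarith)
    rw [h7]
    nlinarith
  have hsq : (c * ψ - ε0) * (NN n : ℝ) ^ 2 ≤ ((σ : ℝ) - 1) * ((k : ℝ) - 1) := by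
    rcases le_total (c * ψ - ε) 0 with h0 | h0
    · have h12 : (c * ψ - ε0) * (NN n : ℝ) ^ 2 ≤ 0 :=
        mul_nonpos_of_nonpos_of_nonneg (by linarith) (by positivity)
      have h13 : (0 : ℝ) ≤ ((ψ - ε / 2) * n - 3) * (c * n - 1) := by
        apply mul_nonneg
        · have : 1 / 4 * (n : ℝ) ≤ (ψ - ε / 2) * n :=
            mul_le_mul_of_nonneg_right (by linarith) (by linarith)
          linarith
        · have : 3 / 10 * (n : ℝ) ≤ c * n := mul_le_mul_of_nonneg_right hc3 (by linarith)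
          linarith
      linarith
    · calc (c * ψ - ε0) * (NN n : ℝ) ^ 2 ≤ (c * ψ - ε) * (NN n : ℝ) ^ 2 :=
            mul_le_mul_of_nonneg_right (by linarith) (by positivity)
        _ ≤ (c * ψ - ε) * (n : ℝ) ^ 2 :=
            mul_le_mul_of_nonneg_left (by gcongr) h0
        _ ≤ _ := hmain.trans hcr
  calc (c * ψ - ε0) * (NN n : ℝ) ^ k
      = (NN n : ℝ) ^ (k - 2) * ((c * ψ - ε0) * (NN n : ℝ) ^ 2) := by rw [hpow]; ring
    _ ≤ _ := mul_le_mul_of_nonneg_left hsq hpos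

theorem stmt_LOW2 (h1 : Stmt_PHI) (h2 : Stmt_MAT) (h3 : Stmt_EVN) (h4 : Stmt_ODD2) :
    Stmt_LOW2 := by
  intro ε0 hε0
  obtain ⟨ε, hε, hε1, hεε0⟩ : ∃ ε : ℝ, 0 < ε ∧ ε ≤ 1 / 10 ∧ ε ≤ ε0 :=
    ⟨min ε0 (1 / 10), lt_min hε0 (by norm_num), min_le_right _ _, min_le_left _ _⟩
  obtain ⟨n0, hn0⟩ := exists_nat_ge (100 / ε ^ 2)
  refine ⟨n0 + 100, fun n k hn hk3 hk2 => ?_⟩
  have hnR : 100 / ε ^ 2 ≤ (n : ℝ) := by
    have : (n0 : ℝ) ≤ n := by exact_mod_cast (by omega : n0 ≤ n)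
    linarith
  have hn100 : (100 : ℝ) ≤ n := by exact_mod_cast (by omega : 100 ≤ n)
  have hεn : 100 ≤ ε ^ 2 * n := by
    rw [div_le_iff₀ (by positivity)] at hnR
    linarith
  have hεn1 : 1000 ≤ ε * n := by
    have h5 : 0 ≤ ε * n * (1 / 10 - ε) := mul_nonneg (by positivity) (by linarith)
    nlinarith
  have hnpos : (0 : ℝ) < n := by linarith
  obtain ⟨c, hcdef⟩ : ∃ c : ℝ, c = (k : ℝ) / n := ⟨_, rfl⟩
  have hc : c * n = k := by rw [hcdef]; field_simp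
  have hc3 : 3 / 10 ≤ c := by rw [hcdef, le_div_iff₀ hnpos]; exact hk3
  have hc2 : c ≤ 1 / 2 := by rw [hcdef, div_le_iff₀ hnpos]; linarith
  rw [← hcdef]
  obtain ⟨r, hrdef⟩ : ∃ r : ℝ, r = Real.sqrt (c * (1 - 2 * c)) := ⟨_, rfl⟩
  have hr0 : 0 ≤ r := by rw [hrdef]; exact Real.sqrt_nonneg _
  have hr : r ^ 2 = c * (1 - 2 * c) := by
    rw [hrdef]
    exact Real.sq_sqrt (mul_nonneg (by linarith) (by linarith))
  have hr1 : r ≤ 1 / 2 := by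
    by_contra hcon
    push Not at hcon
    nlinarith [sq_nonneg (c - 1 / 4)]
  have hψ3 := LOW2_psi h1 c hc3 hc2
  have hPhi : Phi c = c * min c (1 - c - Real.sqrt (c * (1 - 2 * c))) := rfl
  rw [hPhi]
  rw [← hrdef] at hψ3 ⊢
  obtain ⟨ψ, hψdef⟩ : ∃ ψ : ℝ, ψ = min c (1 - c - r) := ⟨_, rfl⟩
  rw [← hψdef] at hψ3 ⊢
  have hψc : ψ ≤ c := by rw [hψdef]; exact min_le_left _ _
  have hψr : ψ ≤ 1 - c - r := by rw [hψdef]; exact min_le_right _ _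
  have hy : 1 / 4 * (n : ℝ) ≤ (ψ - ε / 2) * n :=
    mul_le_mul_of_nonneg_right (by linarith) hnpos.le
  obtain ⟨σ, hσ1, hσ2, hσ3⟩ := LOW2_sigma ((ψ - ε / 2) * n) k (by linarith)
  have hσ1' : 1 ≤ σ := by
    have : (1 : ℝ) ≤ σ := by linarith
    exact_mod_cast this
  have hσk : σ + 3 ≤ k := by
    have h6 : (ψ - ε / 2) * n ≤ c * n - ε * n / 2 := by
      have : ψ * n ≤ c * n := mul_le_mul_of_nonneg_right hψc hnpos.le
      linarith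
    have : (σ : ℝ) + 3 ≤ k := by rw [← hc]; linarith
    exact_mod_cast this
  have hk4 : 4 ≤ k := by
    have : (4 : ℝ) ≤ k := by linarith
    exact_mod_cast this
  have h2k : 2 * k ≤ n := by
    have : (2 : ℝ) * k ≤ n := by linarith
    exact_mod_cast this
  obtain ⟨t, ht⟩ : ∃ t : ℕ, k + σ + (2 * t + 1) = 2 * ((n + 1) / 2) :=
    ⟨(2 * ((n + 1) / 2) - k - σ) / 2, by omega⟩
  obtain ⟨m, hm⟩ : ∃ m : ℕ, 2 * k + 2 * m = 2 * ((n + 1) / 2) :=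
    ⟨(n + 1) / 2 - k, by omega⟩
  have hkm := LOW2_km n k m t σ c ψ ε r hc hr0 hr hr1 hc2 hψr hε hε1 hεn hn100 hσ1 ht hm
  have hnat := LOW2_nat h2 h3 h4 n k σ t m hk4 hσ1' hσk ht hm hkm
  exact LOW2_prod n k σ c ψ ε ε0 hc hc3 hc2 hψ3 hψc hε hε1 hεε0 hεn1 hn100 hσ2 hσ1' hk4 hnat

end Pool.Agent.Work.MP_1ce445_lin
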