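import Pool.Agent.Work.MP_1ce445_lin.Interface

/-!
Block LSYM of THEOREM LR: the label of a pair of vertices is symmetric.
-/

namespace Pool.Agent.Work.MP_1ce445_lin

open Finset Pool.Agent.Work.MP_1ce445_co_56

lemma LSYM_rk_inj {r : ℕ} : ∀ x y : Option (ZMod (2 * r + 1)), rk x = rk y → x = y := by
  intro x y h
  match x, y with
  | none, none => rfl
  | none, some u => simp [rk] at h
  | some u, none => simp [rk] at h
  | some u, some v =>
    have h1 : u.val = v.val := by
      have h2 : u.val + 1 = v.val + 1 := h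
      omega
    rw [ZMod.val_injective _ h1]

lemma LSYM_aOf {r : ℕ} : ∀ x y : Option (ZMod (2 * r + 1)), aOf x y = aOf y x := by
  intro x y
  match x, y with
  | none, none => rfl
  | none, some u => rfl
  | some u, none => rfl
  | some u, some v =>
    show (u + v) * ((r + 1 : ℕ) : ZMod (2 * r + 1)) = (v + u) * ((r + 1 : ℕ) : ZMod (2 * r + 1))
    ring

lemma LSYM_rep (r h e : ℕ) [NeZero h] (hok : OK r h e) (z z' : ZMod h) :
    rep r h e z z' = rep r h e z' z := by
  obtain ⟨h1, h2, h3⟩ := hok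
  have hbig : 2 * (r + 1) < h := by nlinarith
  unfold rep
  by_cases c1 : 1 ≤ (z' - z).val ∧ (z' - z).val ≤ (e + 1) / 2
  · have hnot : ¬ (1 ≤ (z - z').val ∧ (z - z').val ≤ (e + 1) / 2) := by
      rintro ⟨c3, c4⟩
      obtain ⟨c5, c6⟩ := c1
      have hne : z' - z ≠ 0 := by
        intro h0
        rw [h0] at c5
        simp at c5
      have : NeZero (z' - z) := ⟨hne⟩
      have hneg : (-(z' - z)).val = h - (z' - z).val := ZMod.val_neg_of_ne_zero _
      rw [neg_sub] at hneg
      have hlt : (z' - z).val < h := ZMod.val_lt _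
      omega
    rw [if_pos c1, if_neg hnot, if_pos c1]
  · rw [if_neg c1]
    by_cases c2 : 1 ≤ (z - z').val ∧ (z - z').val ≤ (e + 1) / 2
    · rw [if_pos c2, if_pos c2]
    · rw [if_neg c2, if_neg c2, if_neg c1]

theorem stmt_LSYM : Stmt_LSYM := by
  intro r h e _ hok x y
  unfold lab
  by_cases hxy : x.1 = y.1
  · rw [if_pos hxy, if_pos hxy.symm, hxy]
    unfold labIn
    rcases hy : y.1 with _ | u
    · rfl
    · simp only []
      rw [LSYM_rep r h e hok]
  · have hyx : ¬ y.1 = x.1 := fun h' => hxy h'.symm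
    rw [if_neg hxy, if_neg hyx, LSYM_aOf]
    have hne : rk x.1 ≠ rk y.1 := fun h' => hxy (LSYM_rk_inj _ _ h')
    by_cases hlt : rk x.1 < rk y.1
    · have hlt' : ¬ rk y.1 < rk x.1 := by omega
      rw [if_pos hlt, if_neg hlt']
    · have hlt' : rk y.1 < rk x.1 := by omega
      rw [if_neg hlt, if_pos hlt']

end Pool.Agent.Work.MP_1ce445_lin
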