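import Pool.Agent.Work.MP_1ce445_lin.Interface2

/-! Block MAJ (helper58): a real inequality. -/

namespace Pool.Agent.Work.MP_1ce445_lin

open Finset Pool.Agent.Work.MP_1ce445_co_56

theorem MAJ_main (D c X Y Z : ℝ) (h1 : D / 2 ≤ Z) (h3 : c ≤ D) (h4 : 0 < D)
    (hX0 : 0 ≤ X) (hX : X ≤ c) (hY : Y ≤ c) (hXY : X ≤ Y)
    (h : (2 * D * X - X ^ 2) + (2 * D * Y - Y ^ 2) ≤ (2 * D * c - c ^ 2) + (2 * D * Z - Z ^ 2)) :
    X * Y ≤ c * Z := by
  by_contra hn
  push Not at hn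
  have hZ : 0 < Z := by linarith
  have hZX : Z < X := by
    by_contra hc
    push Not at hc
    have h5 : X * Y ≤ Z * c := mul_le_mul hc hY (by linarith) hZ.le
    linarith [mul_comm Z c]
  have hY0 : 0 < Y := by linarith
  obtain ⟨w, hw⟩ : ∃ w, w * Y = c * Z := ⟨c * Z / Y, by field_simp⟩
  have hwX : w < X := by
    by_contra hc
    push Not at hc
    have h5 := mul_le_mul_of_nonneg_right hc hY0.le
    linarith
  have e1 : 0 < (X - w) * (2 * D - X - w) := mul_pos (by linarith) (by linarith)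
  have e2 : 0 ≤ (Y - Z) * (c - Y) * ((Y + Z) * (c + Y) - 2 * D * Y) := by
    apply mul_nonneg (mul_nonneg (by linarith) (by linarith))
    have h5 : D * (2 * Y) ≤ (Y + Z) * (c + Y) :=
      mul_le_mul (by linarith) (by linarith) (by linarith) (by linarith)
    linarith
  have e3 : Y ^ 2 * (2 * D * w - w ^ 2 + (2 * D * Y - Y ^ 2) - (2 * D * c - c ^ 2) -
      (2 * D * Z - Z ^ 2)) = (Y - Z) * (c - Y) * ((Y + Z) * (c + Y) - 2 * D * Y) := by
    have hw2 : w ^ 2 * Y ^ 2 = c ^ 2 * Z ^ 2 := by rw [← mul_pow, hw, mul_pow]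
    linear_combination (2 * D * Y) * hw - hw2
  have e4 : 0 ≤ 2 * D * w - w ^ 2 + (2 * D * Y - Y ^ 2) - (2 * D * c - c ^ 2) -
      (2 * D * Z - Z ^ 2) := by
    by_contra hc
    push Not at hc
    have h5 := mul_neg_of_pos_of_neg (pow_pos hY0 2) hc
    linarith
  have e5 : (X - w) * (2 * D - X - w) = 2 * D * X - X ^ 2 - 2 * D * w + w ^ 2 := by ring
  linarith

theorem stmt_MAJ : Stmt_MAJ := by
  intro D c X Y Z h1 _ h3 h4 hX0 hX hY0 hY h
  rcases le_total X Y with hXY | hXY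
  · exact MAJ_main D c X Y Z h1 h3 h4 hX0 hX hY hXY h
  · rw [mul_comm]
    exact MAJ_main D c Y X Z h1 h3 h4 hY0 hY hX hXY (by linarith)

end Pool.Agent.Work.MP_1ce445_lin
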