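import Pool.Agent.Work.MP_1ce445_lin.Interface2

/-!
# Block MAT: the family of perfect matchings (helper4)
-/

namespace Pool.Agent.Work.MP_1ce445_lin

open Finset Pool.Agent.Work.MP_1ce445_co_56

open Classical in
/-- the matrix -/
noncomputable def MAT_N {k σ T M : ℕ} (f : Fin k → Fin T → Fin T)
    (e : ∀ i, {u // f i u ≠ u} ≃ Fin M) : Fin k ⊕ Fin M → Fin σ ⊕ Fin T → ℕ
  | Sum.inl _, Sum.inl _ => 1
  | Sum.inl i, Sum.inr u => if f i u = u then 1 else 0
  | Sum.inr _, Sum.inl _ => 0
  | Sum.inr d, Sum.inr u => ∑ i, if (∃ h : f i u ≠ u, e i ⟨u, h⟩ = d) then 1 else 0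

theorem MAT_row {k σ T M : ℕ} (f : Fin k → Fin T → Fin T)
    (e : ∀ i, {u // f i u ≠ u} ≃ Fin M)
    (hc : ∀ i, (univ.filter (fun u => f i u ≠ u)).card = M) (hT : σ + T = k + M) :
    ∀ a, ∑ b, MAT_N (σ := σ) f e a b = k := by
  classical
  rintro (i | d)
  · rw [Fintype.sum_sum_type]
    have h1 : ∑ y : Fin σ, MAT_N (σ := σ) f e (Sum.inl i) (Sum.inl y) = σ := by
      simp [MAT_N]
    have h2 : ∑ u : Fin T, MAT_N (σ := σ) f e (Sum.inl i) (Sum.inr u) + M = T := by
      have h3 : ∑ u : Fin T, MAT_N (σ := σ) f e (Sum.inl i) (Sum.inr u) =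
          ∑ u : Fin T, (if f i u = u then 1 else 0) := rfl
      rw [h3, ← hc i, Finset.card_filter, ← Finset.sum_add_distrib]
      have h4 : ∀ u : Fin T, ((if f i u = u then 1 else 0) + (if f i u ≠ u then 1 else 0) : ℕ) = 1 := by
        intro u
        by_cases h : f i u = u
        · rw [if_pos h, if_neg (not_not.2 h)]
        · rw [if_neg h, if_pos h]
      rw [Finset.sum_congr rfl fun u _ => h4 u]
      simp
    omega
  · rw [Fintype.sum_sum_type]
    have h1 : ∑ y : Fin σ, MAT_N (σ := σ) f e (Sum.inr d) (Sum.inl y) = 0 := by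
      simp [MAT_N]
    have h2 : ∑ u : Fin T, MAT_N (σ := σ) f e (Sum.inr d) (Sum.inr u) =
        ∑ u : Fin T, ∑ i : Fin k, (if (∃ h : f i u ≠ u, e i ⟨u, h⟩ = d) then 1 else 0) := rfl
    rw [h1, h2, Finset.sum_comm, zero_add]
    have h3 : ∀ i : Fin k, ∑ u : Fin T, (if (∃ h : f i u ≠ u, e i ⟨u, h⟩ = d) then 1 else 0) = 1 := by
      intro i
      rw [Finset.sum_eq_single (((e i).symm d : {u // f i u ≠ u}) : Fin T)]
      · rw [if_pos]
        refine ⟨((e i).symm d).2, ?_⟩
        exact (e i).apply_symm_apply d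
      · intro u _ hu
        rw [if_neg]
        rintro ⟨h, he⟩
        apply hu
        rw [← he, Equiv.symm_apply_apply]
      · intro h
        exact absurd (Finset.mem_univ _) h
    rw [Finset.sum_congr rfl fun i _ => h3 i]
    simp

theorem MAT_col {k σ T M : ℕ} (f : Fin k → Fin T → Fin T)
    (e : ∀ i, {u // f i u ≠ u} ≃ Fin M) :
    ∀ b, ∑ a, MAT_N (σ := σ) f e a b = k := by
  classical
  rintro (y | u)
  · rw [Fintype.sum_sum_type]
    simp [MAT_N]
  · rw [Fintype.sum_sum_type]
    have h1 : ∑ i : Fin k, MAT_N (σ := σ) f e (Sum.inl i) (Sum.inr u) =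
        ∑ i : Fin k, (if f i u = u then 1 else 0) := rfl
    have h2 : ∑ d : Fin M, MAT_N (σ := σ) f e (Sum.inr d) (Sum.inr u) =
        ∑ d : Fin M, ∑ i : Fin k, (if (∃ h : f i u ≠ u, e i ⟨u, h⟩ = d) then 1 else 0) := rfl
    rw [h1, h2, Finset.sum_comm, ← Finset.sum_add_distrib]
    have h3 : ∀ i : Fin k, ((if f i u = u then 1 else 0) +
        ∑ d : Fin M, (if (∃ h : f i u ≠ u, e i ⟨u, h⟩ = d) then 1 else 0) : ℕ) = 1 := by
      intro i
      by_cases hi : f i u = u
      · have hz : ∑ d : Fin M, (if (∃ h : f i u ≠ u, e i ⟨u, h⟩ = d) then 1 else 0) = 0 := by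
          refine Finset.sum_eq_zero fun d _ => ?_
          rw [if_neg]
          rintro ⟨h, -⟩
          exact h hi
        rw [if_pos hi, hz]
      · rw [if_neg hi, Finset.sum_eq_single (e i ⟨u, hi⟩)]
        · rw [if_pos ⟨hi, rfl⟩]
        · intro d _ hd
          rw [if_neg]
          rintro ⟨h, he⟩
          exact hd he.symm
        · intro h
          exact absurd (Finset.mem_univ _) h
    rw [Finset.sum_congr rfl fun i _ => h3 i]
    simp

open Classical in
/-- the involutions -/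
noncomputable def MAT_mu {k σ t M : ℕ} (f : Fin k → Fin (2 * t + 1) → Fin (2 * t + 1))
    (π : Fin k → (Fin k ⊕ Fin M ≃ Fin σ ⊕ Fin (2 * t + 1))) (i : Fin k) : VV k σ t → VV k σ t
  | Sum.inl x => Sum.inr (π x (Sum.inl i))
  | Sum.inr z => if h : ∃ x, π x (Sum.inl i) = z then Sum.inl h.choose else Sum.inr (Sum.map id (f i) z)

theorem stmt_MAT (h1 : Stmt_KOE) (h2 : Stmt_SEQ) : Stmt_MAT := by
  classical
  intro k σ t m hn hσ hkm
  have hmt : m + 1 ≤ t := by omega
  obtain ⟨f, hinv, hcard, hdis⟩ := h2 t m k hmt hkm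
  have hfc : ∀ i, Fintype.card {u // f i u ≠ u} = 2 * m := by
    intro i
    rw [Fintype.card_subtype]
    exact hcard i
  let e : ∀ i, {u // f i u ≠ u} ≃ Fin (2 * m) := fun i => Fintype.equivFinOfCardEq (hfc i)
  obtain ⟨π, hπ⟩ := h1 (Fin k ⊕ Fin (2 * m)) (Fin σ ⊕ Fin (2 * t + 1)) k
    (MAT_N f e) (by simp only [Fintype.card_sum, Fintype.card_fin]; omega)
    (MAT_row f e hcard (by omega)) (MAT_col f e)
  -- uniqueness
  have hU : ∀ i z x x', π x (Sum.inl i) = z → π x' (Sum.inl i) = z → x = x' := by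
    intro i z x x' hx hx'
    have hle : (univ.filter (fun x => π x (Sum.inl i) = z)).card ≤ 1 := by
      rw [← hπ (Sum.inl i) z]
      rcases z with y | u
      · exact le_rfl
      · show (if f i u = u then 1 else 0) ≤ 1
        split_ifs <;> omega
    exact Finset.card_le_one.1 hle x (by simp [hx]) x' (by simp [hx'])
  -- existence
  have hE : ∀ i z, (¬ ∃ x, π x (Sum.inl i) = z) → ∃ u, z = Sum.inr u ∧ f i u ≠ u := by
    intro i z hz
    have h0 : (univ.filter (fun x => π x (Sum.inl i) = z)).card = 0 := by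
      rw [Finset.card_eq_zero, Finset.filter_eq_empty_iff]
      intro x _ hx
      exact hz ⟨x, hx⟩
    rw [← hπ (Sum.inl i) z] at h0
    rcases z with y | u
    · exact absurd h0 one_ne_zero
    · refine ⟨u, rfl, fun h => ?_⟩
      have h5 : (if f i u = u then 1 else 0) = 0 := h0
      rw [if_pos h] at h5
      exact one_ne_zero h5
  have hE' : ∀ i u, f i u ≠ u → ¬ ∃ x, π x (Sum.inl i) = Sum.inr u := by
    rintro i u hu ⟨x, hx⟩
    have h0 : (univ.filter (fun x => π x (Sum.inl i) = Sum.inr u)).card = 0 := by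
      rw [← hπ (Sum.inl i) (Sum.inr u)]
      show (if f i u = u then 1 else 0) = 0
      rw [if_neg hu]
    rw [Finset.card_eq_zero, Finset.filter_eq_empty_iff] at h0
    exact h0 (Finset.mem_univ x) hx
  -- evaluation of mu
  have m1 : ∀ i x, MAT_mu f π i (Sum.inl x) = Sum.inr (π x (Sum.inl i)) := fun i x => rfl
  have m2 : ∀ i x z, π x (Sum.inl i) = z → MAT_mu f π i (Sum.inr z) = Sum.inl x := by
    intro i x z hx
    have h : ∃ x, π x (Sum.inl i) = z := ⟨x, hx⟩
    show (if h : ∃ x, π x (Sum.inl i) = z then (Sum.inl h.choose : VV k σ t)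
      else Sum.inr (Sum.map id (f i) z)) = Sum.inl x
    rw [dif_pos h]
    exact congrArg Sum.inl (hU i z _ _ h.choose_spec hx)
  have m3 : ∀ i u, f i u ≠ u → MAT_mu f π i (Sum.inr (Sum.inr u)) = Sum.inr (Sum.inr (f i u)) := by
    intro i u hu
    show (if h : ∃ x, π x (Sum.inl i) = Sum.inr u then (Sum.inl h.choose : VV k σ t)
      else Sum.inr (Sum.map id (f i) (Sum.inr u))) = Sum.inr (Sum.inr (f i u))
    rw [dif_neg (hE' i u hu)]
    rfl
  refine ⟨MAT_mu f π, ⟨?_, ?_, ?_, ?_, ?_⟩⟩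
  · rintro i (x | z)
    · rw [m1, m2 i x _ rfl]
    · by_cases h : ∃ x, π x (Sum.inl i) = z
      · obtain ⟨x, hx⟩ := h
        rw [m2 i x z hx, m1, hx]
      · obtain ⟨u, rfl, hu⟩ := hE i z h
        rw [m3 i u hu, m3 i (f i u) (by rw [hinv]; exact hu.symm), hinv]
  · rintro i (x | z)
    · rw [m1]
      exact Sum.inr_ne_inl
    · by_cases h : ∃ x, π x (Sum.inl i) = z
      · obtain ⟨x, hx⟩ := h
        rw [m2 i x z hx]
        exact Sum.inl_ne_inr
      · obtain ⟨u, rfl, hu⟩ := hE i z h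
        rw [m3 i u hu]
        intro hh
        exact hu (Sum.inr_injective (Sum.inr_injective hh))
  · rintro i i' (x | z) hh
    · rw [m1, m1] at hh
      exact Sum.inl_injective ((π x).injective (Sum.inr_injective hh))
    · by_cases h : ∃ x, π x (Sum.inl i) = z
      · obtain ⟨x, hx⟩ := h
        rw [m2 i x z hx] at hh
        by_cases h' : ∃ x, π x (Sum.inl i') = z
        · obtain ⟨x', hx'⟩ := h'
          rw [m2 i' x' z hx'] at hh
          have : x = x' := Sum.inl_injective hh
          subst this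
          exact Sum.inl_injective ((π x).injective (hx.trans hx'.symm))
        · obtain ⟨u, rfl, hu⟩ := hE i' z h'
          rw [m3 i' u hu] at hh
          exact absurd hh Sum.inl_ne_inr
      · obtain ⟨u, rfl, hu⟩ := hE i z h
        rw [m3 i u hu] at hh
        by_cases h' : ∃ x, π x (Sum.inl i') = Sum.inr u
        · obtain ⟨x', hx'⟩ := h'
          rw [m2 i' x' _ hx'] at hh
          exact absurd hh Sum.inr_ne_inl
        · obtain ⟨u', hu', hu2⟩ := hE i' _ h'
          have : u = u' := Sum.inr_injective hu'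
          subst this
          rw [m3 i' u hu2] at hh
          by_contra hne
          exact hu (hdis i i' u hne (Sum.inr_injective (Sum.inr_injective hh)))
  · intro i x x'
    rw [m1]
    exact Sum.inr_ne_inl
  · intro x y
    obtain ⟨a, ha⟩ := (π x).surjective (Sum.inl y)
    rcases a with i | d
    · exact ⟨i, by rw [m1, ha]⟩
    · exfalso
      have h0 : (univ.filter (fun x => π x (Sum.inr d) = Sum.inl y)).card = 0 := by
        rw [← hπ (Sum.inr d) (Sum.inl y)]
        rfl
      rw [Finset.card_eq_zero, Finset.filter_eq_empty_iff] at h0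
      exact h0 (Finset.mem_univ x) ha

end Pool.Agent.Work.MP_1ce445_lin
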