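import Pool.Agent.Work.MP_1ce445_lin.Interface2
import Pool.Agent.Work.MP_1ce445_lin.GAM

/-!
Block ODD2: the lower bound for an odd number of vertices (typed by helper99).
-/

namespace Pool.Agent.Work.MP_1ce445_lin

open Finset Pool.Agent.Work.MP_1ce445_co_56

/-- the cyclic successor -/
def ODD2_s {k : ℕ} (a : Fin k) : Fin k :=
  if h : a.val + 1 < k then ⟨a.val + 1, h⟩ else ⟨0, by have := a.isLt; omega⟩

lemma ODD2_s_val {k : ℕ} (a : Fin k) :
    (ODD2_s a).val = if a.val + 1 < k then a.val + 1 else 0 := by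
  unfold ODD2_s
  split_ifs <;> rfl

lemma ODD2_s_ne {k : ℕ} (hk : 2 ≤ k) (a : Fin k) : ODD2_s a ≠ a := by
  intro h
  have h1 := congrArg Fin.val h
  rw [ODD2_s_val] at h1
  have h2 := a.isLt
  split_ifs at h1 <;> omega

lemma ODD2_ss_ne {k : ℕ} (hk : 3 ≤ k) (a : Fin k) : ODD2_s (ODD2_s a) ≠ a := by
  intro h
  have h1 := congrArg Fin.val h
  rw [ODD2_s_val, ODD2_s_val] at h1
  have h2 := a.isLt
  split_ifs at h1 <;> omega

section constr

variable {k σ t : ℕ} (μ : Fin k → VV k σ t → VV k σ t) (x : Fin k → Fin k)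

/-- the extra edge -/
def ODD2_E (i : Fin k) (u v : VV k σ t) : Prop :=
  (u = Sum.inl (x i) ∧ v = Sum.inl (ODD2_s (x i))) ∨
    (v = Sum.inl (x i) ∧ u = Sum.inl (ODD2_s (x i)))

/-- the edges of the matching and the extra edge -/
def ODD2_M (i : Fin k) (u v : VV k σ t) : Prop := μ i u = v ∨ ODD2_E x i u v

/-- the vertices outside of the second set -/
def ODD2_in (u : VV k σ t) : Prop := ∀ y, u ≠ Sum.inr (Sum.inl y)

/-- the raw adjacency -/
def ODD2_A (i : Fin k) (u v : VV k σ t) : Prop :=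
  ODD2_M μ x i u v ∨ ((∀ j, ¬ ODD2_M μ x j u v) ∧
    ((i.val + 2 = k ∧ ODD2_in u ∧ ODD2_in v) ∨ (i.val + 1 = k ∧ ¬ (ODD2_in u ∧ ODD2_in v))))

variable {μ x}

lemma ODD2_M_symm (hM : Mat k σ t μ) {i : Fin k} {u v : VV k σ t} (h : ODD2_M μ x i u v) :
    ODD2_M μ x i v u := by
  rcases h with h | h | h
  · left
    rw [← h]
    exact hM.inv i u
  · exact Or.inr (Or.inr h)
  · exact Or.inr (Or.inl h)

lemma ODD2_A_symm (hM : Mat k σ t μ) {i : Fin k} {u v : VV k σ t} (h : ODD2_A μ x i u v) :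
    ODD2_A μ x i v u := by
  rcases h with h | ⟨h1, h2⟩
  · exact Or.inl (ODD2_M_symm hM h)
  · refine Or.inr ⟨fun j hj => h1 j (ODD2_M_symm hM hj), ?_⟩
    rcases h2 with ⟨h2, h3, h4⟩ | ⟨h2, h3⟩
    · exact Or.inl ⟨h2, h4, h3⟩
    · exact Or.inr ⟨h2, fun h => h3 ⟨h.2, h.1⟩⟩

/-- the factors -/
def ODD2_G (hM : Mat k σ t μ) (x : Fin k → Fin k) (Y : VV k σ t) (i : Fin k) :
    SimpleGraph {v : VV k σ t // v ≠ Y} where
  Adj u v := u ≠ v ∧ ODD2_A μ x i u.1 v.1
  symm := ⟨fun _ _ h => ⟨h.1.symm, ODD2_A_symm hM h.2⟩⟩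
  loopless := ⟨fun _ h => h.1 rfl⟩

lemma ODD2_M_unique (hk : 3 ≤ k) (hM : Mat k σ t μ) (hx : Function.Injective x) {i j : Fin k}
    {u v : VV k σ t} (h : ODD2_M μ x i u v) (h' : ODD2_M μ x j u v) : i = j := by
  have out : ∀ (i j : Fin k) (u v : VV k σ t), μ i u = v → ODD2_E x j u v → False := by
    intro i j u v h1 h2
    rcases h2 with ⟨h2, h3⟩ | ⟨h2, h3⟩
    · rw [h2, h3] at h1
      exact hM.out i _ _ h1
    · rw [h2, h3] at h1
      exact hM.out i _ _ h1
  rcases h with h | h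
  · rcases h' with h' | h'
    · exact hM.dis i j u (h.trans h'.symm)
    · exact (out i j u v h h').elim
  · rcases h' with h' | h'
    · exact (out j i u v h' h).elim
    · rcases h with ⟨h1, h2⟩ | ⟨h1, h2⟩ <;> rcases h' with ⟨h3, h4⟩ | ⟨h3, h4⟩
      · exact hx (Sum.inl_injective (h1.symm.trans h3))
      · have e1 : x i = ODD2_s (x j) := Sum.inl_injective (h1.symm.trans h4)
        have e2 : x j = ODD2_s (x i) := Sum.inl_injective (h3.symm.trans h2)
        exact absurd (by rw [← e2, ← e1]) (ODD2_ss_ne hk (x i))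
      · have e1 : x j = ODD2_s (x i) := Sum.inl_injective (h3.symm.trans h2)
        have e2 : x i = ODD2_s (x j) := Sum.inl_injective (h1.symm.trans h4)
        exact absurd (by rw [← e1, ← e2]) (ODD2_ss_ne hk (x i))
      · exact hx (Sum.inl_injective (h1.symm.trans h3))

lemma ODD2_minDeg (hk : 3 ≤ k) (hM : Mat k σ t μ) {Y : VV k σ t}
    (hY : ∀ i, μ i Y = Sum.inl (x i)) (hYin : ∀ a : Fin k, Y ≠ Sum.inl a) (i : Fin k)
    (v : {v : VV k σ t // v ≠ Y}) : ∃ w, (ODD2_G hM x Y i).Adj v w := by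
  by_cases h : μ i v.1 = Y
  · have h1 : v.1 = Sum.inl (x i) := by
      have h3 := hM.inv i v.1
      rw [h, hY i] at h3
      exact h3.symm
    refine ⟨⟨Sum.inl (ODD2_s (x i)), (hYin _).symm⟩, ?_, Or.inl (Or.inr (Or.inl ⟨h1, rfl⟩))⟩
    intro h2
    have h3 : v.1 = Sum.inl (ODD2_s (x i)) := congrArg Subtype.val h2
    rw [h1] at h3
    exact ODD2_s_ne (by omega) (x i) (Sum.inl_injective h3).symm
  · refine ⟨⟨μ i v.1, h⟩, ?_, Or.inl (Or.inl rfl)⟩
    intro h2
    have h3 : v.1 = μ i v.1 := congrArg Subtype.val h2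
    exact hM.ne i v.1 h3.symm

lemma ODD2_fact (hk : 3 ≤ k) (hM : Mat k σ t μ) (hx : Function.Injective x) {Y : VV k σ t}
    (hY : ∀ i, μ i Y = Sum.inl (x i)) (hYin : ∀ a : Fin k, Y ≠ Sum.inl a) :
    IsFactorization (ODD2_G hM x Y) := by
  classical
  apply IsFactorization.of_adj
  · rintro i j u v ⟨-, h1⟩ ⟨-, h2⟩
    rcases h1 with h1 | ⟨h1, h1'⟩
    · rcases h2 with h2 | ⟨h2, h2'⟩
      · exact ODD2_M_unique hk hM hx h1 h2
      · exact absurd h1 (h2 i)
    · rcases h2 with h2 | ⟨h2, h2'⟩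
      · exact absurd h2 (h1 j)
      · rcases h1' with ⟨a1, a2⟩ | ⟨a1, a2⟩ <;> rcases h2' with ⟨b1, b2⟩ | ⟨b1, b2⟩
        · exact Fin.ext (by omega)
        · exact absurd a2 b2
        · exact absurd b2 a2
        · exact Fin.ext (by omega)
  · intro u v huv
    by_cases h : ∃ i, ODD2_M μ x i u.1 v.1
    · obtain ⟨i, hi⟩ := h
      exact ⟨i, huv, Or.inl hi⟩
    · have h' : ∀ j, ¬ ODD2_M μ x j u.1 v.1 := fun j hj => h ⟨j, hj⟩
      by_cases h2 : ODD2_in u.1 ∧ ODD2_in v.1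
      · exact ⟨⟨k - 2, by omega⟩, huv, Or.inr ⟨h', Or.inl ⟨by show k - 2 + 2 = k; omega, h2⟩⟩⟩
      · exact ⟨⟨k - 1, by omega⟩, huv, Or.inr ⟨h', Or.inr ⟨by show k - 1 + 1 = k; omega, h2⟩⟩⟩
  · exact ODD2_minDeg hk hM hY hYin

lemma ODD2_small (hk : 3 ≤ k) (hM : Mat k σ t μ) {Y : VV k σ t}
    (hY : ∀ i, μ i Y = Sum.inl (x i)) (hYin : ∀ a : Fin k, Y ≠ Sum.inl a) (i : Fin k)
    (hi : i.val + 2 < k) :
    Fintype.card {v : VV k σ t // v ≠ Y} ≤ gammaT (ODD2_G hM x Y i) + 1 := by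
  classical
  have hA : ∀ u v : {v : VV k σ t // v ≠ Y}, (ODD2_G hM x Y i).Adj u v → ODD2_M μ x i u.1 v.1 := by
    rintro u v ⟨-, h | ⟨-, h | h⟩⟩
    · exact h
    · exact absurd h.1 (by omega)
    · exact absurd h.1 (by omega)
  refine GAM_sub_one (ODD2_minDeg hk hM hY hYin i) ⟨Sum.inl (ODD2_s (x i)), (hYin _).symm⟩
    ⟨Sum.inl (x i), (hYin _).symm⟩ ?_ ?_
  · intro u y y' hu hy hy'
    have hu' : u.1 ≠ Sum.inl (ODD2_s (x i)) := fun h => hu (Subtype.ext h)
    have key : ∀ y : {v : VV k σ t // v ≠ Y}, ODD2_M μ x i u.1 y.1 →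
        (u.1 = Sum.inl (x i) ∧ y.1 = Sum.inl (ODD2_s (x i))) ∨
          (u.1 ≠ Sum.inl (x i) ∧ y.1 = μ i u.1) := by
      intro y h
      rcases h with h | h | h
      · right
        refine ⟨?_, h.symm⟩
        intro h2
        apply y.2
        rw [← h, h2, ← hY i, hM.inv]
      · exact Or.inl h
      · exact absurd h.2 hu'
    rcases key y (hA _ _ hy) with h | h <;> rcases key y' (hA _ _ hy') with h' | h'
    · exact Subtype.ext (h.2.trans h'.2.symm)
    · exact absurd h.1 h'.1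
    · exact absurd h'.1 h.1
    · exact Subtype.ext (h.2.trans h'.2.symm)
  · intro y y' hyv hyv' hy hy'
    have key : ∀ y : {v : VV k σ t // v ≠ Y}, y ≠ ⟨Sum.inl (x i), (hYin _).symm⟩ →
        ODD2_M μ x i (Sum.inl (ODD2_s (x i))) y.1 → y.1 = μ i (Sum.inl (ODD2_s (x i))) := by
      intro y hy h
      rcases h with h | h | h
      · exact h.symm
      · exact absurd (Sum.inl_injective h.1) (ODD2_s_ne (by omega) (x i))
      · exact absurd (Subtype.ext h.1) hy
    exact Subtype.ext ((key y hyv (hA _ _ hy)).trans (key y' hyv' (hA _ _ hy')).symm)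

lemma ODD2_big1 (hk : 3 ≤ k) (hM : Mat k σ t μ) (y₀ : Fin σ)
    (hY : ∀ i, μ i (Sum.inr (Sum.inl y₀)) = Sum.inl (x i)) (i : Fin k) (hi : i.val + 2 = k) :
    σ - 1 ≤ gammaT (ODD2_G hM x (Sum.inr (Sum.inl y₀)) i) := by
  classical
  have hYin : ∀ a : Fin k, (Sum.inr (Sum.inl y₀) : VV k σ t) ≠ Sum.inl a := fun a => by simp
  have hg : ∀ y : {y : Fin σ // y ≠ y₀}, μ i (Sum.inr (Sum.inl y.1)) ≠ Sum.inr (Sum.inl y₀) := by
    intro y h
    have h1 : (Sum.inr (Sum.inl y.1) : VV k σ t) = Sum.inl (x i) := by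
      rw [← hY i, ← h, hM.inv]
    simp at h1
  have key := card_le_gammaT (ODD2_minDeg hk hM hY hYin i) (α := {y : Fin σ // y ≠ y₀})
    (fun y => ⟨Sum.inr (Sum.inl y.1), by simpa using y.2⟩)
    (fun y => ⟨μ i (Sum.inr (Sum.inl y.1)), hg y⟩) ?_ ?_
  · have hc : Fintype.card {y : Fin σ // y ≠ y₀} = σ - 1 := by
      rw [Fintype.card_subtype_compl, Fintype.card_subtype_eq, Fintype.card_fin]
    rwa [hc] at key
  · intro y y' h
    have h1 : μ i (Sum.inr (Sum.inl y.1)) = μ i (Sum.inr (Sum.inl y'.1)) := congrArg Subtype.val h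
    have h2 := congrArg (μ i) h1
    rw [hM.inv, hM.inv] at h2
    exact Subtype.ext (Sum.inl_injective (Sum.inr_injective h2))
  · rintro y w ⟨-, h | ⟨-, h | h⟩⟩
    · rcases h with h | h | h
      · exact Subtype.ext h.symm
      · simp at h
      · simp at h
    · exact absurd rfl (h.2.1 y.1)
    · exact absurd h.1 (by omega)

lemma ODD2_big2 (hk : 3 ≤ k) (hM : Mat k σ t μ) (y₀ : Fin σ)
    (hY : ∀ i, μ i (Sum.inr (Sum.inl y₀)) = Sum.inl (x i)) (i : Fin k) (hi : i.val + 1 = k) :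
    k - 1 ≤ gammaT (ODD2_G hM x (Sum.inr (Sum.inl y₀)) i) := by
  classical
  have hYin : ∀ a : Fin k, (Sum.inr (Sum.inl y₀) : VV k σ t) ≠ Sum.inl a := fun a => by simp
  have hg : ∀ a : Fin k, (if a = x i then (Sum.inl (ODD2_s (x i)) : VV k σ t)
      else μ i (Sum.inl a)) ≠ Sum.inr (Sum.inl y₀) := by
    intro a
    split_ifs with h
    · simp
    · intro h2
      apply h
      have h1 : (Sum.inl a : VV k σ t) = Sum.inl (x i) := by
        rw [← hY i, ← h2, hM.inv]
      exact Sum.inl_injective h1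
  have key := card_le_gammaT (ODD2_minDeg hk hM hY hYin i) (α := {a : Fin k // a ≠ ODD2_s (x i)})
    (fun a => ⟨Sum.inl a.1, by simp⟩)
    (fun a => ⟨if a.1 = x i then (Sum.inl (ODD2_s (x i)) : VV k σ t) else μ i (Sum.inl a.1),
      hg a.1⟩) ?_ ?_
  · have hc : Fintype.card {a : Fin k // a ≠ ODD2_s (x i)} = k - 1 := by
      rw [Fintype.card_subtype_compl, Fintype.card_subtype_eq, Fintype.card_fin]
    rwa [hc] at key
  · intro a b h
    have h1 : (if a.1 = x i then (Sum.inl (ODD2_s (x i)) : VV k σ t) else μ i (Sum.inl a.1)) =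
        (if b.1 = x i then (Sum.inl (ODD2_s (x i)) : VV k σ t) else μ i (Sum.inl b.1)) :=
      congrArg Subtype.val h
    split_ifs at h1 with h2 h3 h3
    · exact Subtype.ext (h2.trans h3.symm)
    · exact absurd h1.symm (hM.out i _ _)
    · exact absurd h1 (hM.out i _ _)
    · have h4 := congrArg (μ i) h1
      rw [hM.inv, hM.inv] at h4
      exact Subtype.ext (Sum.inl_injective h4)
  · rintro a w ⟨-, h | ⟨h0, h | h⟩⟩
    · apply Subtype.ext
      show w.1 = if a.1 = x i then (Sum.inl (ODD2_s (x i)) : VV k σ t) else μ i (Sum.inl a.1)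
      rcases h with h | h | h
      · rw [if_neg]
        · exact h.symm
        · intro h2
          apply w.2
          rw [← h]
          show μ i (Sum.inl a.1) = _
          rw [h2, ← hY i, hM.inv]
      · rw [if_pos (Sum.inl_injective h.1)]
        exact h.2
      · exact absurd (Sum.inl_injective h.2) a.2
    · exact absurd h.1 (by omega)
    · exfalso
      have hin : ODD2_in (Sum.inl a.1 : VV k σ t) := fun y => by simp
      have hw : ¬ ODD2_in w.1 := fun h2 => h.2 ⟨hin, h2⟩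
      unfold ODD2_in at hw
      push Not at hw
      obtain ⟨y, hy⟩ := hw
      obtain ⟨j, hj⟩ := hM.all a.1 y
      apply h0 j
      left
      rw [hy]
      exact hj

end constr

lemma ODD2_prod {k σ t : ℕ} (hk : 2 ≤ k) (a : Fin k → ℕ)
    (hs : ∀ i : Fin k, i.val + 2 < k → k + σ + 2 * t ≤ a i + 1)
    (hb1 : ∀ i : Fin k, i.val + 2 = k → σ - 1 ≤ a i)
    (hb2 : ∀ i : Fin k, i.val + 1 = k → k - 1 ≤ a i) :
    (k + σ + 2 * t - 1) ^ (k - 2) * ((σ - 1) * (k - 1)) ≤ ∏ i, a i := by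
  obtain ⟨m, rfl⟩ : ∃ m, k = m + 2 := ⟨k - 2, by omega⟩
  rw [Fin.prod_univ_castSucc, Fin.prod_univ_castSucc, mul_assoc]
  have e1 : m + 2 - 2 = m := by omega
  rw [e1]
  refine Nat.mul_le_mul ?_ (Nat.mul_le_mul ?_ ?_)
  · calc (m + 2 + σ + 2 * t - 1) ^ m = ∏ _i : Fin m, (m + 2 + σ + 2 * t - 1) := by simp
      _ ≤ ∏ i : Fin m, a i.castSucc.castSucc := by
          refine Finset.prod_le_prod' fun i _ => ?_
          have := hs i.castSucc.castSucc (by
            have := i.isLt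
            show i.val + 2 < m + 2
            omega)
          omega
  · exact hb1 (Fin.castSucc (Fin.last m)) (by show m + 2 = m + 2; rfl)
  · exact hb2 (Fin.last (m + 1)) (by show m + 1 + 1 = m + 2; rfl)

theorem stmt_ODD2 : Stmt_ODD2 := by
  classical
  intro k σ t μ hk hσ hM
  set y₀ : Fin σ := ⟨0, hσ⟩ with hy₀
  have hj := fun a : Fin k => hM.all a y₀
  choose j hj using hj
  have hjinj : Function.Injective j := by
    intro a b h
    have h1 := hj a
    rw [h, ← hj b] at h1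
    have h2 := congrArg (μ (j b)) h1
    rw [hM.inv, hM.inv] at h2
    exact Sum.inl_injective h2
  have hjbij : Function.Bijective j := Finite.injective_iff_bijective.1 hjinj
  set J := Equiv.ofBijective j hjbij with hJ
  set x : Fin k → Fin k := fun i => J.symm i with hxdef
  have hxinj : Function.Injective x := fun a b h => J.symm.injective h
  have hY : ∀ i, μ i (Sum.inr (Sum.inl y₀)) = Sum.inl (x i) := by
    intro i
    have h1 := hj (x i)
    have h2 : j (x i) = i := J.apply_symm_apply i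
    rw [h2] at h1
    rw [← h1, hM.inv]
  have hYin : ∀ a : Fin k, (Sum.inr (Sum.inl y₀) : VV k σ t) ≠ Sum.inl a := fun a => by simp
  have hcard : Fintype.card {v : VV k σ t // v ≠ Sum.inr (Sum.inl y₀)} = k + σ + 2 * t := by
    rw [Fintype.card_subtype_compl, Fintype.card_subtype_eq, Fintype.card_sum, Fintype.card_sum,
      Fintype.card_fin, Fintype.card_fin, Fintype.card_fin]
    omega
  have hle := le_P hcard (Fintype.card_fin k) (ODD2_fact (by omega) hM hxinj hY hYin)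
  refine le_trans ?_ hle
  have hs := ODD2_small (by omega) hM hY hYin
  have hb1 := ODD2_big1 (by omega) hM y₀ hY
  have hb2 := ODD2_big2 (by omega) hM y₀ hY
  rw [hcard] at hs
  exact ODD2_prod (by omega) (fun i => gammaT (ODD2_G hM x (Sum.inr (Sum.inl y₀)) i)) hs hb1 hb2

end Pool.Agent.Work.MP_1ce445_lin
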