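import Pool.Agent.Work.MP_1ce445_lin.Interface

/-! # THEOREM LR, block PART -/

namespace Pool.Agent.Work.MP_1ce445_lin

open Finset Pool.Agent.Work.MP_1ce445_co_56

theorem PART_val {r : ℕ} (u : ZMod (2 * r + 1)) : u.val < 2 * r + 1 := ZMod.val_lt u

theorem PART_add {r : ℕ} (w : ZMod (2 * r + 1)) (h : w * ((r + 1 : ℕ) : ZMod (2 * r + 1)) = 0) :
    w = 0 := by
  have h1 : (((2 * r + 1 : ℕ)) : ZMod (2 * r + 1)) = 0 := ZMod.natCast_self _
  have h2 : ((r + 1 : ℕ) : ZMod (2 * r + 1)) * 2 = 1 := by
    push_cast at h1 ⊢
    linear_combination h1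
  calc w = w * (((r + 1 : ℕ) : ZMod (2 * r + 1)) * 2) := by rw [h2, mul_one]
    _ = (w * ((r + 1 : ℕ) : ZMod (2 * r + 1))) * 2 := by ring
    _ = 0 := by rw [h, zero_mul]

theorem stmt_PART : Stmt_PART := by
  intro r
  refine ⟨?_, ?_, ?_⟩
  · intro x y hxy h
    rcases x with _ | u <;> rcases y with _ | v
    · exact absurd rfl hxy
    · change v = 0 at h
      subst h
      simp [part]
    · change u = 0 at h
      subst h
      simp [part]
    · change (u + v) * ((r + 1 : ℕ) : ZMod (2 * r + 1)) = 0 at h
      have h1 := PART_add _ h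
      obtain rfl : v = -u := eq_neg_of_add_eq_zero_right h1
      have hu : u ≠ 0 := by
        rintro rfl
        exact hxy (by rw [neg_zero])
      change min u.val (2 * r + 1 - u.val) = min (-u).val (2 * r + 1 - (-u).val)
      rw [ZMod.neg_val, if_neg hu]
      have := PART_val u
      omega
  · intro x
    rcases x with _ | u
    · exact Nat.zero_le _
    · change min u.val (2 * r + 1 - u.val) ≤ r
      omega
  · intro i
    refine (card_le_card (t := {(if i = 0 then none else some (-(i : ZMod (2 * r + 1)))),
      some (i : ZMod (2 * r + 1))}) ?_).trans card_le_two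
    intro x hx
    rw [mem_filter] at hx
    have h := hx.2
    rw [mem_insert, mem_singleton]
    rcases x with _ | u
    · left
      change 0 = i at h
      rw [if_pos h.symm]
    · change min u.val (2 * r + 1 - u.val) = i at h
      have hv := PART_val u
      have hc : ((u.val : ℕ) : ZMod (2 * r + 1)) = u := ZMod.natCast_zmod_val u
      by_cases h1 : u.val = i
      · right
        rw [← h1, hc]
      · left
        have h2 : 2 * r + 1 = u.val + i := by omega
        have hi : i ≠ 0 := by omega
        rw [if_neg hi]
        have h3 : (((2 * r + 1 : ℕ)) : ZMod (2 * r + 1)) = 0 := ZMod.natCast_self _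
        have h4 : ((u.val + i : ℕ) : ZMod (2 * r + 1)) = 0 := by
          rw [← h3]
          exact congrArg _ h2.symm
        rw [Nat.cast_add, hc] at h4
        rw [eq_neg_of_add_eq_zero_left h4]

end Pool.Agent.Work.MP_1ce445_lin
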