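import Pool.Agent.Work.MP_1ce445_lin.Interface2

namespace Pool.Agent.Work.MP_1ce445_lin

open Finset Pool.Agent.Work.MP_1ce445_co_56

/-- The final one variable inequality, linear in `s`. -/
theorem POL_lin (r s : ℝ) (hr : 0 ≤ r) (hr3 : r ≤ 1 / 3) (hs : 0 ≤ s) (hs1 : s ≤ 1 - 2 * r) :
    0 ≤ 1 - 4 * r * (1 - r - r * s) - (r + s) / 4 := by
  have h0 : 0 ≤ 1 - 17 * r / 4 + 4 * r ^ 2 := by nlinarith
  have h1 : 0 ≤ 3 / 4 - 15 / 4 * r + 8 * r ^ 2 - 8 * r ^ 3 := by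
    nlinarith [mul_nonneg hr (sq_nonneg (r - 1 / 3)), sq_nonneg (r - 1 / 3),
      mul_nonneg (sub_nonneg.2 hr3) (sq_nonneg r), mul_nonneg (sub_nonneg.2 hr3) hr]
  have hp : 0 < 1 - 2 * r := by linarith
  have hid : (1 - 2 * r) * (1 - 4 * r * (1 - r - r * s) - (r + s) / 4) =
      (1 - 2 * r - s) * (1 - 17 * r / 4 + 4 * r ^ 2) +
        s * (3 / 4 - 15 / 4 * r + 8 * r ^ 2 - 8 * r ^ 3) := by
    ring
  have h2 : 0 ≤ (1 - 2 * r) * (1 - 4 * r * (1 - r - r * s) - (r + s) / 4) := by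
    rw [hid]
    have h3 : 0 ≤ 1 - 2 * r - s := by linarith
    positivity
  exact nonneg_of_mul_nonneg_right h2 hp

/-- The sum of the two expressions at the lowest value of `a` is nonnegative. -/
theorem POL_sum (r θ : ℝ) (hr : 0 ≤ r) (hr3 : r ≤ 1 / 3) (hθ : 0 ≤ θ) (hθ1 : θ ≤ 1 - 2 * r) :
    0 ≤ 2 * (2 - θ) * ((1 / 2 - r + r ^ 2) + θ * r) ^ 2 - θ +
      (2 * (2 - θ) * (1 / 2 - r + r ^ 2) * ((1 / 2 - r + r ^ 2) + θ * r) -
        (1 - θ) * (2 * (1 / 2 - r + r ^ 2) + θ * r)) := by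
  obtain ⟨s, hs⟩ : ∃ s, s = 1 - 2 * r - θ := ⟨_, rfl⟩
  have hs0 : 0 ≤ s := by linarith
  have hs1 : s ≤ 1 - 2 * r := by linarith
  have hθs : θ = 1 - 2 * r - s := by linarith
  have hlin := POL_lin r s hr hr3 hs0 hs1
  have hid : 2 * (2 - θ) * ((1 / 2 - r + r ^ 2) + θ * r) ^ 2 - θ +
      (2 * (2 - θ) * (1 / 2 - r + r ^ 2) * ((1 / 2 - r + r ^ 2) + θ * r) -
        (1 - θ) * (2 * (1 / 2 - r + r ^ 2) + θ * r)) =
      (r + s) * (1 - 4 * r * (1 - r - r * s) - (r + s) / 4) +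
        2 * r * (1 - 2 * r - s) * (1 - r - r * s) * (r + s) + (r - s) ^ 2 / 4 := by
    rw [hθs]; ring
  rw [hid]
  have h1 : 0 ≤ r + s := by linarith
  have h2 : 0 ≤ 1 - 2 * r - s := by linarith
  have h3 : 0 ≤ 1 - r - r * s := by nlinarith
  have h4 : 0 ≤ (r - s) ^ 2 := sq_nonneg _
  positivity

/-- POL. -/
theorem stmt_POL : Stmt_POL := by
  intro r θ a hr hr3 hθ hθ1 ha
  by_contra hcon
  rw [not_or, not_le, not_le] at hcon
  obtain ⟨hA, hB⟩ := hcon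
  have hsum := POL_sum r θ hr hr3 hθ hθ1
  obtain ⟨b, hb⟩ : ∃ b, b = 1 / 2 - r + r ^ 2 := ⟨_, rfl⟩
  rw [← hb] at hsum ha
  have hb0 : 1 / 4 ≤ b := by rw [hb]; nlinarith [sq_nonneg (r - 1 / 2)]
  obtain ⟨t, ht⟩ : ∃ t, t = a - b := ⟨_, rfl⟩
  have ht0 : 0 ≤ t := by linarith
  have hat : a = b + t := by linarith
  have hθr : 0 ≤ θ * r := mul_nonneg hθ hr
  have hθ2 : 0 ≤ 2 - θ := by linarith
  have h1 : 0 ≤ (2 * (2 - θ) * (a + θ * r) ^ 2 - θ) - (2 * (2 - θ) * (b + θ * r) ^ 2 - θ) := by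
    have : (2 * (2 - θ) * (a + θ * r) ^ 2 - θ) - (2 * (2 - θ) * (b + θ * r) ^ 2 - θ) =
        2 * (2 - θ) * (t * (2 * b + t + 2 * (θ * r))) := by rw [hat]; ring
    rw [this]; positivity
  have h2 : 0 ≤ (2 * (2 - θ) * a * (a + θ * r) - (1 - θ) * (2 * a + θ * r)) -
      (2 * (2 - θ) * b * (b + θ * r) - (1 - θ) * (2 * b + θ * r)) := by
    have : (2 * (2 - θ) * a * (a + θ * r) - (1 - θ) * (2 * a + θ * r)) -
      (2 * (2 - θ) * b * (b + θ * r) - (1 - θ) * (2 * b + θ * r)) =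
        2 * t * ((2 - θ) * (2 * (b - 1 / 4) + t + θ * r) + θ / 2) := by rw [hat]; ring
    rw [this]
    have h5 : 0 ≤ b - 1 / 4 := by linarith
    positivity
  linarith

end Pool.Agent.Work.MP_1ce445_lin
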