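import Pool.Agent.Work.MP_1ce445_lin.Interface2

namespace Pool.Agent.Work.MP_1ce445_lin

open Finset Pool.Agent.Work.MP_1ce445_co_56

lemma RAO_exp_neg (z : ℝ) (hz : 0 ≤ z) : Real.exp (-z) ≤ 1 - z + z ^ 2 / 2 := by
  have h1 : 1 + z + z ^ 2 / 2 ≤ Real.exp z := Real.quadratic_le_exp_of_nonneg hz
  have h2 : 0 < 1 - z + z ^ 2 / 2 := by nlinarith [sq_nonneg (z - 1)]
  have h3 : 1 ≤ (1 - z + z ^ 2 / 2) * Real.exp z := by
    have h4 : 1 ≤ (1 - z + z ^ 2 / 2) * (1 + z + z ^ 2 / 2) := by nlinarith [sq_nonneg (z ^ 2)]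
    exact h4.trans (mul_le_mul_of_nonneg_left h1 h2.le)
  have h5 : Real.exp (-z) * Real.exp z = 1 := by rw [← Real.exp_add]; simp
  have h6 := Real.exp_pos (-z)
  calc Real.exp (-z) = Real.exp (-z) * 1 := by ring
    _ ≤ Real.exp (-z) * ((1 - z + z ^ 2 / 2) * Real.exp z) := mul_le_mul_of_nonneg_left h3 h6.le
    _ = (1 - z + z ^ 2 / 2) * (Real.exp (-z) * Real.exp z) := by ring
    _ = 1 - z + z ^ 2 / 2 := by rw [h5, mul_one]

/-- from a lower bound of `exp x` to an upper bound of `exp (-x)` -/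
lemma RAO_inv (x a b : ℝ) (ha : 0 < a) (hab : 1 ≤ a * b) (h : b ≤ Real.exp x) :
    Real.exp (-x) ≤ a := by
  have h5 : Real.exp (-x) * Real.exp x = 1 := by rw [← Real.exp_add]; simp
  have h6 := Real.exp_pos (-x)
  calc Real.exp (-x) = Real.exp (-x) * 1 := by ring
    _ ≤ Real.exp (-x) * (a * Real.exp x) := by
        refine mul_le_mul_of_nonneg_left ?_ h6.le
        exact hab.trans (mul_le_mul_of_nonneg_left h ha.le)
    _ = a * (Real.exp (-x) * Real.exp x) := by ring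
    _ = a := by rw [h5, mul_one]

lemma RAO_e1 : Real.exp (-(47 / 48)) ≤ 0.37564 := by
  refine RAO_inv _ _ 2.66213 (by norm_num) (by norm_num) ?_
  refine le_trans ?_ (Real.sum_le_exp_of_nonneg (by norm_num : (0 : ℝ) ≤ 47 / 48) 9)
  simp only [Finset.sum_range_succ, Finset.sum_range_zero]
  norm_num [Nat.factorial]

lemma RAO_e2 : Real.exp (-(47 / 48 + 8 / 27)) ≤ 3 / 10 := by
  refine RAO_inv _ _ (10 / 3) (by norm_num) (by norm_num) ?_
  refine le_trans ?_ (Real.sum_le_exp_of_nonneg (by norm_num : (0 : ℝ) ≤ 47 / 48 + 8 / 27) 6)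
  simp only [Finset.sum_range_succ, Finset.sum_range_zero]
  norm_num [Nat.factorial]

lemma RAO_e3 : Real.exp (-(247 / 108)) ≤ 1 / 9 := by
  refine RAO_inv _ _ 9 (by norm_num) (by norm_num) ?_
  refine le_trans ?_ (Real.sum_le_exp_of_nonneg (by norm_num : (0 : ℝ) ≤ 247 / 108) 9)
  simp only [Finset.sum_range_succ, Finset.sum_range_zero]
  norm_num [Nat.factorial]

lemma RAO_e4 : Real.exp (-(52 / 27 + 91 / 180)) ≤ 0.0880 := by
  refine RAO_inv _ _ 11.364 (by norm_num) (by norm_num) ?_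
  refine le_trans ?_ (Real.sum_le_exp_of_nonneg (by norm_num : (0 : ℝ) ≤ 52 / 27 + 91 / 180) 13)
  simp only [Finset.sum_range_succ, Finset.sum_range_zero]
  norm_num [Nat.factorial]

lemma RAO_first (c q : ℝ) (hc : 3 / 10 ≤ c) (hc' : c ≤ 1 / 2) (hq : 0 ≤ q) (hqc : q ≤ c) :
    q * Real.exp (-(47 / 48 * (1 + q - c) + 2 / 3 * (4 * q * (1 - q - c)))) ≤
      c * Real.exp (-(47 / 48 + 8 / 3 * (c * (1 - 2 * c)))) := by
  set A := 47 / 48 * (1 + q - c) + 2 / 3 * (4 * q * (1 - q - c)) with hA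
  set B := 47 / 48 + 8 / 3 * (c * (1 - 2 * c)) with hB
  have h1 : A - B = (q - c) * (47 / 48 + 8 / 3 * (1 - 2 * c - q)) := by rw [hA, hB]; ring
  have h2 : c * (47 / 48 + 8 / 3 * (1 - 2 * c - q)) ≤ 1 := by nlinarith [sq_nonneg (c - 0.3418)]
  have h3 : q ≤ c * (1 + (A - B)) := by
    rw [h1]
    nlinarith [mul_nonneg (sub_nonneg.2 hqc) (sub_nonneg.2 h2)]
  have h4 : 1 + (A - B) ≤ Real.exp (A - B) := by linarith [Real.add_one_le_exp (A - B)]
  have h5 : q ≤ c * Real.exp (A - B) := h3.trans (mul_le_mul_of_nonneg_left h4 (by linarith))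
  have h6 : Real.exp (A - B) * Real.exp (-A) = Real.exp (-B) := by
    rw [← Real.exp_add]; congr 1; ring
  calc q * Real.exp (-A) ≤ (c * Real.exp (A - B)) * Real.exp (-A) :=
        mul_le_mul_of_nonneg_right h5 (Real.exp_pos _).le
    _ = c * (Real.exp (A - B) * Real.exp (-A)) := by ring
    _ = c * Real.exp (-B) := by rw [h6]

theorem stmt_RAO (h1 : Stmt_PHI) : Stmt_RAO := by
  obtain ⟨-, -, hP1, hP2, -⟩ := h1
  refine ⟨?_, ?_⟩
  · intro c q hc hc' hq hqc
    refine (RAO_first c q hc hc' hq hqc).trans ?_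
    rcases le_total c (1 / 3) with h3 | h3
    · rw [hP1 c (by linarith) h3, sq]
      refine mul_le_mul_of_nonneg_left ?_ (by linarith)
      have h4 : 47 / 48 + 8 / 27 ≤ 47 / 48 + 8 / 3 * (c * (1 - 2 * c)) := by
        nlinarith [mul_nonneg (sub_nonneg.2 h3) (sub_nonneg.2 (show (1 : ℝ) / 6 ≤ c by linarith))]
      calc Real.exp (-(47 / 48 + 8 / 3 * (c * (1 - 2 * c)))) ≤ Real.exp (-(47 / 48 + 8 / 27)) :=
            Real.exp_le_exp.2 (by linarith)
        _ ≤ 3 / 10 := RAO_e2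
        _ ≤ c := hc
    · obtain ⟨h4, -, h5, -⟩ := hP2 c h3 hc'
      rw [h4]
      refine mul_le_mul_of_nonneg_left ?_ (by linarith)
      set r := Real.sqrt (c * (1 - 2 * c)) with hr
      have hr0 : 0 ≤ r := Real.sqrt_nonneg _
      have hr2 : r ^ 2 = c * (1 - 2 * c) := Real.sq_sqrt (mul_nonneg (by linarith) (by linarith))
      rw [← hr2]
      have h6 : Real.exp (-(47 / 48 + 8 / 3 * r ^ 2)) =
          Real.exp (-(47 / 48)) * Real.exp (-(8 / 3 * r ^ 2)) := by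
        rw [← Real.exp_add]; congr 1; ring
      rw [h6]
      have h7 := RAO_exp_neg (8 / 3 * r ^ 2) (by positivity)
      have h8 : Real.exp (-(47 / 48)) * Real.exp (-(8 / 3 * r ^ 2)) ≤
          0.37564 * (1 - 8 / 3 * r ^ 2 + (8 / 3 * r ^ 2) ^ 2 / 2) :=
        mul_le_mul RAO_e1 h7 (Real.exp_pos _).le (by norm_num)
      refine h8.trans ?_
      -- `y = 1 / 2 - c`, `r² = y - 2 y²`
      set y := 1 / 2 - c with hy
      have hcy : c = 1 / 2 - y := by rw [hy]; ring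
      have hy0 : 0 ≤ y := by rw [hy]; linarith
      have hry : r ^ 2 = y - 2 * y ^ 2 := by rw [hr2, hcy]; ring
      have hy1 : r ^ 2 ≤ y := by nlinarith [sq_nonneg y]
      have hy2 : r ^ 2 + 2 * r ^ 4 ≤ y := by
        have h9 : (r ^ 2) ^ 2 ≤ y ^ 2 := pow_le_pow_left₀ (sq_nonneg r) hy1 2
        nlinarith
      rw [hcy]
      have h10 : 0 ≤ (r ^ 2 - 0.0543) ^ 2 := sq_nonneg _
      nlinarith [sq_nonneg (r - 0.2411)]
  · intro c hc hc'
    rcases le_total c (1 / 3) with h3 | h3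
    · rw [hP1 c (by linarith) h3]
      set x := 13 / 18 * (c - 3 / 10) with hx
      have h4 : Real.exp (-(26 / 27 * 2 + 13 / 18 * (1 - c))) =
          Real.exp (-(52 / 27 + 91 / 180)) * Real.exp x := by
        rw [← Real.exp_add]; congr 1; rw [hx]; ring
      rw [h4]
      have hx0 : 0 ≤ x := by rw [hx]; linarith
      have hx1 : 1 - x ≤ Real.exp (-x) := by linarith [Real.add_one_le_exp (-x)]
      have h5 : Real.exp (-x) * Real.exp x = 1 := by rw [← Real.exp_add]; simp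
      have h6 : 0.0880 ≤ c ^ 2 * (1 - x) := by
        rw [hx]
        nlinarith [mul_nonneg (sub_nonneg.2 hc) (sub_nonneg.2 h3),
          mul_nonneg (mul_nonneg (sub_nonneg.2 hc) (sub_nonneg.2 h3)) (show (0 : ℝ) ≤ c by linarith)]
      calc Real.exp (-(52 / 27 + 91 / 180)) * Real.exp x ≤ 0.0880 * Real.exp x :=
            mul_le_mul_of_nonneg_right RAO_e4 (Real.exp_pos _).le
        _ ≤ (c ^ 2 * (1 - x)) * Real.exp x := mul_le_mul_of_nonneg_right h6 (Real.exp_pos _).le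
        _ ≤ (c ^ 2 * Real.exp (-x)) * Real.exp x := by
            refine mul_le_mul_of_nonneg_right ?_ (Real.exp_pos _).le
            exact mul_le_mul_of_nonneg_left hx1 (sq_nonneg c)
        _ = c ^ 2 * (Real.exp (-x) * Real.exp x) := by ring
        _ = c ^ 2 := by rw [h5, mul_one]
    · obtain ⟨-, h4, -, -⟩ := hP2 c h3 hc'
      refine le_trans ?_ h4
      refine le_trans (Real.exp_le_exp.2 ?_) RAO_e3
      linarith

end Pool.Agent.Work.MP_1ce445_lin
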