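import Pool.Agent.Work.MP_1ce445_lin.Interface2

/-! # Block RC -/

set_option autoImplicit false

namespace Pool.Agent.Work.MP_1ce445_lin

open Finset Pool.Agent.Work.MP_1ce445_co_56

/-- `h t = 2 D t - t²` is increasing on `[0, D]` -/
theorem RC_mono (D x y : ℝ) (hxy : x ≤ y) (hy : y ≤ D) :
    2 * D * x - x ^ 2 ≤ 2 * D * y - y ^ 2 := by
  nlinarith [mul_nonneg (sub_nonneg.mpr hxy) (by linarith : (0 : ℝ) ≤ 2 * D - x - y)]

theorem RC_sq (p s : ℝ) (h0 : 0 ≤ p) (h1 : p ≤ s) : (s - p) ^ 2 ≤ s ^ 2 - p ^ 2 := by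
  have h2 := mul_nonneg h0 (sub_nonneg.mpr h1)
  have e : s ^ 2 - p ^ 2 - (s - p) ^ 2 = 2 * (p * (s - p)) := by ring
  linarith

theorem RC_fin (c X Y K Z' s r k : ℝ) (hc0 : 0 ≤ c) (hc1 : c ≤ 1) (hk : 0 ≤ k) (hK0 : 0 ≤ K)
    (hK1 : K ≤ 1) (hZK : (1 - c - s) * K ≤ 1 - c - r) (h3 : Z' ≤ 1 - c - s + k)
    (h4 : X * Y ≤ c * Z') : X * Y * K ≤ c * (1 - c - r) + k := by
  have h5 : X * Y * K ≤ c * (1 - c - s + k) * K := by
    apply mul_le_mul_of_nonneg_right _ hK0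
    exact h4.trans (mul_le_mul_of_nonneg_left h3 hc0)
  have h7 : c * K ≤ 1 := by
    have := mul_le_mul hc1 hK1 hK0 zero_le_one
    linarith
  have h6 : c * K * k ≤ 1 * k := mul_le_mul_of_nonneg_right h7 hk
  have h8 : c * ((1 - c - s) * K) ≤ c * (1 - c - r) := mul_le_mul_of_nonneg_left hZK hc0
  have e : c * (1 - c - s + k) * K = c * ((1 - c - s) * K) + c * K * k := by ring
  linarith

theorem RC_main (h1 : Stmt_MAJ) (h2 : Stmt_STW) (c κ X Y G K : ℝ) (hc1 : 1 / 3 ≤ c)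
    (hc2 : c < 1 / 2) (hκ : 0 ≤ κ) (hX0 : 0 ≤ X) (hX : X ≤ c) (hY0 : 0 ≤ Y) (hY : Y ≤ c)
    (hXY : X ≤ Y) (hG : 0 ≤ G) (hK0 : 0 ≤ K) (hK1 : K ≤ 1 - min (Real.sqrt (2 * G)) (1 / 2))
    (hK2 : K ≤ Real.exp (-(G / (1 - c - X))))
    (h : 2 * (1 - c) * (X + Y) - X ^ 2 - Y ^ 2 ≤ (1 - c) + G + κ) :
    X * Y * K ≤ c * (1 - c - Real.sqrt (c * (1 - 2 * c))) + Real.sqrt κ := by
  have hnn : 0 ≤ c * (1 - 2 * c) := mul_nonneg (by linarith) (by linarith)
  obtain ⟨r, hr⟩ : ∃ r, r = Real.sqrt (c * (1 - 2 * c)) := ⟨_, rfl⟩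
  have hr0 : 0 ≤ r := hr ▸ Real.sqrt_nonneg _
  have hr2 : r ^ 2 = c * (1 - 2 * c) := by rw [hr]; exact Real.sq_sqrt hnn
  rw [← hr]
  have hcr : 1 - 2 * c ≤ r := by
    apply le_of_sq_le_sq _ hr0
    rw [hr2]; nlinarith
  have hrD : r ≤ (1 - c) / 2 := by
    apply le_of_sq_le_sq _ (by linarith)
    rw [hr2]; nlinarith [sq_nonneg (3 * c - 1)]
  have hKle1 : K ≤ 1 := by
    have : 0 ≤ min (Real.sqrt (2 * G)) (1 / 2) := le_min (Real.sqrt_nonneg _) (by norm_num)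
    linarith
  -- the number `g`
  obtain ⟨g, hg⟩ : ∃ g, g = max 0 (2 * (1 - c) * (X + Y) - X ^ 2 - Y ^ 2 - (1 - c) - κ) := ⟨_, rfl⟩
  have hg0 : 0 ≤ g := by rw [hg]; exact le_max_left _ _
  have hg1 : 2 * (1 - c) * (X + Y) - X ^ 2 - Y ^ 2 - (1 - c) - κ ≤ g := by
    rw [hg]; exact le_max_right _ _
  have hgG : g ≤ G := by rw [hg]; exact max_le hG (by linarith)
  have hXc := RC_mono (1 - c) X c hX (by linarith)
  have hYc := RC_mono (1 - c) Y c hY (by linarith)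
  have hgr : g ≤ r ^ 2 - (1 - 2 * c) ^ 2 := by
    rw [hg]
    apply max_le
    · have := mul_self_le_mul_self (by linarith : 0 ≤ 1 - 2 * c) hcr
      rw [← sq, ← sq] at this
      linarith
    · rw [hr2]; linarith
  -- the number `s = D - Z`
  have hs2' : 0 ≤ r ^ 2 - g := by
    have := sq_nonneg (1 - 2 * c)
    linarith
  obtain ⟨s, hs⟩ : ∃ s, s = Real.sqrt (r ^ 2 - g) := ⟨_, rfl⟩
  have hs0 : 0 ≤ s := hs ▸ Real.sqrt_nonneg _
  have hs2 : s ^ 2 = r ^ 2 - g := by rw [hs]; exact Real.sq_sqrt hs2'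
  have hsr : s ≤ r := by
    apply le_of_sq_le_sq _ hr0
    linarith
  have hs1 : 1 - 2 * c ≤ s := by
    apply le_of_sq_le_sq _ hs0
    linarith
  have hspos : 0 < s := by linarith
  have hδ : (r - s) * (2 * r - (r - s)) = g := by
    have : (r - s) * (2 * r - (r - s)) = r ^ 2 - s ^ 2 := by ring
    rw [this, hs2]; ring
  have hKa : K ≤ 1 - min (Real.sqrt (2 * ((r - s) * (2 * r - (r - s))))) (1 / 2) := by
    rw [hδ]
    have : min (Real.sqrt (2 * g)) (1 / 2) ≤ min (Real.sqrt (2 * G)) (1 / 2) :=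
      min_le_min (Real.sqrt_le_sqrt (by linarith)) le_rfl
    linarith
  have hKb : K ≤ Real.exp (-((r - s) * (2 * r - (r - s)) / (r - (r - s)))) := by
    rw [hδ, sub_sub_cancel]
    rcases hg0.eq_or_lt with h0 | hpos
    · rw [← h0]; simpa using hKle1
    · have hgeq : g = 2 * (1 - c) * (X + Y) - X ^ 2 - Y ^ 2 - (1 - c) - κ := by
        rcases le_total (2 * (1 - c) * (X + Y) - X ^ 2 - Y ^ 2 - (1 - c) - κ) 0 with h3 | h3
        · rw [max_eq_left h3] at hg; linarith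
        · rw [max_eq_right h3] at hg; exact hg
      have hXs : 1 - c - X ≤ s := by
        apply le_of_sq_le_sq _ hs0
        rw [hs2, hr2]
        linarith
      have hXp : 0 < 1 - c - X := by linarith
      refine hK2.trans (Real.exp_le_exp.mpr ?_)
      apply neg_le_neg
      exact div_le_div₀ hG hgG hXp hXs
  have hZK := h2 c r (r - s) K hc1 hc2 hr0 hr2 (by linarith) (by linarith) hK0 hKa hKb
  have hZK' : (1 - c - s) * K ≤ 1 - c - r := by
    have : 1 - c - r + (r - s) = 1 - c - s := by ring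
    rwa [this] at hZK
  have hκ' := Real.sqrt_nonneg κ
  have hp0 : 0 ≤ 1 - 2 * c := by linarith
  by_cases hκc : s ^ 2 - κ ≤ (1 - 2 * c) ^ 2
  · refine RC_fin c X Y K c s r _ (by linarith) (by linarith) hκ' hK0 hKle1 hZK' ?_ ?_
    · have h3 : s - (1 - 2 * c) ≤ Real.sqrt κ := by
        apply Real.le_sqrt_of_sq_le
        have := RC_sq (1 - 2 * c) s hp0 hs1
        linarith
      linarith
    · exact mul_le_mul hX hY hY0 (by linarith)
  · push Not at hκc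
    have hnn' : 0 ≤ s ^ 2 - κ := by
      have := sq_nonneg (1 - 2 * c)
      linarith
    obtain ⟨s', hs'⟩ : ∃ s', s' = Real.sqrt (s ^ 2 - κ) := ⟨_, rfl⟩
    have hs'0 : 0 ≤ s' := hs' ▸ Real.sqrt_nonneg _
    have hs'2 : s' ^ 2 = s ^ 2 - κ := by rw [hs']; exact Real.sq_sqrt hnn'
    have hs's : s' ≤ s := by
      apply le_of_sq_le_sq _ hs0
      linarith
    have hs'1 : 1 - 2 * c ≤ s' := by
      apply le_of_sq_le_sq _ hs'0
      linarith
    refine RC_fin c X Y K (1 - c - s') s r _ (by linarith) (by linarith) hκ' hK0 hKle1 hZK' ?_ ?_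
    · have h3 : s - s' ≤ Real.sqrt κ := by
        apply Real.le_sqrt_of_sq_le
        have := RC_sq s' s hs'0 hs's
        linarith
      linarith
    · apply h1 (1 - c) c X Y (1 - c - s') (by linarith) (by linarith) (by linarith) (by linarith)
        hX0 hX hY0 hY
      have e1 : 2 * (1 - c) * X - X ^ 2 + (2 * (1 - c) * Y - Y ^ 2) =
        2 * (1 - c) * (X + Y) - X ^ 2 - Y ^ 2 := by ring
      have e2 : 2 * (1 - c) * c - c ^ 2 + (2 * (1 - c) * (1 - c - s') - (1 - c - s') ^ 2) =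
        1 - c + c * (1 - 2 * c) - s' ^ 2 := by ring
      rw [e1, e2]
      linarith

theorem stmt_RC (h1 : Stmt_MAJ) (h2 : Stmt_STW) : Stmt_RC := by
  intro c κ X Y G K hc1 hc2 hκ hX0 hX hY0 hY hG hK0 hK1 hK2 h
  rcases le_total X Y with hXY | hXY
  · rw [min_eq_left hXY] at hK2
    exact RC_main h1 h2 c κ X Y G K hc1 hc2 hκ hX0 hX hY0 hY hXY hG hK0 hK1 hK2 h
  · rw [min_eq_right hXY] at hK2
    rw [mul_comm X Y]
    exact RC_main h1 h2 c κ Y X G K hc1 hc2 hκ hY0 hY hX0 hX hXY hG hK0 hK1 hK2 (by linarith)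

end Pool.Agent.Work.MP_1ce445_lin
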