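import Pool.Agent.Work.MP_1ce445_lin.Interface2

set_option autoImplicit false

namespace Pool.Agent.Work.MP_1ce445_lin

open Finset Pool.Agent.Work.MP_1ce445_co_56

/-- half of the difference of the two ends of the edge number `e` -/
def SEQ_x (t e : ℕ) : ℤ := if (e / t) % 2 = 0 then ((e % t : ℕ) : ℤ) + 1 else (t : ℤ) - ((e % t : ℕ) : ℤ)

/-- integer representative of an end of the edge number `e` -/
def SEQ_w (t e : ℕ) (b : Bool) : ℤ := ((e / t : ℕ) : ℤ) * ((t : ℤ) + 1) + (if b then SEQ_x t e else -SEQ_x t e)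

/-- the ends of the edge number `e` -/
def SEQ_v (t e : ℕ) (b : Bool) : ZMod (2 * t + 1) := ((SEQ_w t e b : ℤ) : ZMod (2 * t + 1))

lemma SEQ_x_bd {t : ℕ} (ht : 0 < t) (e : ℕ) : 1 ≤ SEQ_x t e ∧ SEQ_x t e ≤ t := by
  have h := Nat.mod_lt e ht
  unfold SEQ_x
  split_ifs <;> constructor <;> omega

lemma SEQ_dvd {t e e' : ℕ} {b b' : Bool} (h : SEQ_v t e b = SEQ_v t e' b') :
    (2 * (t : ℤ) + 1) ∣ SEQ_w t e' b' - SEQ_w t e b := by
  have h1 := (ZMod.intCast_eq_intCast_iff_dvd_sub (SEQ_w t e b) (SEQ_w t e' b') (2 * t + 1)).1 h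
  push_cast at h1
  exact h1

lemma SEQ_zero {t : ℕ} {z : ℤ} (h : (2 * (t : ℤ) + 1) ∣ z) (h1 : -(2 * (t : ℤ)) ≤ z) (h2 : z ≤ 2 * t) : z = 0 := by
  refine Int.eq_zero_of_abs_lt_dvd h ?_
  rw [abs_lt]
  constructor <;> linarith

/-- the same window, the same quotient -/
lemma SEQ_same {t e e' : ℕ} {b b' : Bool} (ht : 0 < t) (hl : e / t = e' / t) (h : SEQ_v t e b = SEQ_v t e' b') :
    e = e' ∧ b = b' := by
  have hd := SEQ_dvd h
  obtain ⟨x1, x2⟩ := SEQ_x_bd ht e
  obtain ⟨y1, y2⟩ := SEQ_x_bd ht e'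
  have hx : SEQ_x t e = SEQ_x t e' ∧ b = b' := by
    unfold SEQ_w at hd
    rw [hl] at hd
    cases b <;> cases b' <;> simp only [if_true, if_false, Bool.false_eq_true, add_sub_add_left_eq_sub] at hd
    · have := SEQ_zero hd (by linarith) (by linarith)
      exact ⟨by linarith, rfl⟩
    · have := SEQ_zero hd (by linarith) (by linarith)
      linarith
    · have := SEQ_zero hd (by linarith) (by linarith)
      linarith
    · have := SEQ_zero hd (by linarith) (by linarith)
      exact ⟨by linarith, rfl⟩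
  refine ⟨?_, hx.2⟩
  have hs : e % t = e' % t := by
    have h1 := hx.1
    unfold SEQ_x at h1
    rw [hl] at h1
    split_ifs at h1 <;> omega
  have k1 := Nat.div_add_mod e t
  have k2 := Nat.div_add_mod e' t
  rw [← k1, ← k2, hl, hs]

lemma SEQ_edge {t e e' : ℕ} {b b' : Bool} (ht : 0 < t) (he : e < t * (2 * t + 1)) (he' : e' < t * (2 * t + 1))
    (h : SEQ_v t e b = SEQ_v t e' b') (h' : SEQ_v t e (!b) = SEQ_v t e' (!b')) : e = e' := by
  have hl : e / t < 2 * t + 1 := Nat.div_lt_of_lt_mul he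
  have hl' : e' / t < 2 * t + 1 := Nat.div_lt_of_lt_mul he'
  have hd := SEQ_dvd h
  have hd' := SEQ_dvd h'
  have hsum := dvd_add hd hd'
  have e1 : SEQ_w t e' b' - SEQ_w t e b + (SEQ_w t e' (!b') - SEQ_w t e (!b)) =
      (((e' / t : ℕ) : ℤ) - ((e / t : ℕ) : ℤ)) + (2 * (t : ℤ) + 1) * (((e' / t : ℕ) : ℤ) - ((e / t : ℕ) : ℤ)) := by
    unfold SEQ_w
    cases b <;> cases b' <;> simp only [if_true, if_false, Bool.false_eq_true, Bool.not_true, Bool.not_false] <;> ring
  rw [e1] at hsum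
  have h2 : (2 * (t : ℤ) + 1) ∣ ((e' / t : ℕ) : ℤ) - ((e / t : ℕ) : ℤ) :=
    (dvd_add_left (dvd_mul_right _ _)).1 hsum
  have c1 : ((e / t : ℕ) : ℤ) ≤ 2 * (t : ℤ) := by
    have h9 := Nat.lt_succ_iff.1 hl
    exact_mod_cast h9
  have c2 : ((e' / t : ℕ) : ℤ) ≤ 2 * (t : ℤ) := by
    have h9 := Nat.lt_succ_iff.1 hl'
    exact_mod_cast h9
  have c3 : (0 : ℤ) ≤ ((e / t : ℕ) : ℤ) := Int.natCast_nonneg _
  have c4 : (0 : ℤ) ≤ ((e' / t : ℕ) : ℤ) := Int.natCast_nonneg _
  have h3 := SEQ_zero h2 (by linarith) (by linarith)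
  have h4 : e / t = e' / t := by
    have h5 : ((e / t : ℕ) : ℤ) = ((e' / t : ℕ) : ℤ) := by linarith
    exact_mod_cast h5
  exact (SEQ_same ht h4 h).1

lemma SEQ_near {t m e e' : ℕ} {b b' : Bool} (hm : m + 1 ≤ t) (h1 : e < e') (h2 : e' < e + m)
    (h : SEQ_v t e b = SEQ_v t e' b') : False := by
  have ht : 0 < t := by omega
  by_cases hl : e / t = e' / t
  · have := (SEQ_same ht hl h).1
    omega
  · have hle : e / t ≤ e' / t := Nat.div_le_div_right h1.le
    have hle' : e' / t ≤ e / t + 1 := by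
      have h3 : e' ≤ e + t := by omega
      have h4 := Nat.div_le_div_right (c := t) h3
      rwa [Nat.add_div_right e ht] at h4
    have hl1 : e' / t = e / t + 1 := by omega
    have hd := SEQ_dvd h
    obtain ⟨x1, x2⟩ := SEQ_x_bd ht e
    obtain ⟨y1, y2⟩ := SEQ_x_bd ht e'
    have k1 := Nat.div_add_mod e t
    have k2 := Nat.div_add_mod e' t
    have m1 := Nat.mod_lt e ht
    have m2 := Nat.mod_lt e' ht
    have key : SEQ_x t e + SEQ_x t e' = t ∨ SEQ_x t e + SEQ_x t e' = t + 1 := by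
      unfold SEQ_w at hd
      rw [hl1] at hd
      push_cast at hd
      cases b <;> cases b' <;> simp only [if_true, if_false, Bool.false_eq_true] at hd
      · exfalso
        have e1 : ((e : ℤ) / t + 1) * ((t : ℤ) + 1) + -SEQ_x t e' - ((e : ℤ) / t * ((t : ℤ) + 1) + -SEQ_x t e) =
          (t : ℤ) + 1 - SEQ_x t e' + SEQ_x t e := by ring
        rw [e1] at hd
        have := SEQ_zero hd (by linarith) (by linarith)
        linarith
      · left
        have e1 : ((e : ℤ) / t + 1) * ((t : ℤ) + 1) + SEQ_x t e' - ((e : ℤ) / t * ((t : ℤ) + 1) + -SEQ_x t e) =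
          (SEQ_x t e' + SEQ_x t e - t) + (2 * (t : ℤ) + 1) := by ring
        rw [e1] at hd
        have hd2 : (2 * (t : ℤ) + 1) ∣ SEQ_x t e' + SEQ_x t e - t := (dvd_add_left (dvd_refl _)).1 hd
        have := SEQ_zero hd2 (by linarith) (by linarith)
        linarith
      · right
        have e1 : ((e : ℤ) / t + 1) * ((t : ℤ) + 1) + -SEQ_x t e' - ((e : ℤ) / t * ((t : ℤ) + 1) + SEQ_x t e) =
          (t : ℤ) + 1 - SEQ_x t e' - SEQ_x t e := by ring
        rw [e1] at hd
        have := SEQ_zero hd (by linarith) (by linarith)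
        linarith
      · exfalso
        have e1 : ((e : ℤ) / t + 1) * ((t : ℤ) + 1) + SEQ_x t e' - ((e : ℤ) / t * ((t : ℤ) + 1) + SEQ_x t e) =
          (t : ℤ) + 1 + SEQ_x t e' - SEQ_x t e := by ring
        rw [e1] at hd
        have := SEQ_zero hd (by linarith) (by linarith)
        linarith
    rw [hl1, Nat.mul_add, Nat.mul_one] at k2
    unfold SEQ_x at key
    rw [hl1] at key
    rcases Nat.even_or_odd (e / t) with hp | hp
    · have p1 : (e / t) % 2 = 0 := Nat.even_iff.1 hp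
      have p2 : (e / t + 1) % 2 ≠ 0 := by omega
      rw [if_pos p1, if_neg p2] at key
      omega
    · have p1 : (e / t) % 2 ≠ 0 := by rw [Nat.odd_iff.1 hp]; norm_num
      have p2 : (e / t + 1) % 2 = 0 := by omega
      rw [if_neg p1, if_pos p2] at key
      omega

/-- exchange of the two ends -/
def SEQ_s (m : ℕ) : Equiv.Perm (Fin m × Bool) :=
  Function.Involutive.toPerm (fun p => (p.1, !p.2)) (fun p => by simp)

lemma SEQ_s_apply (m : ℕ) (p : Fin m × Bool) : SEQ_s m p = (p.1, !p.2) := rfl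

theorem stmt_SEQ : Stmt_SEQ := by
  intro t m k hm hk
  have ht : 0 < t := by omega
  have hlt : ∀ (i : Fin k) (j : Fin m), (i : ℕ) * m + j < t * (2 * t + 1) := by
    intro i j
    have h1 : ((i : ℕ) + 1) * m ≤ k * m := Nat.mul_le_mul_right m i.2
    have h2 := j.2
    rw [Nat.add_mul, Nat.one_mul] at h1
    omega
  let E : ZMod (2 * t + 1) ≃ Fin (2 * t + 1) := Fintype.equivFinOfCardEq (ZMod.card (2 * t + 1))
  let g : Fin k → (Fin m × Bool) ↪ Fin (2 * t + 1) := fun i =>
    ⟨fun p => E (SEQ_v t ((i : ℕ) * m + p.1) p.2), by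
      intro p p' hpp
      have h := E.injective hpp
      have hj : (p.1 : ℕ) = p'.1 := by
        have h1 := p.1.2
        have h2 := p'.1.2
        rcases lt_trichotomy (p.1 : ℕ) p'.1 with hlt' | heq | hgt
        · exact (SEQ_near (m := m) hm (by omega) (by omega) h).elim
        · exact heq
        · exact (SEQ_near (m := m) hm (by omega) (by omega) h.symm).elim
      have hb := (SEQ_same ht (by rw [hj]) h).2
      exact Prod.ext (Fin.ext hj) hb⟩
  have hg : ∀ i p, g i p = E (SEQ_v t ((i : ℕ) * m + p.1) p.2) := fun i p => rfl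
  have hsw : ∀ i p, (SEQ_s m).viaEmbedding (g i) (g i p) = g i (p.1, !p.2) := by
    intro i p
    rw [Equiv.Perm.viaEmbedding_apply, SEQ_s_apply]
  have hne : ∀ i p, g i (p.1, !p.2) ≠ g i p := by
    intro i p h
    have h1 := congrArg Prod.snd ((g i).injective h)
    revert h1
    cases p.2 <;> simp
  refine ⟨fun i => (SEQ_s m).viaEmbedding (g i), ?_, ?_, ?_⟩
  · intro i u
    by_cases hu : u ∈ Set.range (g i)
    · obtain ⟨p, rfl⟩ := hu
      show (SEQ_s m).viaEmbedding (g i) ((SEQ_s m).viaEmbedding (g i) (g i p)) = g i p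
      rw [hsw, hsw]
      simp
    · show (SEQ_s m).viaEmbedding (g i) ((SEQ_s m).viaEmbedding (g i) u) = u
      rw [Equiv.Perm.viaEmbedding_apply_of_notMem _ _ _ hu, Equiv.Perm.viaEmbedding_apply_of_notMem _ _ _ hu]
  · intro i
    have hset : (univ.filter (fun u => (SEQ_s m).viaEmbedding (g i) u ≠ u)) = univ.map (g i) := by
      ext u
      simp only [mem_filter, mem_univ, true_and, mem_map]
      constructor
      · intro h
        by_contra hcon
        exact h (Equiv.Perm.viaEmbedding_apply_of_notMem _ _ _ hcon)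
      · rintro ⟨p, rfl⟩
        rw [hsw]
        exact hne i p
    show (univ.filter (fun u => (SEQ_s m).viaEmbedding (g i) u ≠ u)).card = 2 * m
    rw [hset, card_map, card_univ, Fintype.card_prod, Fintype.card_fin, Fintype.card_bool, mul_comm]
  · intro i i' u hii hfu
    change (SEQ_s m).viaEmbedding (g i) u = (SEQ_s m).viaEmbedding (g i') u at hfu
    show (SEQ_s m).viaEmbedding (g i) u = u
    by_contra hcon
    have h1 : u ∈ Set.range (g i) := by
      by_contra h
      exact hcon (Equiv.Perm.viaEmbedding_apply_of_notMem _ _ _ h)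
    have h2 : u ∈ Set.range (g i') := by
      by_contra h
      rw [Equiv.Perm.viaEmbedding_apply_of_notMem _ _ _ h] at hfu
      exact hcon hfu
    obtain ⟨p, hp⟩ := h1
    obtain ⟨p', hp'⟩ := h2
    have h3 : g i (p.1, !p.2) = g i' (p'.1, !p'.2) := by
      rw [← hsw, ← hsw, hp, hp']
      exact hfu
    have h4 : g i p = g i' p' := hp.trans hp'.symm
    have h5 := E.injective h3
    have h6 := E.injective h4
    have h7 := SEQ_edge ht (hlt i p.1) (hlt i' p'.1) h6 h5
    apply hii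
    have q1 := p.1.2
    have q2 := p'.1.2
    have hm0 : 0 < m := by omega
    have d1 : ((i : ℕ) * m + p.1) / m = i := by
      rw [Nat.add_comm, Nat.add_mul_div_right _ _ hm0, Nat.div_eq_of_lt q1, Nat.zero_add]
    have d2 : ((i' : ℕ) * m + p'.1) / m = i' := by
      rw [Nat.add_comm, Nat.add_mul_div_right _ _ hm0, Nat.div_eq_of_lt q2, Nat.zero_add]
    exact Fin.ext (by rw [← d1, ← d2, h7])

end Pool.Agent.Work.MP_1ce445_lin
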