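import Pool.Agent.Work.MP_1ce445_lin.Interface2

/-!
# Block STW (a real inequality), typed by helper92
-/

namespace Pool.Agent.Work.MP_1ce445_lin

open Finset Pool.Agent.Work.MP_1ce445_co_56

theorem STW_log (x : ℝ) (hx : 1 ≤ x) : Real.log x ≤ (x - x⁻¹) / 2 := by
  have h0 : 0 < x := by linarith
  have h1 : Real.log x ≤ Real.sinh (Real.log x) := Real.self_le_sinh_iff.mpr (Real.log_nonneg hx)
  rw [Real.sinh_eq, Real.exp_neg, Real.exp_log h0] at h1
  exact h1

theorem stmt_STW (h1 : Stmt_POL) : Stmt_STW := by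
  intro c r δ K hc1 hc2 hr0 hr2 hδ0 hδ1 hK0 hK1 hK2
  obtain ⟨y, rfl⟩ : ∃ y, c = 1 / 2 - y := ⟨1 / 2 - c, by ring⟩
  have hy0 : 0 < y := by linarith
  have hy1 : y ≤ 1 / 6 := by linarith
  have hr2' : r ^ 2 = y - 2 * y ^ 2 := by rw [hr2]; ring
  have hr1 : r ≤ 1 / 3 := by nlinarith
  have hrpos : 0 < r := by
    rcases hr0.lt_or_eq with h | h
    · exact h
    · exfalso
      rw [← h] at hr2'
      nlinarith
  have hδy : δ ≤ r - 2 * y := by linarith
  have hryy : r ^ 2 ≤ y := by nlinarith
  obtain ⟨θ, hθ⟩ : ∃ θ, δ = θ * r := ⟨δ / r, by field_simp⟩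
  have hθ0 : 0 ≤ θ := by
    by_contra h
    push Not at h
    nlinarith
  have hθ1 : θ ≤ 1 - 2 * r := by
    have h2 : θ * r ≤ (1 - 2 * r) * r := by nlinarith
    exact le_of_mul_le_mul_right h2 hrpos
  obtain ⟨a, ha⟩ : ∃ a, a = 1 / 2 + y - r := ⟨_, rfl⟩
  have hapos : 0 < a := by linarith
  have hrd : 0 < r - δ := by linarith
  have hgoal : (a + δ) * K ≤ a := by
    rcases h1 r θ a hr0 hr1 hθ0 hθ1 (by linarith) with hI | hII
    · have hI' : δ ≤ 2 * (2 * r - δ) * (a + δ) ^ 2 := by
        have := mul_nonneg hI hr0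
        rw [hθ]
        nlinarith
      have hg0 : 0 ≤ δ * (2 * r - δ) := mul_nonneg hδ0 (by linarith)
      have hg1 : 2 * (δ * (2 * r - δ)) ≤ 1 / 4 := by nlinarith
      have hs : Real.sqrt (2 * (δ * (2 * r - δ))) ≤ 1 / 2 := by
        rw [Real.sqrt_le_left (by norm_num)]
        linarith
      rw [min_eq_left hs] at hK1
      set s := Real.sqrt (2 * (δ * (2 * r - δ))) with hsdef
      have hs0 : 0 ≤ s := Real.sqrt_nonneg _
      have hs2 : s ^ 2 = 2 * (δ * (2 * r - δ)) := Real.sq_sqrt (by linarith)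
      have hZ : 0 < a + δ := by linarith
      have h3 : δ ≤ s * (a + δ) := by
        by_contra h
        push Not at h
        have h4 : (s * (a + δ)) ^ 2 < δ ^ 2 := by
          apply pow_lt_pow_left₀ h (by positivity) (by norm_num)
        have h5 : δ ^ 2 ≤ (s * (a + δ)) ^ 2 := by
          rw [mul_pow, hs2]
          have := mul_le_mul_of_nonneg_left hI' hδ0
          nlinarith
        linarith
      nlinarith
    · have hII' : (r - δ) * (2 * a + δ) ≤ 2 * (2 * r - δ) * a * (a + δ) := by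
        have := mul_nonneg hII hr0
        rw [hθ]
        nlinarith
      have hZ : 0 < a + δ := by linarith
      have h3 : Real.log ((a + δ) / a) ≤ δ * (2 * r - δ) / (r - δ) := by
        refine (STW_log _ ?_).trans ?_
        · rw [le_div_iff₀ hapos]
          linarith
        · rw [inv_div, div_sub_div _ _ hapos.ne' hZ.ne', div_div, div_le_div_iff₀ (by positivity) hrd]
          have := mul_le_mul_of_nonneg_left hII' hδ0
          nlinarith
      have h4 : K ≤ a / (a + δ) := by
        refine hK2.trans ?_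
        have h5 : Real.exp (-(δ * (2 * r - δ) / (r - δ))) ≤ Real.exp (-Real.log ((a + δ) / a)) :=
          Real.exp_le_exp.mpr (by linarith)
        refine h5.trans (le_of_eq ?_)
        rw [Real.exp_neg, Real.exp_log (by positivity), inv_div]
      rw [le_div_iff₀ hZ] at h4
      linarith
  have h5 : 1 - (1 / 2 - y) - r = a := by rw [ha]; ring
  rw [h5]
  exact hgoal

end Pool.Agent.Work.MP_1ce445_lin
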