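import Pool.Agent.Work.MP_1ce445_lin.Interface2

/-!
# MP_1ce445_co, THEOREM LR2, block TAN: third order bound for the logarithm
-/

namespace Pool.Agent.Work.MP_1ce445_lin

open Finset Pool.Agent.Work.MP_1ce445_co_56

theorem TAN_third {p : ℝ} (h0 : 0 ≤ p) (h1 : p < 1) :
    Real.log (1 - p) ≤ -(p + p ^ 2 / 2 + p ^ 3 / 3) := by
  have hs := Real.hasSum_pow_div_log_of_abs_lt_one (x := p) (by rw [abs_of_nonneg h0]; exact h1)
  have h := hs.summable.sum_le_tsum (Finset.range 3)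
    (fun i _ => by positivity)
  rw [hs.tsum_eq] at h
  simp only [Finset.sum_range_succ, Finset.sum_range_zero] at h
  norm_num at h
  linarith

theorem TAN_exp {p x : ℝ} (h0 : 0 ≤ p) (h1 : p ≤ 1) (hx : x ≤ p + p ^ 2 / 2 + p ^ 3 / 3) :
    1 - p ≤ Real.exp (-x) := by
  rcases h1.lt_or_eq with h | h
  · have h2 := TAN_third h0 h
    have h3 : Real.log (1 - p) ≤ -x := by linarith
    have h4 : 0 < 1 - p := by linarith
    calc 1 - p = Real.exp (Real.log (1 - p)) := (Real.exp_log h4).symm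
      _ ≤ Real.exp (-x) := Real.exp_le_exp.2 h3
  · rw [h, sub_self]
    exact (Real.exp_pos _).le

theorem stmt_TAN : Stmt_TAN := by
  intro p h0 h1
  refine ⟨TAN_exp h0 h1 ?_, TAN_exp h0 h1 ?_⟩
  · have h2 : 0 ≤ p * (p - 1 / 4) ^ 2 := by positivity
    nlinarith
  · have h2 : 0 ≤ p * (p - 1 / 3) ^ 2 := by positivity
    nlinarith

end Pool.Agent.Work.MP_1ce445_lin
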