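import Pool.Agent.Work.MP_1ce445_lin.Interface

/-!
Block UP of THEOREM LR: the upper bound, from the inequality for set systems (INC) and the
structure of a factorization with a large product (CORE).
-/

namespace Pool.Agent.Work.MP_1ce445_lin

open Finset Pool.Agent.Work.MP_1ce445_co_56

lemma UP_small {f : ℝ → ℝ} (hf : Continuous f) {c : ℝ} (h : f 0 < c) :
    ∃ δ : ℝ, 0 < δ ∧ ∀ x, 0 ≤ x → x ≤ δ → f x < c := by
  have h1 : {x | f x < c} ∈ nhds (0 : ℝ) := (isOpen_lt hf continuous_const).mem_nhds h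
  obtain ⟨δ, hδ, hb⟩ := Metric.mem_nhds_iff.1 h1
  refine ⟨δ / 2, by positivity, fun x h0 hx => ?_⟩
  have h2 : x ∈ Metric.ball (0 : ℝ) δ := by
    rw [Metric.mem_ball, Real.dist_eq, sub_zero, abs_of_nonneg h0]
    linarith
  exact hb h2

/-- `e^{-4} ≤ (1 - 1/m)^m` -/
lemma UP_exp (m : ℕ) (hm : 2 ≤ m) : Real.exp (-4) ≤ (1 - 1 / (m : ℝ)) ^ m := by
  have hm' : (2 : ℝ) ≤ m := by exact_mod_cast hm
  have hm0 : (0 : ℝ) < m := by linarith
  have h1 : Real.exp (-(2 / (m : ℝ))) ≤ 1 - 1 / (m : ℝ) := by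
    have h3 := Real.add_one_le_exp (2 / (m : ℝ))
    have h4 : 1 ≤ (1 - 1 / (m : ℝ)) * (2 / (m : ℝ) + 1) := by
      have h5 : (1 - 1 / (m : ℝ)) * (2 / (m : ℝ) + 1) = 1 + (m - 2) / (m : ℝ) ^ 2 := by
        field_simp
        ring
      rw [h5]
      have h6 : 0 ≤ ((m : ℝ) - 2) / (m : ℝ) ^ 2 := div_nonneg (by linarith) (by positivity)
      linarith
    have h5 : 0 ≤ 1 - 1 / (m : ℝ) := by
      have : 1 / (m : ℝ) ≤ 1 := by
        rw [div_le_one hm0]
        linarith
      linarith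
    have h6 : 1 ≤ (1 - 1 / (m : ℝ)) * Real.exp (2 / (m : ℝ)) :=
      h4.trans (mul_le_mul_of_nonneg_left h3 h5)
    rw [Real.exp_neg]
    have h7 := Real.exp_pos (2 / (m : ℝ))
    rw [inv_le_iff_one_le_mul₀ h7]
    exact h6
  calc Real.exp (-4) ≤ Real.exp (m * (-(2 / (m : ℝ)))) := by
        apply Real.exp_le_exp.2
        have : (m : ℝ) * (-(2 / (m : ℝ))) = -2 := by
          field_simp
        rw [this]
        norm_num
    _ = Real.exp (-(2 / (m : ℝ))) ^ m := by rw [Real.exp_nat_mul]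
    _ ≤ (1 - 1 / (m : ℝ)) ^ m := pow_le_pow_left₀ (Real.exp_pos _).le h1 m

lemma UP_NN (n : ℕ) (hn : 2 ≤ n) : (n : ℝ) ≤ (1 + 2 / n) * NN n := by
  have h1 : n ≤ NN n + 1 := by
    unfold NN
    omega
  have h2 : (n : ℝ) - 1 ≤ NN n := by
    have : (n : ℝ) ≤ NN n + 1 := by exact_mod_cast h1
    linarith
  have hn' : (2 : ℝ) ≤ n := by exact_mod_cast hn
  have hn0 : (0 : ℝ) < n := by linarith
  have h3 : (1 + 2 / (n : ℝ)) * ((n : ℝ) - 1) = n + (n - 2) / n := by
    field_simp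
    ring
  have h4 : 0 ≤ ((n : ℝ) - 2) / n := div_nonneg (by linarith) hn0.le
  calc (n : ℝ) ≤ (1 + 2 / (n : ℝ)) * ((n : ℝ) - 1) := by rw [h3]; linarith
    _ ≤ (1 + 2 / n) * NN n := mul_le_mul_of_nonneg_left h2 (by positivity)

theorem stmt_UP (h1 : Stmt_INC) (h2 : Stmt_CORE) : Stmt_UP := by
  intro m ε hm hε
  have hm' : (2 : ℝ) ≤ m := by exact_mod_cast hm
  have hm0 : (0 : ℝ) < m := by linarith
  obtain ⟨δs, hδs, hfs⟩ := UP_small
    (f := fun s : ℝ => Real.exp (2 * s) * (1 + 2 * s) ^ (m + 1)) (by fun_prop)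
    (c := 1 + ε / 4) (by
      simp only [mul_zero, Real.exp_zero, add_zero, one_pow, mul_one]
      linarith)
  set s : ℝ := min (min δs 1) (1 / (4 * ((m : ℝ) + 1))) with hs
  have hs0 : 0 < s := by
    rw [hs]
    positivity
  have hs1 : s ≤ 1 := (min_le_left _ _).trans (min_le_right _ _)
  have hsδ : s ≤ δs := (min_le_left _ _).trans (min_le_left _ _)
  have hsm : s ≤ 1 / (4 * ((m : ℝ) + 1)) := min_le_right _ _
  have hF : Real.exp (2 * s) * (1 + 2 * s) ^ (m + 1) < 1 + ε / 4 := hfs s hs0.le hsδ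
  clear_value s
  set τ : ℝ := s ^ 2 / 30 with hτ
  have hτ0 : 0 < τ := by positivity
  have hτs : τ ≤ s := by
    rw [hτ]
    nlinarith
  have hτ1 : τ ≤ 1 := hτs.trans hs1
  obtain ⟨K, hK⟩ := exists_nat_ge (5 / τ)
  set e1 : ℝ := min (ε / 4) (1 / 4) with he1
  have he0 : 0 < e1 := by positivity
  have he4 : e1 ≤ ε / 4 := min_le_left _ _
  have he5 : e1 ≤ 1 / 4 := min_le_right _ _
  clear_value e1
  obtain ⟨t, ht0, hft⟩ := UP_small (f := fun t : ℝ => (1 + t) ^ K) (by fun_prop)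
    (c := 1 + e1) (by
      simp only [add_zero, one_pow]
      linarith)
  obtain ⟨R, hR⟩ : ∃ R : ℕ, (1 - τ ^ 2) ^ R < t / 2 := by
    apply exists_pow_lt_of_lt_one (by positivity)
    have : 0 < τ ^ 2 := by positivity
    linarith
  obtain ⟨N1, hN1⟩ := exists_nat_gt (2 * R / t)
  obtain ⟨N2, hN2⟩ := exists_nat_gt (1 / τ)
  obtain ⟨N3, hN3⟩ := exists_nat_gt (2 / t)
  refine ⟨N1 + N2 + N3 + 4 * (m + 1), fun n k hn hk => ?_⟩
  have hnR : ((N1 : ℝ) + N2 + N3 + 4 * (m + 1)) ≤ n := by exact_mod_cast hn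
  have hN1' : (0 : ℝ) ≤ N1 := Nat.cast_nonneg _
  have hN2' : (0 : ℝ) ≤ N2 := Nat.cast_nonneg _
  have hN3' : (0 : ℝ) ≤ N3 := Nat.cast_nonneg _
  have hn4 : 4 * ((m : ℝ) + 1) ≤ n := by linarith
  have hnpos : (0 : ℝ) < n := by linarith
  have hn2 : 2 ≤ n := by omega
  have hn0 : 0 < n := by omega
  have hτn : 1 ≤ τ * n := by
    have h3 : 1 / τ < n := by linarith
    rw [div_lt_iff₀ hτ0] at h3
    linarith
  have hRn : (R : ℝ) / n ≤ t / 2 := by
    have h3 : 2 * R / t < n := by linarith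
    rw [div_lt_iff₀ ht0] at h3
    rw [div_le_iff₀ hnpos]
    linarith
  have hwt : 2 / (n : ℝ) ≤ t := by
    have h3 : 2 / t < n := by linarith
    rw [div_lt_iff₀ ht0] at h3
    rw [div_le_iff₀ hnpos]
    linarith
  have hw0 : 0 ≤ 2 / (n : ℝ) := by positivity
  have hns : 1 / (n : ℝ) ≤ s := by
    rw [div_le_iff₀ hnpos]
    exact hτn.trans (mul_le_mul_of_nonneg_right hτs hnpos.le)
  have hn1m : 1 / (n : ℝ) ≤ 1 / (4 * ((m : ℝ) + 1)) := one_div_le_one_div_of_le (by positivity) hn4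
  have hm1 : 1 / (4 * ((m : ℝ) + 1)) = (1 / ((m : ℝ) + 1)) / 4 := by
    field_simp
  have hm2 : 0 < 1 / ((m : ℝ) + 1) := by positivity
  have hkn' : (k : ℝ) / n ≤ 1 - 1 / ((m : ℝ) + 1) := by
    rw [div_le_iff₀ hnpos]
    exact hk
  have hk0 : 0 ≤ (k : ℝ) / n := by positivity
  have hk1 : (k : ℝ) / n ≤ 1 := by linarith
  have hkn : k ≤ n := by
    rw [div_le_one hnpos] at hk1
    exact_mod_cast hk1
  set α : ℝ := (1 - 1 / (m : ℝ)) ^ m with hα
  set A : ℝ := max α (((k : ℝ) / n) ^ (m + 1)) with hA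
  have hmi : 0 ≤ 1 - 1 / (m : ℝ) ∧ 1 - 1 / (m : ℝ) ≤ 1 := by
    have h3 : 1 / (m : ℝ) ≤ 1 := by
      rw [div_le_one hm0]
      linarith
    have h4 : 0 ≤ 1 / (m : ℝ) := by positivity
    constructor <;> linarith
  have hα0 : 0 ≤ α := pow_nonneg hmi.1 _
  have hα1 : α ≤ 1 := pow_le_one₀ hmi.1 hmi.2
  have hA0 : 0 ≤ A := hα0.trans (le_max_left _ _)
  have hA1 : A ≤ 1 := max_le hα1 (pow_le_one₀ hk0 hk1)
  rcases P_attained n k with h0 | ⟨G, hG, hP⟩
  · rw [h0]
    simp only [Nat.cast_zero]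
    positivity
  rw [hP]
  push_cast
  rcases h2 n k R G s t hG hs0 hs1 hτn hkn (by linarith) with h3 | ⟨M, T, Vg, hM, hT, hVg, hnb, hγ, hγN⟩
  · refine h3.trans ?_
    apply mul_le_mul_of_nonneg_right _ (by positivity)
    have h4 := UP_exp m hm
    have h5 : α ≤ A := le_max_left _ _
    linarith
  · -- the main case
    set D : ℝ := ((n : ℝ) - 1 - k) / n - s with hD
    have hDeq : D = 1 - 1 / (n : ℝ) - (k : ℝ) / n - s := by
      rw [hD]
      field_simp
    have hD0 : 0 < D := by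
      rw [hDeq]
      linarith
    have hD1 : D ≤ 1 := by
      have : 0 ≤ 1 / (n : ℝ) := by positivity
      rw [hDeq]
      linarith
    have hDn : D * n = (n : ℝ) - 1 - k - s * n := by
      rw [hD]
      field_simp
    have hinc := h1 n k m M T s D Vg hn0 hm hT hs0.le hs1 hD0 hD1 hVg (fun v hv => by
      rw [hDn]
      exact hnb v hv)
    set p : Fin k → ℝ := fun j => ((univ.filter (fun v => j ∈ T v)).card : ℝ) / n with hp
    have hp0 : ∀ j, 0 ≤ p j := fun j => by
      simp only [hp]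
      positivity
    have hp1 : ∀ j, p j ≤ 1 := fun j => by
      simp only [hp]
      rw [div_le_one hnpos]
      have h3 : (univ.filter (fun v => j ∈ T v)).card ≤ n := by
        have h4 := card_filter_le (univ : Finset (Fin n)) (fun v => j ∈ T v)
        simpa using h4
      exact_mod_cast h3
    -- bound for (1-D)^(m+1)
    have hDpow : (1 - D) ^ (m + 1) ≤ ((k : ℝ) / n) ^ (m + 1) + ((1 + 2 * s) ^ (m + 1) - 1) := by
      have h3 : 1 - D ≤ (k : ℝ) / n + 2 * s := by
        rw [hDeq]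
        linarith
      have h4 : 0 ≤ 1 - D := by linarith
      refine (pow_le_pow_left₀ h4 h3 (m + 1)).trans ?_
      have h5 := prod_add_le (range (m + 1)) (fun _ => (k : ℝ) / n) (t := 2 * s) (by linarith)
        (fun _ => hk0) (fun _ => hk1)
      rw [prod_const, prod_const, card_range] at h5
      exact h5
    set y : ℝ := (1 + 2 * s) ^ (m + 1) - 1 with hy
    have hy0 : 0 ≤ y := by
      have h3 : (1 : ℝ) ≤ (1 + 2 * s) ^ (m + 1) := one_le_pow₀ (by linarith)
      rw [hy]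
      linarith
    have hmax : max α ((1 - D) ^ (m + 1)) ≤ A + y := by
      apply max_le
      · have : α ≤ A := le_max_left _ _
        linarith
      · have : ((k : ℝ) / n) ^ (m + 1) ≤ A := le_max_right _ _
        linarith
    have hprod : ∏ j ∈ M, (1 - p j) ≤ A + ε / 4 := by
      refine hinc.trans ?_
      have h3 : 1 ≤ Real.exp (2 * s) := Real.one_le_exp (by linarith)
      have h4 : Real.exp (2 * s) * max α ((1 - D) ^ (m + 1)) ≤ Real.exp (2 * s) * (A + y) :=
        mul_le_mul_of_nonneg_left hmax (by positivity)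
      refine h4.trans ?_
      have h5 : Real.exp (2 * s) * (1 + y) < 1 + ε / 4 := by
        have : 1 + y = (1 + 2 * s) ^ (m + 1) := by
          rw [hy]
          ring
        rw [this]
        exact hF
      have h6 : (Real.exp (2 * s) - 1) * A ≤ (Real.exp (2 * s) - 1) * 1 :=
        mul_le_mul_of_nonneg_left hA1 (by linarith)
      have h7 : Real.exp (2 * s) * (A + y) =
          A + (Real.exp (2 * s) - 1) * A + (Real.exp (2 * s) * (1 + y) - Real.exp (2 * s)) := by
        ring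
      rw [h7]
      linarith
    -- products over M
    have hMK : M.card ≤ K := by
      have h3 : (M.card : ℝ) ≤ K := hM.trans hK
      exact_mod_cast h3
    have hpow : ∀ x : ℝ, 0 ≤ x → x ≤ t → (1 + x) ^ M.card ≤ 1 + e1 := by
      intro x hx hxt
      have h3 : (1 + x) ^ M.card ≤ (1 + x) ^ K := pow_le_pow_right₀ (by linarith) hMK
      have h4 : (1 + x) ^ K < 1 + e1 := hft x hx hxt
      linarith
    have hadd : ∏ j ∈ M, (1 - p j + t) ≤ A + ε / 4 + e1 := by
      have h3 := prod_add_le M (fun j => 1 - p j) ht0.le (fun j => by linarith [hp1 j])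
        (fun j => by linarith [hp0 j])
      have h4 := hpow t ht0.le le_rfl
      linarith
    have hin : ∏ j ∈ M, (gammaT (G j) : ℝ) ≤ (A + ε / 4 + e1) * ((1 + e1) * (NN n : ℝ) ^ M.card) := by
      calc ∏ j ∈ M, (gammaT (G j) : ℝ) ≤ ∏ j ∈ M, ((1 - p j + t) * n) := by
            apply prod_le_prod
            · intro j _
              exact Nat.cast_nonneg _
            · intro j hj
              exact hγ j hj
        _ = (∏ j ∈ M, (1 - p j + t)) * (n : ℝ) ^ M.card := by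
            rw [prod_mul_distrib, prod_const]
        _ ≤ (A + ε / 4 + e1) * (n : ℝ) ^ M.card :=
            mul_le_mul_of_nonneg_right hadd (by positivity)
        _ ≤ (A + ε / 4 + e1) * ((1 + e1) * (NN n : ℝ) ^ M.card) := by
            apply mul_le_mul_of_nonneg_left _ (by positivity)
            calc (n : ℝ) ^ M.card ≤ ((1 + 2 / n) * NN n) ^ M.card :=
                  pow_le_pow_left₀ hnpos.le (UP_NN n hn2) _
              _ = (1 + 2 / (n : ℝ)) ^ M.card * (NN n : ℝ) ^ M.card := mul_pow _ _ _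
              _ ≤ (1 + e1) * (NN n : ℝ) ^ M.card :=
                  mul_le_mul_of_nonneg_right (hpow _ hw0 hwt) (by positivity)
    have hout : ∏ j ∈ Mᶜ, (gammaT (G j) : ℝ) ≤ (NN n : ℝ) ^ (Mᶜ).card := by
      rw [← prod_const]
      apply prod_le_prod
      · intro j _
        exact Nat.cast_nonneg _
      · intro j _
        exact_mod_cast hγN j
    have hcard : M.card + (Mᶜ).card = k := by
      have h3 := card_add_card_compl M
      rw [Fintype.card_fin] at h3
      exact h3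
    have hfin : (A + ε / 4 + e1) * (1 + e1) ≤ A + ε := by
      have h3 : e1 * A ≤ e1 * 1 := mul_le_mul_of_nonneg_left hA1 he0.le
      have h4 : e1 * e1 ≤ e1 * (1 / 4) := mul_le_mul_of_nonneg_left he5 he0.le
      have h5 : ε * e1 ≤ ε * (1 / 4) := mul_le_mul_of_nonneg_left he5 hε.le
      have h6 : (A + ε / 4 + e1) * (1 + e1) =
          A + ε / 4 + e1 + e1 * A + ε * e1 / 4 + e1 * e1 := by
        ring
      rw [h6]
      linarith
    calc (∏ j, (gammaT (G j) : ℝ))
        = (∏ j ∈ M, (gammaT (G j) : ℝ)) * ∏ j ∈ Mᶜ, (gammaT (G j) : ℝ) :=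
          (prod_mul_prod_compl M _).symm
      _ ≤ ((A + ε / 4 + e1) * ((1 + e1) * (NN n : ℝ) ^ M.card)) * (NN n : ℝ) ^ (Mᶜ).card := by
          apply mul_le_mul hin hout
          · exact prod_nonneg fun j _ => Nat.cast_nonneg _
          · positivity
      _ = ((A + ε / 4 + e1) * (1 + e1)) * (NN n : ℝ) ^ (M.card + (Mᶜ).card) := by
          rw [pow_add]
          ring
      _ = ((A + ε / 4 + e1) * (1 + e1)) * (NN n : ℝ) ^ k := by rw [hcard]
      _ ≤ (A + ε) * (NN n : ℝ) ^ k := mul_le_mul_of_nonneg_right hfin (by positivity)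

end Pool.Agent.Work.MP_1ce445_lin
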