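import Pool.Agent.Work.MP_1ce445_lin.Profile
import Pool.Agent.Work.MP_1ce445_lin.UP
import Pool.Agent.Work.MP_1ce445_lin.LOW
import Pool.Agent.Work.MP_1ce445_lin.UP2
import Pool.Agent.Work.MP_1ce445_lin.LOW2
import Pool.Agent.Work.MP_1ce445_lin.INA
import Pool.Agent.Work.MP_1ce445_lin.INC
import Pool.Agent.Work.MP_1ce445_lin.CORE
import Pool.Agent.Work.MP_1ce445_lin.LSYM
import Pool.Agent.Work.MP_1ce445_lin.LEX
import Pool.Agent.Work.MP_1ce445_lin.LUN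
import Pool.Agent.Work.MP_1ce445_lin.PART
import Pool.Agent.Work.MP_1ce445_lin.FAC
import Pool.Agent.Work.MP_1ce445_lin.GAM
import Pool.Agent.Work.MP_1ce445_lin.CRD
import Pool.Agent.Work.MP_1ce445_lin.TAN
import Pool.Agent.Work.MP_1ce445_lin.GK
import Pool.Agent.Work.MP_1ce445_lin.MAJ
import Pool.Agent.Work.MP_1ce445_lin.POL
import Pool.Agent.Work.MP_1ce445_lin.STW
import Pool.Agent.Work.MP_1ce445_lin.RC
import Pool.Agent.Work.MP_1ce445_lin.PHI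
import Pool.Agent.Work.MP_1ce445_lin.RAO
import Pool.Agent.Work.MP_1ce445_lin.BAS
import Pool.Agent.Work.MP_1ce445_lin.ATW
import Pool.Agent.Work.MP_1ce445_lin.AON
import Pool.Agent.Work.MP_1ce445_lin.AZE
import Pool.Agent.Work.MP_1ce445_lin.ALL
import Pool.Agent.Work.MP_1ce445_lin.COR2
import Pool.Agent.Work.MP_1ce445_lin.KOE
import Pool.Agent.Work.MP_1ce445_lin.SEQ
import Pool.Agent.Work.MP_1ce445_lin.MAT
import Pool.Agent.Work.MP_1ce445_lin.EVN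
import Pool.Agent.Work.MP_1ce445_lin.ODD2

/-!
Assembly of the theorem on the linear range from its blocks.
-/

namespace Pool.Agent.Work.MP_1ce445_lin

open Pool.Agent.Work.MP_1ce445_co_56

/-- `(1 - 1/(m+1))^(m+1) ≤ 32/27 (1 - 1/m)^m` for `m ≥ 2`. -/
lemma ratio_le (m : ℕ) (hm : 2 ≤ m) :
    (1 - 1 / ((m : ℝ) + 1)) ^ (m + 1) ≤ 32 / 27 * (1 - 1 / (m : ℝ)) ^ m := by
  rcases Nat.lt_or_ge m 3 with h3 | h3
  · have : m = 2 := by omega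
    subst this
    norm_num
  have hm0 : (3 : ℝ) ≤ m := by exact_mod_cast h3
  have hmp : (0 : ℝ) < m := by linarith
  have hB : 1 - 1 / (m : ℝ) ≤ (1 - 1 / (m : ℝ) ^ 2) ^ m := by
    have h := one_add_mul_le_pow (a := -(1 / (m : ℝ) ^ 2)) (by
      have : 1 / (m : ℝ) ^ 2 ≤ 1 := by
        rw [div_le_one (by positivity)]; nlinarith
      linarith) m
    have e1 : 1 + (m : ℝ) * -(1 / (m : ℝ) ^ 2) = 1 - 1 / m := by
      field_simp
      ring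
    rw [e1] at h
    exact h
  have hQ : (0 : ℝ) ≤ 1 - 1 / ((m : ℝ) + 1) := by
    have : 1 / ((m : ℝ) + 1) ≤ 1 := by rw [div_le_one (by linarith)]; linarith
    linarith
  have hfac : (1 - 1 / (m : ℝ) ^ 2) * (1 - 1 / ((m : ℝ) + 1)) = 1 - 1 / (m : ℝ) := by
    field_simp
    ring
  have h1 : (1 - 1 / (m : ℝ)) ^ m = (1 - 1 / (m : ℝ) ^ 2) ^ m * (1 - 1 / ((m : ℝ) + 1)) ^ m := by
    rw [← mul_pow, hfac]
  have h2 : (1 - 1 / (m : ℝ)) * (1 - 1 / ((m : ℝ) + 1)) ^ m ≤ (1 - 1 / (m : ℝ)) ^ m := by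
    rw [h1]
    exact mul_le_mul_of_nonneg_right hB (by positivity)
  have h4 : 1 - 1 / ((m : ℝ) + 1) ≤ 32 / 27 * (1 - 1 / (m : ℝ)) := by
    have e : 32 / 27 * (1 - 1 / (m : ℝ)) - (1 - 1 / ((m : ℝ) + 1)) =
        (5 * (m : ℝ) ^ 2 - 32) / (27 * (m * (m + 1))) := by
      field_simp
      ring
    have : 0 ≤ (5 * (m : ℝ) ^ 2 - 32) / (27 * (m * (m + 1))) := by
      apply div_nonneg
      · nlinarith
      · positivity
    linarith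
  calc (1 - 1 / ((m : ℝ) + 1)) ^ (m + 1)
      = (1 - 1 / ((m : ℝ) + 1)) * (1 - 1 / ((m : ℝ) + 1)) ^ m := by ring
    _ ≤ 32 / 27 * (1 - 1 / (m : ℝ)) * (1 - 1 / ((m : ℝ) + 1)) ^ m :=
        mul_le_mul_of_nonneg_right h4 (by positivity)
    _ = 32 / 27 * ((1 - 1 / (m : ℝ)) * (1 - 1 / ((m : ℝ) + 1)) ^ m) := by ring
    _ ≤ 32 / 27 * (1 - 1 / (m : ℝ)) ^ m := by
        apply mul_le_mul_of_nonneg_left h2 (by norm_num)

lemma quot_le (m : ℕ) (hm : 2 ≤ m) (n k : ℕ) (hn : 0 < n)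
    (h : (k : ℝ) ≤ (1 - 1 / (m : ℝ)) ^ ((m : ℝ) / (m + 1)) * n) :
    ((k : ℝ) / n) ^ (m + 1) ≤ (1 - 1 / (m : ℝ)) ^ m := by
  have hm0 : (2 : ℝ) ≤ m := by exact_mod_cast hm
  have hn0 : (0 : ℝ) < n := by exact_mod_cast hn
  have hb : (0 : ℝ) ≤ 1 - 1 / (m : ℝ) := by
    have : 1 / (m : ℝ) ≤ 1 / 2 := one_div_le_one_div_of_le (by norm_num) hm0
    linarith
  have h1 : (k : ℝ) / n ≤ (1 - 1 / (m : ℝ)) ^ ((m : ℝ) / (m + 1)) := by
    rw [div_le_iff₀ hn0]; exact h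
  calc ((k : ℝ) / n) ^ (m + 1) ≤ ((1 - 1 / (m : ℝ)) ^ ((m : ℝ) / (m + 1))) ^ (m + 1) :=
        pow_le_pow_left₀ (by positivity) h1 _
    _ = (1 - 1 / (m : ℝ)) ^ m := by
        rw [← Real.rpow_natCast, ← Real.rpow_mul hb, ← Real.rpow_natCast]
        congr 1
        push_cast
        field_simp

/-- The bounds of the theorem, from the upper and the lower bound. -/
theorem main (h1 : Stmt_UP) (h2 : Stmt_LOW) (m : ℕ) (hm : 2 ≤ m) (ε : ℝ) (hε : 0 < ε) :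
    ∃ n0 : ℕ, ∀ n k : ℕ, n0 ≤ n → (k : ℝ) ≤ (1 - 1 / ((m : ℝ) + 1)) * n →
      (P n k : ℝ) ≤ (max ((1 - 1 / (m : ℝ)) ^ m) (((k : ℝ) / n) ^ (m + 1)) + ε) *
        ((2 * (n / 2) : ℕ) : ℝ) ^ k ∧
      (P n k : ℝ) ≤ (32 / 27 * (1 - 1 / (m : ℝ)) ^ m + ε) * ((2 * (n / 2) : ℕ) : ℝ) ^ k ∧
      ((1 - 1 / (m : ℝ)) * n + 4 * m ≤ k →
        ((1 - 1 / (m : ℝ)) ^ m - ε) * ((2 * (n / 2) : ℕ) : ℝ) ^ k ≤ (P n k : ℝ) ∧
        ((k : ℝ) ≤ (1 - 1 / (m : ℝ)) ^ ((m : ℝ) / (m + 1)) * n →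
          |(P n k : ℝ) / ((2 * (n / 2) : ℕ) : ℝ) ^ k - (1 - 1 / (m : ℝ)) ^ m| ≤ ε)) := by
  obtain ⟨n1, hn1⟩ := h1 m ε hm hε
  obtain ⟨n2, hn2⟩ := h2 m ε hm hε
  have hm0 : (2 : ℝ) ≤ m := by exact_mod_cast hm
  have hb : (0 : ℝ) ≤ 1 - 1 / (m : ℝ) := by
    have : 1 / (m : ℝ) ≤ 1 / 2 := one_div_le_one_div_of_le (by norm_num) hm0
    linarith
  refine ⟨max (max n1 n2) 2, fun n k hn hk => ?_⟩
  have hn1' : n1 ≤ n := (le_max_left _ _).trans ((le_max_left _ _).trans hn)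
  have hn2' : n2 ≤ n := (le_max_right _ _).trans ((le_max_left _ _).trans hn)
  have hn3 : 2 ≤ n := (le_max_right _ _).trans hn
  have hn0 : (0 : ℝ) < n := by
    have : 0 < n := by omega
    exact_mod_cast this
  have hN : 0 < 2 * (n / 2) := by omega
  have hN0 : (0 : ℝ) < ((2 * (n / 2) : ℕ) : ℝ) := by exact_mod_cast hN
  have hU := hn1 n k hn1' hk
  have hU' : (P n k : ℝ) ≤ (max ((1 - 1 / (m : ℝ)) ^ m) (((k : ℝ) / n) ^ (m + 1)) + ε) *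
        ((2 * (n / 2) : ℕ) : ℝ) ^ k := hU
  have hP0 : (0 : ℝ) < ((2 * (n / 2) : ℕ) : ℝ) ^ k := pow_pos hN0 k
  refine ⟨hU', ?_, fun hlow => ⟨hn2 n k hn2' hlow hk, fun hup => ?_⟩⟩
  · refine hU'.trans (mul_le_mul_of_nonneg_right ?_ hP0.le)
    have hA : (0 : ℝ) ≤ (1 - 1 / (m : ℝ)) ^ m := pow_nonneg hb m
    have hmax : max ((1 - 1 / (m : ℝ)) ^ m) (((k : ℝ) / n) ^ (m + 1)) ≤
        32 / 27 * (1 - 1 / (m : ℝ)) ^ m := by
      apply max_le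
      · linarith
      · refine le_trans ?_ (ratio_le m hm)
        apply pow_le_pow_left₀ (by positivity)
        rw [div_le_iff₀ hn0]
        exact hk
    linarith
  · have hL : ((1 - 1 / (m : ℝ)) ^ m - ε) * ((2 * (n / 2) : ℕ) : ℝ) ^ k ≤ (P n k : ℝ) :=
      hn2 n k hn2' hlow hk
    have hq := quot_le m hm n k (by omega) hup
    rw [max_eq_left hq] at hU'
    have a1 : (P n k : ℝ) / ((2 * (n / 2) : ℕ) : ℝ) ^ k ≤ (1 - 1 / (m : ℝ)) ^ m + ε := by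
      rw [div_le_iff₀ hP0]; exact hU'
    have a2 : (1 - 1 / (m : ℝ)) ^ m - ε ≤ (P n k : ℝ) / ((2 * (n / 2) : ℕ) : ℝ) ^ k := by
      rw [le_div_iff₀ hP0]; exact hL
    rw [abs_le]
    constructor <;> linarith

/-- The range `3/10 ≤ k/n ≤ 1/2`. -/
theorem main2 (h1 : Stmt_UP2) (h2 : Stmt_LOW2) (ε : ℝ) (hε : 0 < ε) :
    ∃ n0 : ℕ, ∀ n k : ℕ, n0 ≤ n → 3 / 10 * (n : ℝ) ≤ k → (k : ℝ) ≤ n / 2 →
      |(P n k : ℝ) / ((2 * (n / 2) : ℕ) : ℝ) ^ k - Phi ((k : ℝ) / n)| ≤ ε := by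
  obtain ⟨n1, hn1⟩ := h1 ε hε
  obtain ⟨n2, hn2⟩ := h2 ε hε
  refine ⟨max (max n1 n2) 2, fun n k hn hk hk' => ?_⟩
  have hn1' : n1 ≤ n := (le_max_left _ _).trans ((le_max_left _ _).trans hn)
  have hn2' : n2 ≤ n := (le_max_right _ _).trans ((le_max_left _ _).trans hn)
  have hn3 : 2 ≤ n := (le_max_right _ _).trans hn
  have hN : 0 < 2 * (n / 2) := by omega
  have hN0 : (0 : ℝ) < ((2 * (n / 2) : ℕ) : ℝ) := by exact_mod_cast hN
  have hP0 : (0 : ℝ) < ((2 * (n / 2) : ℕ) : ℝ) ^ k := pow_pos hN0 k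
  have hU : (P n k : ℝ) ≤ (Phi ((k : ℝ) / n) + ε) * ((2 * (n / 2) : ℕ) : ℝ) ^ k :=
    hn1 n k hn1' hk hk'
  have hL : (Phi ((k : ℝ) / n) - ε) * ((2 * (n / 2) : ℕ) : ℝ) ^ k ≤ (P n k : ℝ) :=
    hn2 n k hn2' hk hk'
  have a1 : (P n k : ℝ) / ((2 * (n / 2) : ℕ) : ℝ) ^ k ≤ Phi ((k : ℝ) / n) + ε := by
    rw [div_le_iff₀ hP0]; exact hU
  have a2 : Phi ((k : ℝ) / n) - ε ≤ (P n k : ℝ) / ((2 * (n / 2) : ℕ) : ℝ) ^ k := by
    rw [le_div_iff₀ hP0]; exact hL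
  rw [abs_le]
  constructor <;> linarith

lemma level_spec (c : ℝ) (h : 1 / 2 < c) (h1 : c < 1) :
    2 ≤ level c ∧ 1 - 1 / (level c : ℝ) < c ∧ c ≤ 1 - 1 / ((level c : ℝ) + 1) := by
  have hd : 0 < 1 - c := by linarith
  set x : ℝ := 1 / (1 - c) with hx
  have hx2 : 2 < x := by
    rw [hx, lt_div_iff₀ hd]; linarith
  have hxc : x * (1 - c) = 1 := by
    rw [hx]; field_simp
  have h3 : 2 < ⌈x⌉₊ := by
    rw [Nat.lt_ceil]
    exact_mod_cast hx2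
  have hl : level c = ⌈x⌉₊ - 1 := rfl
  have hm2 : 2 ≤ level c := by omega
  have hlc : ((level c : ℕ) : ℝ) + 1 = (⌈x⌉₊ : ℝ) := by
    have : level c + 1 = ⌈x⌉₊ := by omega
    exact_mod_cast this
  have hup : x ≤ (level c : ℝ) + 1 := by rw [hlc]; exact Nat.le_ceil x
  have hlo : (level c : ℝ) < x := by
    have h4 : (⌈x⌉₊ : ℝ) < x + 1 := Nat.ceil_lt_add_one (by linarith)
    linarith
  have hm0 : (0 : ℝ) < level c := by
    have : 0 < level c := by omega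
    exact_mod_cast this
  refine ⟨hm2, ?_, ?_⟩
  · have h5 : (level c : ℝ) * (1 - c) < 1 := by
      have := mul_lt_mul_of_pos_right hlo hd
      rwa [hxc] at this
    have h6 : 1 - c < 1 / (level c : ℝ) := by
      rw [lt_div_iff₀ hm0]; linarith
    linarith
  · have h5 : 1 ≤ ((level c : ℝ) + 1) * (1 - c) := by
      have := mul_le_mul_of_nonneg_right hup hd.le
      rwa [hxc] at this
    have h6 : 1 / ((level c : ℝ) + 1) ≤ 1 - c := by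
      rw [div_le_iff₀ (by linarith)]; linarith
    linarith

lemma low_eq_Phi (c : ℝ) (h : c ≤ 1 / 2) : low c = Phi c := by
  unfold low Phi
  rw [if_pos h]

/-- The theorem, from the four bounds. -/
theorem final (h1 : Stmt_UP) (h2 : Stmt_LOW) (h3 : Stmt_UP2) (h4 : Stmt_LOW2)
    (δ ε : ℝ) (hδ : 0 < δ) (hε : 0 < ε) :
    ∃ n0 : ℕ, ∀ n k : ℕ, n0 ≤ n → 3 / 10 * (n : ℝ) ≤ k → (k : ℝ) ≤ (1 - δ) * n →
      (P n k : ℝ) ≤ (up ((k : ℝ) / n) + ε) * ((2 * (n / 2) : ℕ) : ℝ) ^ k ∧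
      up ((k : ℝ) / n) ≤ 32 / 27 * low ((k : ℝ) / n) ∧
      ((k : ℝ) ≤ n / 2 ∨
          (1 - 1 / (level ((k : ℝ) / n) : ℝ)) * n + 4 * level ((k : ℝ) / n) ≤ k →
        (low ((k : ℝ) / n) - ε) * ((2 * (n / 2) : ℕ) : ℝ) ^ k ≤ (P n k : ℝ)) := by
  classical
  obtain ⟨na, hna⟩ := main2 h3 h4 ε hε
  obtain ⟨M, hM⟩ := exists_nat_gt (1 / δ)
  have hch : ∀ m : ℕ, ∃ n0 : ℕ, 2 ≤ m → ∀ n k : ℕ, n0 ≤ n →
      (k : ℝ) ≤ (1 - 1 / ((m : ℝ) + 1)) * n →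
      (P n k : ℝ) ≤ (max ((1 - 1 / (m : ℝ)) ^ m) (((k : ℝ) / n) ^ (m + 1)) + ε) *
        ((2 * (n / 2) : ℕ) : ℝ) ^ k ∧
      (P n k : ℝ) ≤ (32 / 27 * (1 - 1 / (m : ℝ)) ^ m + ε) * ((2 * (n / 2) : ℕ) : ℝ) ^ k ∧
      ((1 - 1 / (m : ℝ)) * n + 4 * m ≤ k →
        ((1 - 1 / (m : ℝ)) ^ m - ε) * ((2 * (n / 2) : ℕ) : ℝ) ^ k ≤ (P n k : ℝ) ∧
        ((k : ℝ) ≤ (1 - 1 / (m : ℝ)) ^ ((m : ℝ) / (m + 1)) * n →
          |(P n k : ℝ) / ((2 * (n / 2) : ℕ) : ℝ) ^ k - (1 - 1 / (m : ℝ)) ^ m| ≤ ε)) := by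
    intro m
    by_cases hm : 2 ≤ m
    · obtain ⟨n0, hn0⟩ := main h1 h2 m hm ε hε
      exact ⟨n0, fun _ => hn0⟩
    · exact ⟨0, fun h => absurd h hm⟩
  choose nb hnb using hch
  refine ⟨max (max na 2) ((Finset.range (M + 1)).sup nb), fun n k hn hk hk' => ?_⟩
  have hn1 : na ≤ n := (le_max_left _ _).trans ((le_max_left _ _).trans hn)
  have hn2 : 2 ≤ n := (le_max_right _ _).trans ((le_max_left _ _).trans hn)
  have hn3 : (Finset.range (M + 1)).sup nb ≤ n := (le_max_right _ _).trans hn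
  have hn0 : (0 : ℝ) < n := by
    have : 0 < n := by omega
    exact_mod_cast this
  have hN : 0 < 2 * (n / 2) := by omega
  have hN0 : (0 : ℝ) < ((2 * (n / 2) : ℕ) : ℝ) := by exact_mod_cast hN
  have hP0 : (0 : ℝ) < ((2 * (n / 2) : ℕ) : ℝ) ^ k := pow_pos hN0 k
  rcases le_or_gt ((k : ℝ)) (n / 2) with hc | hc
  · -- the range below one half
    have hc' : (k : ℝ) / n ≤ 1 / 2 := by
      rw [div_le_iff₀ hn0]; linarith
    have h5 := hna n k hn1 hk hc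
    rw [abs_le] at h5
    have e1 : low ((k : ℝ) / n) = Phi ((k : ℝ) / n) := low_eq_Phi _ hc'
    have e2 : up ((k : ℝ) / n) = low ((k : ℝ) / n) := by
      unfold up
      rw [if_pos hc']
    have a1 : (P n k : ℝ) ≤ (Phi ((k : ℝ) / n) + ε) * ((2 * (n / 2) : ℕ) : ℝ) ^ k := by
      rw [← div_le_iff₀ hP0]; linarith [h5.2]
    have a2 : (Phi ((k : ℝ) / n) - ε) * ((2 * (n / 2) : ℕ) : ℝ) ^ k ≤ (P n k : ℝ) := by
      rw [← le_div_iff₀ hP0]; linarith [h5.1]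
    have hlo0 : 0 ≤ low ((k : ℝ) / n) := by
      have hk0 : (0 : ℝ) ≤ (k : ℝ) / n := by positivity
      rw [e1]
      unfold Phi
      refine mul_nonneg hk0 (le_min hk0 ?_)
      set c : ℝ := (k : ℝ) / n
      have h6 : Real.sqrt (c * (1 - 2 * c)) ≤ 1 - c := by
        rw [show (1 - c) = Real.sqrt ((1 - c) ^ 2) from (Real.sqrt_sq (by linarith)).symm]
        apply Real.sqrt_le_sqrt
        nlinarith [sq_nonneg (1 - 3 * c), sq_nonneg c, sq_nonneg (1 - 2 * c)]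
      linarith
    refine ⟨?_, ?_, fun _ => ?_⟩
    · rw [e2, e1]; exact a1
    · rw [e2]; linarith
    · rw [e1]; exact a2
  · -- the range above one half
    have hc' : 1 / 2 < (k : ℝ) / n := by
      rw [lt_div_iff₀ hn0]; linarith
    have hcd : (k : ℝ) / n ≤ 1 - δ := by
      rw [div_le_iff₀ hn0]; exact hk'
    have hc1 : (k : ℝ) / n < 1 := by linarith
    obtain ⟨hm2, hlo, hhi⟩ := level_spec _ hc' hc1
    set m : ℕ := level ((k : ℝ) / n) with hm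
    have hm0 : (2 : ℝ) ≤ m := by exact_mod_cast hm2
    have hmM : m < M + 1 := by
      have h6 : (m : ℝ) < 1 / δ := by
        rw [lt_div_iff₀ hδ]
        have h7 : δ ≤ 1 - (k : ℝ) / n := by linarith
        have h8 : 1 - (k : ℝ) / n < 1 / (m : ℝ) := by linarith
        have h9 : δ < 1 / (m : ℝ) := lt_of_le_of_lt h7 h8
        rw [lt_div_iff₀ (by linarith)] at h9
        linarith
      have h7 : (m : ℝ) < M := h6.trans hM
      have h8 : m < M := by exact_mod_cast h7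
      omega
    have hnm : nb m ≤ n :=
      (Finset.le_sup (f := nb) (Finset.mem_range.2 hmM)).trans hn3
    have hkm : (k : ℝ) ≤ (1 - 1 / ((m : ℝ) + 1)) * n := by
      rw [← div_le_iff₀ hn0]; exact hhi
    obtain ⟨b1, -, b3⟩ := hnb m hm2 n k hnm hkm
    have hnot : ¬ (k : ℝ) / n ≤ 1 / 2 := not_le.2 hc'
    have e1 : low ((k : ℝ) / n) = (1 - 1 / (m : ℝ)) ^ m := by
      unfold low
      rw [if_neg hnot]
    have e2 : up ((k : ℝ) / n) =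
        max ((1 - 1 / (m : ℝ)) ^ m) (((k : ℝ) / n) ^ (m + 1)) := by
      unfold up
      rw [if_neg hnot, e1]
    refine ⟨?_, ?_, ?_⟩
    · rw [e2]; exact b1
    · rw [e2, e1]
      have hb : (0 : ℝ) ≤ 1 - 1 / (m : ℝ) := by
        have : 1 / (m : ℝ) ≤ 1 / 2 := one_div_le_one_div_of_le (by norm_num) hm0
        linarith
      have hA : (0 : ℝ) ≤ (1 - 1 / (m : ℝ)) ^ m := pow_nonneg hb m
      apply max_le
      · linarith
      · refine le_trans ?_ (ratio_le m hm2)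
        exact pow_le_pow_left₀ (by positivity) hhi _
    · rintro (h | h)
      · exact absurd h (not_le.2 hc)
      · rw [e1]; exact (b3 h).1

theorem hUP : Stmt_UP := stmt_UP (stmt_INC stmt_INA) stmt_CORE

theorem hLOW : Stmt_LOW :=
  stmt_LOW (stmt_FAC stmt_LSYM stmt_LEX stmt_PART)
    (stmt_GAM stmt_LSYM stmt_LEX stmt_LUN stmt_PART stmt_CRD) stmt_CRD

theorem hPHI : Stmt_PHI := stmt_PHI

theorem hRAO : Stmt_RAO := stmt_RAO stmt_PHI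

theorem hALL : Stmt_ALL :=
  stmt_ALL (stmt_ATW stmt_GK stmt_PHI (stmt_RC stmt_MAJ (stmt_STW stmt_POL)) stmt_BAS)
    (stmt_AON stmt_TAN hRAO stmt_BAS) (stmt_AZE stmt_TAN hRAO stmt_BAS)

theorem hUP2 : Stmt_UP2 := stmt_UP2 hUP stmt_PHI hALL stmt_COR2

theorem hLOW2 : Stmt_LOW2 := stmt_LOW2 stmt_PHI (stmt_MAT stmt_KOE stmt_SEQ) stmt_EVN stmt_ODD2

end Pool.Agent.Work.MP_1ce445_lin
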