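import Pool.Agent.Work.MP_1ce445_lin.Interface

/-!
THEOREM LR2 (range `3/10 ≤ k/n ≤ 1/2`) for MP_1ce445_co: definitions and statements of the blocks.

`P n k = (Phi (k/n) + o(1)) (NN n)^k`. One file `Pool/Agent/Work/MP_1ce445_lin/<ID>.lean` per block,
`import Pool.Agent.Work.MP_1ce445_lin.Interface2`, same `open` lines, theorem `stmt_<ID>` with exactly the
statements of the column `uses` as hypotheses, in this order; auxiliary lemmas with the name of the block in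
front (`CNT_aux`). The proofs are in the docstrings. `p j` denotes the fraction of the `v` with `j ∈ T v`.
-/

namespace Pool.Agent.Work.MP_1ce445_lin

open Finset Pool.Agent.Work.MP_1ce445_co_56

/-- The value: `c²` for `c ≤ 1/3` and `c (1 - c - √(c (1 - 2 c)))` for `1/3 ≤ c ≤ 1/2`. -/
noncomputable def Phi (c : ℝ) : ℝ := c * min c (1 - c - Real.sqrt (c * (1 - 2 * c)))

/-! ### Real inequalities -/

/-- TAN (60 lines). Proof: for `0 ≤ p < 1`, `log (1 - p) ≤ -(p + p²/2 + p³/3)` (three terms of the series, exactly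
as `second_order` in `MP_1ce445_co_56/KeyIneq.lean` with `range 3`), and `p (p - a)² ≥ 0` gives
`p³ ≥ 2 a p² - a² p`, for `a = 1/4` and `a = 1/3`. -/
def Stmt_TAN : Prop :=
  ∀ p : ℝ, 0 ≤ p → p ≤ 1 →
    1 - p ≤ Real.exp (-(47 / 48 * p + 2 / 3 * p ^ 2)) ∧
    1 - p ≤ Real.exp (-(26 / 27 * p + 13 / 18 * p ^ 2))

/-- GK (80 lines). (1) Let `S = ∑ p²`. Claim: if `S ≤ 1/4` then `∏ (1 - p) ≤ 1 - √S`: induction on the set,
`(1 - √S)(1 - p) ≤ 1 - √(S + p²)` because `√S, p ≤ 1/2` (square: `(√S + p - √S p)² ≥ S + p²` iff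
`2 - 2 (√S + p) + √S p ≥ 0`, true as `√S + p ≤ 1`). So `∏ ≤ 1 - √(2G)` if `2G ≤ S ≤ 1/4`. If `S > 1/4`: `∏ ≤ 1/2`
(replace all `p` by `t p` with `t ∈ [0,1]`, `t² S = 1/4`; `1 - p ≤ 1 - t p`; then the claim). (2) `1 - p ≤ exp (-p)`. -/
def Stmt_GK : Prop :=
  ∀ {ι : Type} (F : Finset ι) (p : ι → ℝ), (∀ j ∈ F, 0 ≤ p j ∧ p j ≤ 1) →
    (∀ G : ℝ, 0 ≤ G → 2 * G ≤ ∑ j ∈ F, p j ^ 2 →
      ∏ j ∈ F, (1 - p j) ≤ 1 - min (Real.sqrt (2 * G)) (1 / 2)) ∧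
    ∏ j ∈ F, (1 - p j) ≤ Real.exp (-∑ j ∈ F, p j)

/-- MAJ (80 lines). `h t = 2 D t - t²` is increasing on `[0, D]` and `t (D - t)` is decreasing on `[D/2, D]`.
Proof: by symmetry `X ≤ Y`. If `X ≤ Z` clear. Let `Z < X ≤ Y ≤ c`. By hypothesis
`(X - Z)(2D - X - Z) ≤ (c - Y)(2D - c - Y)`. Suppose `X Y > c Z`, so `ρ = X/Z > c/Y =: ρ'`, `1 ≤ ρ' < ρ`.
`h c - h Y = (ρ' - 1) Y (2D - (ρ' + 1) Y)`, and `h X - h Z > h (ρ' Z) - h Z = (ρ' - 1) Z (2D - (ρ' + 1) Z)`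
(`ρ' Z < X ≤ D`). `y (2D - (ρ' + 1) y)` is decreasing for `y ≥ D/(ρ' + 1)`, in particular for `y ≥ Z ≥ D/2`, and
`Z < Y`: so `h X - h Z > h c - h Y`, a contradiction. (Any other proof is fine.) -/
def Stmt_MAJ : Prop :=
  ∀ D c X Y Z : ℝ, D / 2 ≤ Z → Z ≤ c → c ≤ D → 0 < D → 0 ≤ X → X ≤ c → 0 ≤ Y → Y ≤ c →
    (2 * D * X - X ^ 2) + (2 * D * Y - Y ^ 2) ≤ (2 * D * c - c ^ 2) + (2 * D * Z - Z ^ 2) →
    X * Y ≤ c * Z

/-- POL (60 lines), a polynomial inequality in three variables. The sum of the two expressions is nonnegative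
(numerically at least `0.18 r`). Both are increasing in `a` on the region, so it is enough to treat
`a = 1/2 - r + r²`. -/
def Stmt_POL : Prop :=
  ∀ r θ a : ℝ, 0 ≤ r → r ≤ 1 / 3 → 0 ≤ θ → θ ≤ 1 - 2 * r → 1 / 2 - r + r ^ 2 ≤ a →
    0 ≤ 2 * (2 - θ) * (a + θ * r) ^ 2 - θ ∨
    0 ≤ 2 * (2 - θ) * a * (a + θ * r) - (1 - θ) * (2 * a + θ * r)

/-- STW (100 lines; uses POL). Let `a = 1 - c - r`, `Z = a + δ`, `g = δ (2r - δ)`. `c = 1/2 - y`, `y - 2y² = r²`,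
`y ∈ [0, 1/6]`, so `y ≥ r²`, `r ≤ 1/3`, `a = 1/2 + y - r ≥ 1/2 - r + r²`, and `δ ≤ r - 2y ≤ r - 2r²`. `r > 0` because
`c < 1/2`; put `θ = δ/r`. POL: either (I) `δ ≤ 2 (2r - δ) Z²`, then `δ² ≤ 2 g Z²`, `δ ≤ √(2g) Z`, and
`√(2g) ≤ 1/2` (`2 g ≤ 2 (c - a)(2D - c - a) = 2 (3c - 1)(1 - 2c) ≤ 1/12`), so `Z K ≤ Z - √(2g) Z ≤ Z - δ = a`.
Or (II) `(r - δ)(a + Z) ≤ 2 (2r - δ) a Z`: then `g/(r - δ) ≥ (δ/2)(1/a + 1/Z) ≥ log (Z/a)` (`log x ≤ (x - 1/x)/2` for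
`x ≥ 1`), so `K ≤ a/Z`. Note `r - δ ≥ 1 - 2c > 0`, and `a > 0`. -/
def Stmt_STW : Prop :=
  ∀ c r δ K : ℝ, 1 / 3 ≤ c → c < 1 / 2 → 0 ≤ r → r ^ 2 = c * (1 - 2 * c) → 0 ≤ δ →
    δ ≤ r - (1 - 2 * c) → 0 ≤ K → K ≤ 1 - min (Real.sqrt (2 * (δ * (2 * r - δ)))) (1 / 2) →
    K ≤ Real.exp (-(δ * (2 * r - δ) / (r - δ))) → (1 - c - r + δ) * K ≤ 1 - c - r

/-- RC (150 lines; uses MAJ STW). Let `D = 1 - c`, `r = √(c (1 - 2c))`, `a = D - r`, `h t = 2 D t - t² = D² - (D - t)²`.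
Facts: `h c + h a = D`; `D/2 ≤ a ≤ c` (`(3c - 1)² ≥ 0`, `c ≥ 1/3`). By symmetry `X ≤ Y`. Let
`g = max 0 (h X + h Y - h c - h a - κ)`, so `0 ≤ g ≤ G` and `g ≤ h c - h a`; `Z = D - √(r² - g)`, so `a ≤ Z ≤ c`,
`h Z = h a + g`, and with `δ = Z - a`: `g = δ (2r - δ)`, `D - Z = r - δ`, `δ ≤ c - a = r - (1 - 2c)`. Bounds for
`K`: `K ≤ 1 - min √(2G) (1/2) ≤ 1 - min √(2g) (1/2)`. If `g = 0` then `K ≤ 1`; if `g > 0` then
`h X + h Y = h c + h Z + κ` and `Y ≤ c` give `h Z ≤ h X`, `Z ≤ X`, so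
`K ≤ exp (-G/(D - X)) ≤ exp (-g/(D - Z))`. STW: `Z K ≤ a`. Let `Z' ≥ Z` with `h Z' = min (h Z + κ) (h c)`
(`Z' = D - √(..)`), then `(Z' - Z)² ≤ h Z' - h Z ≤ κ`, and `X Y ≤ c Z'` by MAJ (or trivially if `Z' = c`). So
`X Y K ≤ c (Z + √κ) K ≤ c a + √κ`. -/
def Stmt_RC : Prop :=
  ∀ c κ X Y G K : ℝ, 1 / 3 ≤ c → c < 1 / 2 → 0 ≤ κ → 0 ≤ X → X ≤ c → 0 ≤ Y → Y ≤ c → 0 ≤ G →
    0 ≤ K → K ≤ 1 - min (Real.sqrt (2 * G)) (1 / 2) → K ≤ Real.exp (-(G / (1 - c - min X Y))) →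
    2 * (1 - c) * (X + Y) - X ^ 2 - Y ^ 2 ≤ (1 - c) + G + κ →
    X * Y * K ≤ c * (1 - c - Real.sqrt (c * (1 - 2 * c))) + Real.sqrt κ

/-- PHI (100 lines): facts about `Phi`. (1) continuity (composition). (2) `Phi (1/2) = 1/4`. (3) for `c ≤ 1/3`:
`√(c (1 - 2c)) ≤ 1 - 2c`. (4) for `1/3 ≤ c ≤ 1/2`: `1 - 2c ≤ √..`. (5) `9/100 ≤ Phi c`: for `c ≤ 1/3` it is `c²`; for
`c ≥ 1/3` even `1/9 ≤ Phi c`: `√.. ≤ 1 - c - 1/(9c)` after squaring is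
`0 ≤ (3c - 1)(81c³ - 54c² + 15c - 1)`. (6) `31/100 ≤ 1 - c - √..` : square, `3c² - 2.38c + .4761 > 0`. -/
def Stmt_PHI : Prop :=
  Continuous Phi ∧ Phi (1 / 2) = 1 / 4 ∧
  (∀ c : ℝ, 0 ≤ c → c ≤ 1 / 3 → Phi c = c ^ 2) ∧
  (∀ c : ℝ, 1 / 3 ≤ c → c ≤ 1 / 2 →
    Phi c = c * (1 - c - Real.sqrt (c * (1 - 2 * c))) ∧ 1 / 9 ≤ Phi c ∧
      31 / 100 ≤ 1 - c - Real.sqrt (c * (1 - 2 * c)) ∧ Phi c ≤ c ^ 2) ∧
  ∀ c : ℝ, 3 / 10 ≤ c → c ≤ 1 / 2 → 9 / 100 ≤ Phi c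

/-- RAO (120 lines; uses PHI): the two one-variable bounds. (1) Let `g q = 47/48 (1 + q - c) + 8/3 q (1 - q - c)`.
`q e^{-g q} ≤ c e^{-g c}`: enough `q/c ≤ 1 + g q - g c`, that is `c (47/48 + 8/3 (1 - 2c - q)) ≤ 1`, true (the left
side is at most `0.63`). `g c = 47/48 + 8/3 c (1 - 2c)`. For `c ≤ 1/3`: `e^{-g c} ≤ c` (at `c = 3/10`:
`e^{-1.29917} = 0.2728`; `g c ≥ 47/48 + 8/27` for `3/10 ≤ c ≤ 1/3`, and `e^{-(47/48 + 8/27)} = 0.2794 ≤ 3/10`).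
For `c ≥ 1/3` let `r = √(c (1 - 2c)) ∈ [0, 1/3]`, `c = 1/2 - y`, `y = r² + 2y² ≥ r² + 2r⁴`; to show:
`e^{-47/48 - 8r²/3} ≤ 1/2 + y - r`. `e^{-47/48} ≤ 0.37564`, `e^{-z} ≤ 1 - z + z²/2` (`z ≥ 0`), so it is enough that
`0.12436 - r + 2.00171 r² + 0.66439 r⁴ ≥ 0`, and `r⁴ ≥ 2 b r² - b²` with `b = 0.0543`. (2) For `c ≥ 1/3` the
left side is at most `e^{-52/27 - 13/36} = 0.1016 < 1/9 ≤ Phi c`. For `c ≤ 1/3` it is
`e^{-52/27 - 13 * 7/180} e^{13/18 (c - 3/10)} ≤ 0.0880 (1 + 0.75 (c - 3/10)) ≤ c²`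
(`e^{-2.43148} = 0.087907`). -/
def Stmt_RAO : Prop :=
  (∀ c q : ℝ, 3 / 10 ≤ c → c ≤ 1 / 2 → 0 ≤ q → q ≤ c →
    q * Real.exp (-(47 / 48 * (1 + q - c) + 2 / 3 * (4 * q * (1 - q - c)))) ≤ Phi c) ∧
  ∀ c : ℝ, 3 / 10 ≤ c → c ≤ 1 / 2 →
    Real.exp (-(26 / 27 * 2 + 13 / 18 * (1 - c))) ≤ Phi c

/-! ### The set systems -/

/-- fraction of the vertices `v` with `j ∈ T v` -/
noncomputable def pr {V : Type} [Fintype V] {k : ℕ} (T : V → Finset (Fin k)) (j : Fin k) : ℝ :=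
  ((univ.filter (fun v => j ∈ T v)).card : ℝ) / Fintype.card V

open Classical in
/-- degree in the relation `W` -/
noncomputable def dW {V : Type} [Fintype V] (W : V → V → Prop) (v : V) : ℝ :=
  ((univ.filter (fun w => W v w)).card : ℝ)

/-- the hypotheses on the set system: all degrees of `W` are between `(1 - c) |V|` and `(1 - c + κ) |V|` -/
structure Sys {V : Type} [Fintype V] {k : ℕ} (M : Finset (Fin k)) (T : V → Finset (Fin k))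
    (W : V → V → Prop) (c κ : ℝ) : Prop where
  pos : 0 < Fintype.card V
  sub : ∀ v, T v ⊆ M
  symm : ∀ v w, W v w → W w v
  meet : ∀ v w, W v w → (T v ∩ T w).Nonempty
  cl : 3 / 10 ≤ c
  cu : c < 1 / 2
  kap : 0 ≤ κ
  low : ∀ v, (1 - c) * Fintype.card V ≤ dW W v
  upp : ∀ v, dW W v ≤ (1 - c + κ) * Fintype.card V

/-- BAS (60 lines): basic consequences. (1) `dW W v ≤ #{w : T v ∩ T w ≠ ∅}`; if `T v = {j}` this is `p_j |V|`. (2)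
`0 ≤ p_j ≤ 1`. (3) `T v` is not empty (`dW W v > 0`, `meet`). (4) `#{w : T v ∩ T w ≠ ∅} ≤ ∑_{j ∈ T v} p_j |V|`. (5)
double counting. -/
def Stmt_BAS : Prop :=
  ∀ {V : Type} [Fintype V] {k : ℕ} (M : Finset (Fin k)) (T : V → Finset (Fin k))
    (W : V → V → Prop) (c κ : ℝ), Sys M T W c κ →
    (∀ j, 0 ≤ pr T j ∧ pr T j ≤ 1) ∧ (∀ v, (T v).Nonempty) ∧
    (∀ v j, T v = {j} → 1 - c ≤ pr T j) ∧
    (∀ v, 1 - c ≤ ∑ j ∈ T v, pr T j) ∧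
    ∑ j ∈ M, pr T j * Fintype.card V = ∑ v, ((T v).card : ℝ)

/-- ATW (250 lines; uses GK PHI RC BAS): at least two singletons. Let `X = 1 - p_i`, `Y = 1 - p_j` (`≤ c` by BAS),
`D = 1 - c`, `N = |V|`. If `c ≤ 1/3`: the product is `≤ X Y ≤ c² = Phi c` (all factors are in `[0,1]`, `i, j ∈ M`). Let
`c ≥ 1/3`. `V₀ = {v : i, j ∉ T v}`, `V₁ = {i ∈ T v, j ∉ T v}`, `V₂ = {j ∈ T v, i ∉ T v}`, `V₃` the rest.
(a) `v ∈ V₀`: `∑_{x ∈ T v} p_x ≥ D` (BAS), `i, j ∉ T v`, so by GK (2) the product is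
`≤ X Y e^{-D} ≤ c · c e^{-(1-c)} ≤ c (31/100) ≤ Phi c` (`c e^{-(1-c)} ≤ e^{-1/2}/2 ≤ 0.3033`). (b) `V₀ = ∅`: `|V₂| = X N`,
`|V₁| = Y N`, `|V₃| = (1 - X - Y) N`. `M' = M \ {i, j}`, `a_x = #{v ∈ V₁ : x ∈ T v}/N`, `b_x = #{v ∈ V₂ : x ∈ T v}/N`,
`a_x + b_x ≤ p_x`. For `v ∈ V₁`: its `W`-neighbours are in `V₁` (at most `Y N`), in `V₂` (they have a common
element `x ∈ T v ∩ M'` with `v`: at most `∑_{x ∈ T v ∩ M'} b_x N`), or in `V₃`. So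
`#{w ∈ V₃ : W v w} ≥ (D - Y) N - min (D - Y) (∑_{x ∈ T v ∩ M'} b_x) N ≥ (D - Y) N - ∑_{x ∈ T v ∩ M'} min (D - Y) b_x N`
(`D - Y ≥ 1 - 2c > 0`). Sum over `V₁`: at least `Y (D - Y) N² - ∑_x a_x min (D - Y) b_x N²`. The same for `V₂`. The
total is `≤ ∑_{w ∈ V₃} dW w ≤ (D + κ)(1 - X - Y) N²` (symmetry of `W`). With
`G = ∑_{x ∈ M'} (a_x min (D - Y) b_x + b_x min (D - X) a_x)`: `2D (X + Y) - X² - Y² ≤ D + G + κ`. `2 G ≤ ∑ (a_x + b_x)²`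
and `G ≤ (D - min X Y) ∑ (a_x + b_x)`. `K = ∏_{M'} (1 - (a_x + b_x)) ≥ ∏_{M'} (1 - p_x)`; GK (1), (2), then RC. -/
def Stmt_ATW : Prop :=
  ∀ {V : Type} [Fintype V] {k : ℕ} (M : Finset (Fin k)) (T : V → Finset (Fin k))
    (W : V → V → Prop) (c κ : ℝ), Sys M T W c κ → ∀ (i j : Fin k) (u v : V), i ≠ j → T u = {i} →
    T v = {j} → ∏ x ∈ M, (1 - pr T x) ≤ Phi c + Real.sqrt κ

/-- AON (150 lines; uses TAN RAO BAS): exactly one singleton `{i}`. `q = 1 - p_i ≤ c`. If `q = 0` the product is 0.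
`B = {i ∉ T v}` (`|B| = q N`), `C = {i ∈ T v, T v ≠ {i}}`, `A = {T v = {i}}`, `α = |A|/N`, `|C| = (1 - q - α) N`. For
`v ∈ B`: `dW v ≤ N - |A|` (vertices of `A` do not meet `T v`), so `α ≤ c`. All `v ∈ B` have `|T v| ≥ 2`, all `v ∈ C`
have `|T v \ {i}| ≥ 1`: `∑_{x ≠ i} p_x ≥ 2q + (1 - q - α) ≥ 1 + q - c`. `b_x = #{v ∈ B : x ∈ T v}/N`,
`c_x = #{v ∈ C : x ∈ T v}/N`, `p_x = b_x + c_x` for `x ≠ i`. For `v ∈ B`: at least `(1 - c) N - |B|` vertices of `C` meet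
`T v`, so `∑_{x ≠ i} b_x c_x ≥ q (1 - c - q)` (count pairs `(v, w) ∈ B × C`), and `∑_{x ≠ i} p_x² ≥ 4 q (1 - q - c)`.
TAN (first) for the factors `x ≠ i`, RAO (1). -/
def Stmt_AON : Prop :=
  ∀ {V : Type} [Fintype V] {k : ℕ} (M : Finset (Fin k)) (T : V → Finset (Fin k))
    (W : V → V → Prop) (c κ : ℝ), Sys M T W c κ → ∀ (i : Fin k) (u : V), T u = {i} →
    (∀ (j : Fin k) (v : V), T v = {j} → j = i) → ∏ x ∈ M, (1 - pr T x) ≤ Phi c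

/-- AZE (100 lines; uses TAN RAO BAS): no singleton. `|T v| ≥ 2` for all `v`, so `∑ p_x ≥ 2`. Pairs: for each `v` at least
`(1 - c) N` vertices `w` have `T v ∩ T w ≠ ∅`, so `∑ p_x² N² = ∑_{v,w} |T v ∩ T w| ≥ (1 - c) N²`. TAN (second) and
RAO (2). -/
def Stmt_AZE : Prop :=
  ∀ {V : Type} [Fintype V] {k : ℕ} (M : Finset (Fin k)) (T : V → Finset (Fin k))
    (W : V → V → Prop) (c κ : ℝ), Sys M T W c κ → (∀ (j : Fin k) (v : V), T v ≠ {j}) →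
    ∏ x ∈ M, (1 - pr T x) ≤ Phi c

/-- ALL (20 lines; uses ATW AON AZE): cases. -/
def Stmt_ALL : Prop :=
  ∀ {V : Type} [Fintype V] {k : ℕ} (M : Finset (Fin k)) (T : V → Finset (Fin k))
    (W : V → V → Prop) (c κ : ℝ), Sys M T W c κ →
    ∏ x ∈ M, (1 - pr T x) ≤ Phi c + Real.sqrt κ

open Classical in
/-- COR2 (100 lines on top of a copy of `CORE.lean`): the statement `Stmt_CORE` with the graph
`W v w = ∃ j ∈ M, j ∈ T v ∧ j ∈ T w ∧ (G j).Adj v w` instead of the relation `T v ∩ T w ≠ ∅`. The proof of CORE shows the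
lower bound for the degree of `W` (the sets `{w ~_j v, j ∈ T v, j ∈ T w}`, `j ∈ M`, are disjoint). Upper bound: each
`j ∉ M` has an edge at `v`, these `k - |M|` edges are different and not in `W` (an edge is in one factor only), so
`deg_W v ≤ n - 1 - (k - |M|)`. -/
def Stmt_COR2 : Prop :=
  ∀ (n k R : ℕ) (G : Fin k → SimpleGraph (Fin n)) (s t : ℝ), IsFactorization G →
    0 < s → s ≤ 1 → 1 ≤ s ^ 2 / 30 * n → k ≤ n →
    (R : ℝ) / n + (1 - (s ^ 2 / 30) ^ 2) ^ R ≤ t →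
    (∏ j, (gammaT (G j) : ℝ) ≤ Real.exp (-4) * (NN n : ℝ) ^ k) ∨
    ∃ (M : Finset (Fin k)) (T : Fin n → Finset (Fin k)) (W : Fin n → Fin n → Prop)
      (Vg : Finset (Fin n)),
      (M.card : ℝ) ≤ 5 / (s ^ 2 / 30) ∧ (∀ v, T v ⊆ M) ∧ (1 - s) * n ≤ Vg.card ∧
      (∀ v w, W v w → W w v) ∧ (∀ v w, W v w → (T v ∩ T w).Nonempty) ∧
      (∀ v ∈ Vg, (n : ℝ) - 1 - k - s * n ≤ ((univ.filter (fun w => W v w)).card : ℝ)) ∧
      (∀ v, ((univ.filter (fun w => W v w)).card : ℝ) ≤ (n : ℝ) - 1 - k + M.card) ∧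
      (∀ j ∈ M, (gammaT (G j) : ℝ) ≤
        (1 - ((univ.filter (fun v => j ∈ T v)).card : ℝ) / n + t) * n) ∧
      ∀ j, gammaT (G j) ≤ NN n

/-- UP2 (250 lines; uses UP PHI ALL COR2; model `UP.lean`). Given `ε`. `Phi` is uniformly continuous on `[0, 1]`.
(a) `η > 0` with `1/4 ≤ Phi c + ε/2` for `1/2 - η ≤ c ≤ 1/2`: for these `k` use UP with `m = 2` and `ε/2`
(`(k/n)³ ≤ 1/8`). (b) `k ≤ (1/2 - η) n`: take `s` small, then `R`, `t`, then `n` large. First alternative of COR2: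
`e^{-4} ≤ 9/100 ≤ Phi`. Second: `V = {v // v ∈ Vg}` with the restrictions of `T`, `W`; for `v ∈ Vg` the degree inside
`Vg` is `≥ n - 1 - k - 2 s n = (1 - c') n ≥ (1 - c') |Vg|` with `c' = k/n + 1/n + 2s` (`3/10 ≤ c' < 1/2`), and
`≤ n - 1 - k + |M| ≤ (1 - c' + κ)(1 - s) n ≤ (1 - c' + κ) |Vg|` with `κ = 10 s` (`n` large). ALL gives
`∏_M (1 - q_j) ≤ Phi c' + √(10 s)`, `q_j` the fraction in `Vg`. `p_j ≥ (1 - s) q_j`. If `∑_M q_j ≥ 5` then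
`∏_M (1 - p_j + t) ≤ exp (-5 (1 - s) + t |M|) ≤ e^{-4} ≤ 9/100`. Otherwise
`∏ (1 - p_j + t) ≤ ∏ (1 - q_j + s q_j) + ((1 + t)^|M| - 1) ≤ ∏ (1 - q_j) + 5 s + ((1 + t)^|M| - 1)` (`prod_add_le`;
for factors `x_j ≤ y_j` in `[0,1]`: `∏ y - ∏ x ≤ ∑ (y - x)`). The factors `j ∉ M` are `≤ NN n`, those in `M` are
`≤ (..) n`, `(n/NN n)^|M| → 1` (lemmas of `UP.lean`). -/
def Stmt_UP2 : Prop :=
  ∀ ε : ℝ, 0 < ε → ∃ n0 : ℕ, ∀ n k : ℕ, n0 ≤ n → 3 / 10 * (n : ℝ) ≤ k → (k : ℝ) ≤ n / 2 →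
    (P n k : ℝ) ≤ (Phi ((k : ℝ) / n) + ε) * (NN n : ℝ) ^ k

/-! ### Lower bound -/

/-- KOE (150 lines): a nonnegative integer matrix with all row and column sums `k` is a sum of `k` permutation
matrices. Induction on `k`; Hall's theorem (`Finset.all_card_le_biUnion_card_iff_exists_injective`) for the sets
`{b : N a b ≠ 0}`: for `A ⊆ α`, `k |A| = ∑_{a ∈ A} ∑_b N a b ≤ ∑_{b ∈ nbr A} ∑_a N a b = k |nbr A|`. An injective map
between sets of equal size is a bijection; subtract the permutation matrix. -/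
def Stmt_KOE : Prop :=
  ∀ (α β : Type) [Fintype α] [Fintype β] [DecidableEq α] [DecidableEq β] (k : ℕ) (N : α → β → ℕ),
    Fintype.card α = Fintype.card β → (∀ a, ∑ b, N a b = k) → (∀ b, ∑ a, N a b = k) →
    ∃ π : Fin k → (α ≃ β), ∀ a b, N a b = (univ.filter (fun x => π x a = b)).card

/-- SEQ (200 lines): `k` edge-disjoint matchings with `m` edges each in the complete graph on `2t + 1` vertices;
`f i` is the involution of the `i`-th matching. Construction: vertices `ZMod (2t + 1)`, edges numbered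
`e = t l + s`, `0 ≤ l ≤ 2t`, `0 ≤ s < t`: the edge number `e` is `{C + x, C - x}` with `C = l (t + 1)` and `x = s + 1` if
`l` is even, `x = t - s` if `l` is odd (`1 ≤ x ≤ t`; `l = (C + x) + (C - x)` is determined by the edge, and so is `x`).
Matching `i` = the edges number `i m, .., i m + m - 1`. They are disjoint: for the same `l` clear; otherwise
`e = t l + s < e' = t (l + 1) + s'`, `e' - e < m ≤ t - 1`, and a common vertex means `C ± x = C + (t + 1) ± x'`, that is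
`x + x' ∈ {t, t + 1}` (the other sign combinations are impossible for `1 ≤ x, x' ≤ t`). If `l` is even then
`x + x' = (s + 1) + (t - s') = t + 1 + s - s'` where `t + s' - s = e' - e ≤ m - 1 ≤ t - 2`, so `s - s' ≥ 2`,
`x + x' ≥ t + 3`. If `l` is odd then `x + x' = (t - s) + (s' + 1) = e' - e + 1 ≤ m ≤ t - 1`. -/
def Stmt_SEQ : Prop :=
  ∀ t m k : ℕ, m + 1 ≤ t → k * m ≤ t * (2 * t + 1) →
    ∃ f : Fin k → Fin (2 * t + 1) → Fin (2 * t + 1), (∀ i u, f i (f i u) = u) ∧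
      (∀ i, (univ.filter (fun u => f i u ≠ u)).card = 2 * m) ∧
      ∀ i i' u, i ≠ i' → f i u = f i' u → f i u = u

/-- vertices of the construction: `S₁`, `S₂`, `R` -/
abbrev VV (k σ t : ℕ) : Type := Fin k ⊕ (Fin σ ⊕ Fin (2 * t + 1))

/-- `μ` is a family of `k` edge-disjoint perfect matchings (as involutions) of `VV k σ t`, there is no matching
edge inside `S₁`, and all pairs in `S₁ × S₂` are matching edges -/
structure Mat (k σ t : ℕ) (μ : Fin k → VV k σ t → VV k σ t) : Prop where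
  inv : ∀ i v, μ i (μ i v) = v
  ne : ∀ i v, μ i v ≠ v
  dis : ∀ i i' v, μ i v = μ i' v → i = i'
  out : ∀ i (x x' : Fin k), μ i (Sum.inl x) ≠ Sum.inl x'
  all : ∀ (x : Fin k) (y : Fin σ), ∃ i, μ i (Sum.inl x) = Sum.inr (Sum.inl y)

/-- MAT (200 lines; uses KOE SEQ). `n = k + σ + (2t + 1)` is even, `n - 2k = 2m`. `f` from SEQ
(`m + 1 ≤ t` follows from `σ + 3 ≤ k`). KOE for `α = Fin k ⊕ Fin (2m)`, `β = Fin σ ⊕ Fin (2t + 1)` (both have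
`k + 2m` elements) and `N (inl i) (inl y) = 1`, `N (inl i) (inr u) = 1` if `f i u = u` and `0` otherwise,
`N (inr d) (inl y) = 0`, `N (inr d) (inr u) =` number of the `i` such that `f i u ≠ u` and the number of `u` in an
enumeration `e_i : {u | f i u ≠ u} ≃ Fin (2m)` is `d`. Row and column sums are `k`. With `π` from KOE put
`μ i (inl x) = inr (π x (inl i))`, `μ i (inr (inr u)) = inr (inr (f i u))` if `f i u ≠ u`, and for the other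
`z ∈ β` (`N (inl i) z = 1`): `μ i (inr z) = inl x`, `x` the only element with `π x (inl i) = z`. `dis`: for `inl x`:
`π x` is injective; for `inr z`: if `μ i (inr z) = inl x = μ i' (inr z)` then `π x (inl i) = z = π x (inl i')`; the
involutions `f i` by SEQ. `all`: `π x` is surjective and `N (inr d) (inl y) = 0`. -/
def Stmt_MAT : Prop :=
  ∀ k σ t m : ℕ, k + σ + (2 * t + 1) = 2 * k + 2 * m → σ + 3 ≤ k → k * m ≤ t * (2 * t + 1) →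
    ∃ μ : Fin k → VV k σ t → VV k σ t, Mat k σ t μ

/-- EVN (200 lines). Factors: for `i < k - 2` the matching `μ i`; the factor `k - 2` is `μ (k - 2)` together with all
pairs which are in no matching and are contained in `S₁ ∪ R`; the factor `k - 1` is `μ (k - 1)` together with the other
pairs which are in no matching (they meet `S₂` and are contained in `S₂ ∪ R` by `all`). `IsFactorization.of_adj`.
`n ≤ gammaT` for `i < k - 2` and `σ ≤ gammaT` for `i = k - 2`, `k ≤ gammaT` for `i = k - 1` by `card_le_gammaT`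
(`f = ` inclusion of all vertices, of `S₂`, of `S₁`; the only neighbour of `f x` is `μ i (f x)`). Then `le_P`. -/
def Stmt_EVN : Prop :=
  ∀ (k σ t : ℕ) (μ : Fin k → VV k σ t → VV k σ t), 4 ≤ k → Mat k σ t μ →
    (k + σ + (2 * t + 1)) ^ (k - 2) * (σ * k) ≤ P (k + σ + (2 * t + 1)) k

/-- ODD2 (250 lines). Delete one vertex `y₀ ∈ S₂`. `x i = μ i y₀ ∈ S₁` (`all`, `dis`: `i ↦ x i` is a bijection
`Fin k → Fin k`). Let `x⁺` be the cyclic successor of `x` in `Fin k`; the pairs `{x i, (x i)⁺}` are different (`k ≥ 3`) and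
in no matching (`out`). Factors on `V \ {y₀}`: for `i < k - 2` the matching `μ i` (restricted) and the pair
`{x i, (x i)⁺}`; for `i = k - 2` the same and all unused pairs contained in `S₁ ∪ R`; for `i = k - 1` the same
and all other unused pairs. (Unused: in no matching and not one of the pairs `{x i, (x i)⁺}`.) The number of
vertices is `n = k + σ + 2t`. `n - 1 ≤ gammaT` for `i < k - 2`: `GAM_sub_one` in `GAM.lean` with `x0 = (x i)⁺`, `v = x i`.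
`σ - 1 ≤ gammaT` for `i = k - 2` (the vertices of `S₂ \ {y₀}` have the only neighbour `μ i`), `k - 1 ≤ gammaT` for
`i = k - 1` (the vertices `x ≠ (x i)⁺` of `S₁`: the only neighbour of `x i` is `(x i)⁺`, that of the others is
`μ i x ∉ S₁`). -/
def Stmt_ODD2 : Prop :=
  ∀ (k σ t : ℕ) (μ : Fin k → VV k σ t → VV k σ t), 4 ≤ k → 1 ≤ σ → Mat k σ t μ →
    (k + σ + 2 * t - 1) ^ (k - 2) * ((σ - 1) * (k - 1)) ≤ P (k + σ + 2 * t) k

/-- LOW2 (200 lines; uses PHI MAT EVN ODD2). Let `n' = n` for even `n` and `n' = n + 1` for odd `n`, `c = k/n`,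
`ψ = min c (1 - c - √(c (1 - 2c)))`, `Phi c = c ψ`, `ψ ≥ 3/10`. Let `σ` be a natural number with
`(ψ - ε/2) n - 2 ≤ σ ≤ (ψ - ε/2) n` and `n' - k - σ` odd, `= 2t + 1`; `2m = n' - 2k`. (`ε ≤ 1/10` without loss.)
`σ + 3 ≤ k` as `ψ ≤ c`. `2 k m = k (n' - 2k) ≤ c (1 - 2c) n² + n` and
`2t + 1 ≥ (1 - c - ψ + ε/2) n ≥ (√(c (1 - 2c)) + ε/2) n`, so `k m ≤ t (2t + 1)` for large `n`. EVN or ODD2:
`P n k ≥ (NN n)^(k-2) (σ - 1)(k - 1)`, and `(σ - 1)(k - 1)/(NN n)² ≥ (ψ - ε/2 - 3/n)(c - 1/n) ≥ Phi c - ε`. -/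
def Stmt_LOW2 : Prop :=
  ∀ ε : ℝ, 0 < ε → ∃ n0 : ℕ, ∀ n k : ℕ, n0 ≤ n → 3 / 10 * (n : ℝ) ≤ k → (k : ℝ) ≤ n / 2 →
    (Phi ((k : ℝ) / n) - ε) * (NN n : ℝ) ^ k ≤ (P n k : ℝ)

end Pool.Agent.Work.MP_1ce445_lin
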