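import Pool.Agent.Work.MP_1ce445_co_56.Sublinear
import Pool.Agent.Work.MP_1ce445_co_56.Odd

/-!
THEOREM LR (linear range) for MP_1ce445_co: definitions and the statements of the blocks.
See `BLUEPRINT.md` in this folder.
-/

namespace Pool.Agent.Work.MP_1ce445_lin

open Finset Pool.Agent.Work.MP_1ce445_co_56

/-! ### Upper bound -/

/-- `2 ⌊n/2⌋`, an upper bound for every total domination number. -/
def NN (n : ℕ) : ℕ := 2 * (n / 2)

/-- The one-variable inequality. -/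
def Stmt_INA : Prop :=
  ∀ (a m : ℕ) (x s r : ℝ), 1 ≤ a → a ≤ m → 2 ≤ m → 0 ≤ s → 0 ≤ r → 0 ≤ x → x ≤ a →
    1 - s - r ≤ x →
    (1 - x / a) ^ a * Real.exp (-(1 - s + r - x)) ≤
      Real.exp (2 * s) * (1 - 1 / (m : ℝ)) ^ m

/-- The inequality for set systems. -/
def Stmt_INC : Prop :=
  ∀ (n k m : ℕ) (M : Finset (Fin k)) (T : Fin n → Finset (Fin k)) (s D : ℝ)
    (Vg : Finset (Fin n)), 0 < n → 2 ≤ m → (∀ v, T v ⊆ M) → 0 ≤ s → s ≤ 1 → 0 < D → D ≤ 1 →
    (1 - s) * n ≤ Vg.card →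
    (∀ v ∈ Vg, D * n ≤ ((univ.filter (fun w => T v ∩ T w ≠ ∅)).card : ℝ)) →
    ∏ j ∈ M, (1 - ((univ.filter (fun v => j ∈ T v)).card : ℝ) / n) ≤
      Real.exp (2 * s) * max ((1 - 1 / (m : ℝ)) ^ m) ((1 - D) ^ (m + 1))

/-- Structure of a factorization with a large product. -/
def Stmt_CORE : Prop :=
  ∀ (n k R : ℕ) (G : Fin k → SimpleGraph (Fin n)) (s t : ℝ), IsFactorization G →
    0 < s → s ≤ 1 → 1 ≤ s ^ 2 / 30 * n → k ≤ n →
    (R : ℝ) / n + (1 - (s ^ 2 / 30) ^ 2) ^ R ≤ t →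
    (∏ j, (gammaT (G j) : ℝ) ≤ Real.exp (-4) * (NN n : ℝ) ^ k) ∨
    ∃ (M : Finset (Fin k)) (T : Fin n → Finset (Fin k)) (Vg : Finset (Fin n)),
      (M.card : ℝ) ≤ 5 / (s ^ 2 / 30) ∧ (∀ v, T v ⊆ M) ∧ (1 - s) * n ≤ Vg.card ∧
      (∀ v ∈ Vg, (n : ℝ) - 1 - k - s * n ≤
        ((univ.filter (fun w => T v ∩ T w ≠ ∅)).card : ℝ)) ∧
      (∀ j ∈ M, (gammaT (G j) : ℝ) ≤
        (1 - ((univ.filter (fun v => j ∈ T v)).card : ℝ) / n + t) * n) ∧
      ∀ j, gammaT (G j) ≤ NN n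

/-- The upper bound. -/
def Stmt_UP : Prop :=
  ∀ (m : ℕ) (ε : ℝ), 2 ≤ m → 0 < ε → ∃ n0 : ℕ, ∀ n k : ℕ, n0 ≤ n →
    (k : ℝ) ≤ (1 - 1 / ((m : ℝ) + 1)) * n →
    (P n k : ℝ) ≤ (max ((1 - 1 / (m : ℝ)) ^ m) (((k : ℝ) / n) ^ (m + 1)) + ε) * (NN n : ℝ) ^ k

/-! ### Lower bound: the labelling -/

/-- Blocks: `Option (ZMod (2r+1))`; `2r+2` blocks with `h` vertices each. -/
abbrev X (r h : ℕ) : Type := Option (ZMod (2 * r + 1)) × ZMod h

/-- rank of a block -/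
def rk {r : ℕ} : Option (ZMod (2 * r + 1)) → ℕ
  | none => 0
  | some u => u.val + 1

/-- the index of the one-factor of the complete graph on the blocks which contains two blocks -/
def aOf {r : ℕ} : Option (ZMod (2 * r + 1)) → Option (ZMod (2 * r + 1)) → ZMod (2 * r + 1)
  | none, none => 0
  | none, some u => u
  | some u, none => u
  | some u, some v => (u + v) * ((r + 1 : ℕ) : ZMod (2 * r + 1))

/-- the part of a block: `{∞, 0}`, `{u, -u}` -/
def part {r : ℕ} : Option (ZMod (2 * r + 1)) → ℕ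
  | none => 0
  | some u => min u.val (2 * r + 1 - u.val)

/-- positions of the deleted vertices in block `∞`: `2(r+1)i` for `j = 2i`,
`2(r+1)i + i + 1` for `j = 2i+1` -/
def pos (r j : ℕ) : ℕ := 2 * (r + 1) * (j / 2) + (j % 2) * (j / 2 + 1)

/-- `t` is the position of a deleted vertex (`e` vertices are deleted) -/
def Del (r e t : ℕ) : Prop := ∃ j, j < e ∧ pos r j = t

/-- the second coordinate of the label of a pair inside a block -/
def rep (r h e : ℕ) (z z' : ZMod h) : Option (ZMod h) :=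
  if 1 ≤ (z' - z).val ∧ (z' - z).val ≤ (e + 1) / 2 then
    some (z - ((2 * (r + 1) * ((z' - z).val - 1) : ℕ) : ZMod h))
  else if 1 ≤ (z - z').val ∧ (z - z').val ≤ (e + 1) / 2 then
    some (z' - ((2 * (r + 1) * ((z - z').val - 1) : ℕ) : ZMod h))
  else none

/-- a label inside a block: none in block `∞` -/
def labIn (r h e : ℕ) (u : Option (ZMod (2 * r + 1))) (z z' : ZMod h) :
    Option (ZMod (2 * r + 1) × ZMod h) :=
  match u with
  | none => none
  | some u => (rep r h e z z').map (fun b => (u, b))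

open Classical in
/-- the label of a pair of vertices -/
noncomputable def lab (r h e : ℕ) (x y : X r h) : Option (ZMod (2 * r + 1) × ZMod h) :=
  if x.1 = y.1 then labIn r h e x.1 x.2 y.2
  else some (aOf x.1 y.1, if rk x.1 < rk y.1 then y.2 - x.2 else x.2 - y.2)

/-- the vertex set: `e` vertices of block `∞` are deleted -/
def Vt (r h e : ℕ) : Type := {x : X r h // ¬ (x.1 = none ∧ Del r e x.2.val)}

noncomputable instance (r h e : ℕ) : DecidableEq (Vt r h e) := Classical.decEq _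

noncomputable instance (r h e : ℕ) [NeZero h] : Fintype (Vt r h e) := by
  classical
  unfold Vt
  infer_instance

/-- the size conditions -/
def OK (r h e : ℕ) : Prop := 1 ≤ r ∧ e < 2 * (r + 1) ∧ 4 * (r + 1) ^ 2 ≤ h

/-- `x` and `y` form an edge with label `(a, b)` -/
def Rl {r h e : ℕ} (a : ZMod (2 * r + 1)) (b : ZMod h) (x y : Vt r h e) : Prop :=
  x ≠ y ∧ lab r h e x.1 y.1 = some (a, b)

def Stmt_LSYM : Prop :=
  ∀ (r h e : ℕ) [NeZero h], OK r h e → ∀ x y : X r h, lab r h e x y = lab r h e y x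

def Stmt_LEX : Prop :=
  ∀ (r h e : ℕ) [NeZero h], OK r h e → ∀ (a : ZMod (2 * r + 1)) (b : ZMod h) (x : Vt r h e),
    ∃ y, Rl a b x y

def Stmt_LUN : Prop :=
  ∀ (r h e : ℕ) [NeZero h], OK r h e → ∀ (a : ZMod (2 * r + 1)) (b : ZMod h),
    (∀ x y y' : Vt r h e, Rl a b x y → Rl a b x y' → y = y') ∨
    (Odd e ∧ ∃ x0 v : Vt r h e, Rl a b x0 v ∧
      (∀ x y y' : Vt r h e, x ≠ x0 → Rl a b x y → Rl a b x y' → y = y') ∧
      (∀ y y' : Vt r h e, y ≠ v → y' ≠ v → Rl a b x0 y → Rl a b x0 y' → y = y'))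

def Stmt_PART : Prop :=
  ∀ r : ℕ, (∀ x y : Option (ZMod (2 * r + 1)), x ≠ y → aOf x y = 0 → part x = part y) ∧
    (∀ x : Option (ZMod (2 * r + 1)), part x ≤ r) ∧
    (∀ i : ℕ, (univ.filter (fun x : Option (ZMod (2 * r + 1)) => part x = i)).card ≤ 2)

/-! ### Lower bound: the factors -/

open Classical in
/-- the raw colour of a pair of vertices -/
noncomputable def colr (r h e g : ℕ) (x y : X r h) : (ZMod (2 * r + 1) × ZMod h) ⊕ ℕ :=
  match lab r h e x y with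
  | none => Sum.inr (part x.1)
  | some (a, b) => if a ≠ 0 ∨ b.val < g then Sum.inl (a, b)
      else if b.val < g + (r + 1) then Sum.inr (b.val - g) else Sum.inr (part x.1)

/-- the set of colours: labels `(a,b)` with `a ≠ 0` or `b < g`, and one big colour for each part -/
abbrev Cl (r h g : ℕ) : Type :=
  {p : ZMod (2 * r + 1) × ZMod h // p.1 ≠ 0 ∨ p.2.val < g} ⊕ Fin (r + 1)

def em {r h g : ℕ} : Cl r h g → (ZMod (2 * r + 1) × ZMod h) ⊕ ℕ
  | Sum.inl p => Sum.inl p.1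
  | Sum.inr i => Sum.inr i.val

/-- the factor with a given colour -/
def Gr (r h e g : ℕ) (c : Cl r h g) : SimpleGraph (Vt r h e) :=
  SimpleGraph.fromRel (fun x y => colr r h e g x.1 y.1 = em c)

noncomputable instance (r h g : ℕ) [NeZero h] : Fintype (Cl r h g) := by
  classical
  unfold Cl
  infer_instance

def Stmt_FAC : Prop :=
  ∀ (r h e g : ℕ) [NeZero h], OK r h e → g + (r + 1) ≤ h → IsFactorization (Gr r h e g)

def Stmt_GAM : Prop :=
  ∀ (r h e g : ℕ) [NeZero h], OK r h e → g + (r + 1) ≤ h →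
    (∀ p, NN (Fintype.card (Vt r h e)) ≤ gammaT (Gr r h e g (Sum.inl p))) ∧
    (∀ i, Fintype.card (Vt r h e) ≤ gammaT (Gr r h e g (Sum.inr i)) + 2 * h + 2)

def Stmt_CRD : Prop :=
  ∀ (r h e g : ℕ) [NeZero h], OK r h e → g + (r + 1) ≤ h →
    Fintype.card (Vt r h e) + e = 2 * (r + 1) * h ∧
    Fintype.card (Cl r h g) = 2 * r * h + g + (r + 1)

/-- The lower bound. -/
def Stmt_LOW : Prop :=
  ∀ (m : ℕ) (ε : ℝ), 2 ≤ m → 0 < ε → ∃ n0 : ℕ, ∀ n k : ℕ, n0 ≤ n →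
    (1 - 1 / (m : ℝ)) * n + 4 * m ≤ k → (k : ℝ) ≤ (1 - 1 / ((m : ℝ) + 1)) * n →
    ((1 - 1 / (m : ℝ)) ^ m - ε) * (NN n : ℝ) ^ k ≤ (P n k : ℝ)

end Pool.Agent.Work.MP_1ce445_lin
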