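import Pool.Agent.Work.MP_1ce445_lin.Interface2

/-!
Block EVN: the factorization for even `n` (typed by helper43).
-/

namespace Pool.Agent.Work.MP_1ce445_lin

open Finset Pool.Agent.Work.MP_1ce445_co_56

section

variable {k σ t : ℕ}

/-- `v` is not in `S₂`. -/
def EVN_low (v : VV k σ t) : Prop := ∀ y : Fin σ, v ≠ Sum.inr (Sum.inl y)

/-- The factors. -/
def EVN_G (μ : Fin k → VV k σ t → VV k σ t) (h : Mat k σ t μ) (i : Fin k) :
    SimpleGraph (VV k σ t) where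
  Adj v w := μ i v = w ∨ (v ≠ w ∧ (∀ j, μ j v ≠ w) ∧
    ((i.val + 2 = k ∧ EVN_low v ∧ EVN_low w) ∨ (i.val + 1 = k ∧ ¬ (EVN_low v ∧ EVN_low w))))
  symm := ⟨by
    rintro v w (h1 | ⟨h1, h2, h3⟩)
    · left
      rw [← h1]
      exact h.inv i v
    · right
      refine ⟨h1.symm, ?_, ?_⟩
      · intro j hj
        apply h2 j
        rw [← hj]
        exact h.inv j w
      · rcases h3 with ⟨h4, h5, h6⟩ | ⟨h4, h5⟩
        · exact Or.inl ⟨h4, h6, h5⟩
        · exact Or.inr ⟨h4, fun h6 => h5 ⟨h6.2, h6.1⟩⟩⟩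
  loopless := ⟨by
    rintro v (h1 | ⟨h1, -⟩)
    · exact h.ne i v h1
    · exact h1 rfl⟩

lemma EVN_adj (μ : Fin k → VV k σ t → VV k σ t) (h : Mat k σ t μ) (i : Fin k) (v w : VV k σ t) :
    (EVN_G μ h i).Adj v w ↔ (μ i v = w ∨ (v ≠ w ∧ (∀ j, μ j v ≠ w) ∧
    ((i.val + 2 = k ∧ EVN_low v ∧ EVN_low w) ∨ (i.val + 1 = k ∧ ¬ (EVN_low v ∧ EVN_low w))))) :=
  Iff.rfl

lemma EVN_deg (μ : Fin k → VV k σ t → VV k σ t) (h : Mat k σ t μ) (i : Fin k) (v : VV k σ t) :
    ∃ w, (EVN_G μ h i).Adj v w := ⟨μ i v, Or.inl rfl⟩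

lemma EVN_inj (μ : Fin k → VV k σ t → VV k σ t) (h : Mat k σ t μ) (i : Fin k) :
    Function.Injective (μ i) := by
  intro v w hvw
  rw [← h.inv i v, hvw, h.inv i w]

lemma EVN_fact (hk : 2 ≤ k) (μ : Fin k → VV k σ t → VV k σ t) (h : Mat k σ t μ) :
    IsFactorization (EVN_G μ h) := by
  apply IsFactorization.of_adj
  · intro i j v w hi hj
    rcases (EVN_adj μ h i v w).1 hi with h1 | ⟨-, h2, h3⟩
    · rcases (EVN_adj μ h j v w).1 hj with h4 | ⟨-, h5, -⟩
      · exact h.dis i j v (h1.trans h4.symm)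
      · exact absurd h1 (h5 i)
    · rcases (EVN_adj μ h j v w).1 hj with h4 | ⟨-, -, h6⟩
      · exact absurd h4 (h2 j)
      · rcases h3 with ⟨h7, h8⟩ | ⟨h7, h8⟩
        · rcases h6 with ⟨h9, -⟩ | ⟨-, h10⟩
          · exact Fin.ext (by omega)
          · exact absurd h8 h10
        · rcases h6 with ⟨-, h10⟩ | ⟨h9, -⟩
          · exact absurd h10 h8
          · exact Fin.ext (by omega)
  · intro v w hvw
    by_cases h1 : ∃ j, μ j v = w
    · obtain ⟨j, hj⟩ := h1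
      exact ⟨j, Or.inl hj⟩
    · push Not at h1
      by_cases h2 : EVN_low v ∧ EVN_low w
      · exact ⟨⟨k - 2, by omega⟩, Or.inr ⟨hvw, h1, Or.inl ⟨by simp only; omega, h2.1, h2.2⟩⟩⟩
      · exact ⟨⟨k - 1, by omega⟩, Or.inr ⟨hvw, h1, Or.inr ⟨by simp only; omega, h2⟩⟩⟩
  · exact EVN_deg μ h

lemma EVN_g1 (μ : Fin k → VV k σ t → VV k σ t) (h : Mat k σ t μ) (i : Fin k) (h1 : i.val + 2 ≠ k)
    (h2 : i.val + 1 ≠ k) : k + σ + (2 * t + 1) ≤ gammaT (EVN_G μ h i) := by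
  have key := card_le_gammaT (EVN_deg μ h i) (fun x : VV k σ t => x) (μ i) (EVN_inj μ h i)
    (by
      rintro x w (h3 | ⟨-, -, ⟨h3, -⟩ | ⟨h3, -⟩⟩)
      · exact h3.symm
      · exact absurd h3 h1
      · exact absurd h3 h2)
  simp only [Fintype.card_sum, Fintype.card_fin] at key
  omega

lemma EVN_g2 (μ : Fin k → VV k σ t → VV k σ t) (h : Mat k σ t μ) (i : Fin k) (h1 : i.val + 2 = k) :
    σ ≤ gammaT (EVN_G μ h i) := by
  have key := card_le_gammaT (EVN_deg μ h i)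
    (fun y : Fin σ => (Sum.inr (Sum.inl y) : VV k σ t)) (fun y => μ i (Sum.inr (Sum.inl y)))
    (fun y y' hy => Sum.inl.inj (Sum.inr.inj (EVN_inj μ h i hy)))
    (by
      rintro x w (h3 | ⟨-, -, ⟨-, h3, -⟩ | ⟨h3, -⟩⟩)
      · exact h3.symm
      · exact absurd rfl (h3 x)
      · omega)
  simpa only [Fintype.card_fin] using key

lemma EVN_g3 (μ : Fin k → VV k σ t → VV k σ t) (h : Mat k σ t μ) (i : Fin k) (h1 : i.val + 1 = k) :
    k ≤ gammaT (EVN_G μ h i) := by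
  have key := card_le_gammaT (EVN_deg μ h i)
    (fun x : Fin k => (Sum.inl x : VV k σ t)) (fun x => μ i (Sum.inl x))
    (fun y y' hy => Sum.inl.inj (EVN_inj μ h i hy))
    (by
      rintro x w (h3 | ⟨-, h2, ⟨h3, -⟩ | ⟨-, h3⟩⟩)
      · exact h3.symm
      · omega
      · exfalso
        apply h3
        refine ⟨fun y => by simp, ?_⟩
        intro y hy
        obtain ⟨j, hj⟩ := h.all x y
        exact h2 j (hj.trans hy.symm))
  simpa only [Fintype.card_fin] using key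

end

/-- Block EVN. -/
theorem stmt_EVN : Stmt_EVN := by
  intro k σ t μ hk h
  have h1 := le_P (V := VV k σ t) (ι := Fin k) (n := k + σ + (2 * t + 1)) (k := k)
    (by simp only [Fintype.card_sum, Fintype.card_fin]; omega) (Fintype.card_fin k)
    (EVN_fact (by omega) μ h)
  refine le_trans ?_ h1
  obtain ⟨m, rfl⟩ : ∃ m, k = m + 2 := ⟨k - 2, by omega⟩
  rw [Fin.prod_univ_castSucc, Fin.prod_univ_castSucc]
  have h2 : (m + 2 + σ + (2 * t + 1)) ^ m ≤
      ∏ i : Fin m, gammaT (EVN_G μ h i.castSucc.castSucc) := by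
    calc (m + 2 + σ + (2 * t + 1)) ^ m = ∏ _i : Fin m, (m + 2 + σ + (2 * t + 1)) := by
          rw [Finset.prod_const, Finset.card_univ, Fintype.card_fin]
      _ ≤ _ := Finset.prod_le_prod' (fun i _ => EVN_g1 μ h _ (by
          have := i.2
          simp only [Fin.val_castSucc]
          omega) (by
          have := i.2
          simp only [Fin.val_castSucc]
          omega))
  have h3 := EVN_g2 μ h (Fin.last m).castSucc (by simp)
  have h4 := EVN_g3 μ h (Fin.last (m + 1)) (by simp)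
  have h5 : m + 2 - 2 = m := by omega
  rw [h5, ← mul_assoc]
  exact Nat.mul_le_mul (Nat.mul_le_mul h2 h3) h4

end Pool.Agent.Work.MP_1ce445_lin
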