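import Pool.Agent.Work.MP_1ce445_lin.Interface

namespace Pool.Agent.Work.MP_1ce445_lin

open Finset Pool.Agent.Work.MP_1ce445_co_56

theorem LUN_two (r : ℕ) : (2 : ZMod (2 * r + 1)) * ((r + 1 : ℕ) : ZMod (2 * r + 1)) = 1 := by
  have h : ((2 * r + 1 : ℕ) : ZMod (2 * r + 1)) = 0 := ZMod.natCast_self _
  push_cast at h ⊢
  linear_combination h

theorem LUN_aOf {r : ℕ} {B B1 B2 : Option (ZMod (2 * r + 1))} (h1 : B ≠ B1) (h2 : B ≠ B2)
    (h : aOf B B1 = aOf B B2) : B1 = B2 := by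
  have h0 := LUN_two r
  rcases B with _ | w
  · rcases B1 with _ | u
    · exact absurd rfl h1
    · rcases B2 with _ | v
      · exact absurd rfl h2
      · have h' : u = v := h
        rw [h']
  · rcases B1 with _ | u
    · rcases B2 with _ | v
      · rfl
      · exfalso
        apply h2
        have h' : w = (w + v) * ((r + 1 : ℕ) : ZMod (2 * r + 1)) := h
        have h3 : w = v := by linear_combination 2 * h' + (w + v) * h0
        rw [h3]
    · rcases B2 with _ | v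
      · exfalso
        apply h1
        have h' : (w + u) * ((r + 1 : ℕ) : ZMod (2 * r + 1)) = w := h
        have h3 : w = u := by linear_combination (-2) * h' + (w + u) * h0
        rw [h3]
      · have h' : (w + u) * ((r + 1 : ℕ) : ZMod (2 * r + 1)) =
            (w + v) * ((r + 1 : ℕ) : ZMod (2 * r + 1)) := h
        have h3 : u = v := by linear_combination 2 * h' - (w + u) * h0 + (w + v) * h0
        rw [h3]

theorem LUN_diff {r h e : ℕ} {x y y' : X r h} {a : ZMod (2 * r + 1)} {b : ZMod h}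
    (h1 : x.1 ≠ y.1) (h2 : x.1 ≠ y'.1) (e1 : lab r h e x y = some (a, b))
    (e2 : lab r h e x y' = some (a, b)) : y = y' := by
  unfold lab at e1 e2
  rw [if_neg h1] at e1
  rw [if_neg h2] at e2
  have e1' := Prod.mk.inj (Option.some.inj e1)
  have e2' := Prod.mk.inj (Option.some.inj e2)
  have hb : y.1 = y'.1 := LUN_aOf h1 h2 (e1'.1.trans e2'.1.symm)
  refine Prod.ext hb ?_
  have e3 := e1'.2.trans e2'.2.symm
  rw [← hb] at e3
  split_ifs at e3
  · exact sub_left_injective e3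
  · exact sub_right_injective e3

theorem LUN_md {r k : ℕ} (hk : k < 2 * (r + 1)) : (k % 2) * (k / 2 + 1) < 2 * (r + 1) := by
  have h1 : k % 2 ≤ 1 := by omega
  have h2 : (k % 2) * (k / 2 + 1) ≤ 1 * (k / 2 + 1) := Nat.mul_le_mul_right _ h1
  omega

theorem LUN_pos {r j j' : ℕ} (h1 : j < 2 * (r + 1)) (h2 : j' < 2 * (r + 1))
    (h : pos r j = pos r j') : j = j' := by
  unfold pos at h
  have hq : ∀ k, k < 2 * (r + 1) →
      (2 * (r + 1) * (k / 2) + (k % 2) * (k / 2 + 1)) / (2 * (r + 1)) = k / 2 := by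
    intro k hk
    rw [Nat.mul_add_div (by omega), Nat.div_eq_of_lt (LUN_md hk), add_zero]
  have h3 : j / 2 = j' / 2 := by
    rw [← hq j h1, ← hq j' h2, h]
  rw [h3] at h
  have h4 : (j % 2) * (j' / 2 + 1) = (j' % 2) * (j' / 2 + 1) := Nat.add_left_cancel h
  have h5 : j % 2 = j' % 2 := Nat.eq_of_mul_eq_mul_right (Nat.succ_pos _) h4
  omega

theorem LUN_lt {r h e j : ℕ} (hOK : OK r h e) (h1 : j < 2 * (r + 1)) : pos r j < h := by
  obtain ⟨hr, he, hh⟩ := hOK
  unfold pos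
  have h3 : j / 2 + 1 ≤ r + 1 := by omega
  have h4 := LUN_md h1
  have h5 : 2 * (r + 1) * (j / 2) + 2 * (r + 1) = 2 * (r + 1) * (j / 2 + 1) := by ring
  have h6 : 2 * (r + 1) * (j / 2 + 1) ≤ 2 * (r + 1) * (r + 1) := Nat.mul_le_mul_left _ h3
  have h7 : 2 * (r + 1) * (r + 1) ≤ 4 * (r + 1) ^ 2 := by nlinarith
  omega

theorem LUN_even (r i : ℕ) : pos r (2 * i) = 2 * (r + 1) * i := by
  unfold pos
  rw [Nat.mul_div_cancel_left _ (by norm_num), Nat.mul_mod_right, zero_mul, add_zero]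

theorem LUN_odd (r i : ℕ) : pos r (2 * i + 1) = 2 * (r + 1) * i + (i + 1) := by
  unfold pos
  have h1 : (2 * i + 1) / 2 = i := by omega
  have h2 : (2 * i + 1) % 2 = 1 := by omega
  rw [h1, h2, one_mul]

theorem LUN_same {r h e : ℕ} [NeZero h] (hOK : OK r h e) {x y : X r h} {a : ZMod (2 * r + 1)}
    {b : ZMod h} (h1 : x.1 = y.1) (e1 : lab r h e x y = some (a, b)) :
    x.1 = some a ∧ ∃ j, j < 2 * ((e + 1) / 2) ∧ (x.2 - b).val = pos r j ∧
      y.2 = if j % 2 = 0 then x.2 + ((j / 2 + 1 : ℕ) : ZMod h)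
        else x.2 - ((j / 2 + 1 : ℕ) : ZMod h) := by
  have he : e < 2 * (r + 1) := hOK.2.1
  unfold lab at e1
  rw [if_pos h1] at e1
  unfold labIn at e1
  rcases hx : x.1 with _ | u
  · rw [hx] at e1
    exact absurd e1 (by simp)
  · rw [hx] at e1
    obtain ⟨b', hb', hub⟩ := Option.map_eq_some_iff.1 e1
    obtain ⟨hu, hb⟩ := Prod.mk.inj hub
    rw [hb] at hb'
    refine ⟨by rw [hu], ?_⟩
    unfold rep at hb'
    split_ifs at hb' with hc1 hc2
    · have hb2 := Option.some.inj hb'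
      obtain ⟨d, hd⟩ : ∃ d, (y.2 - x.2).val = d := ⟨_, rfl⟩
      rw [hd] at hc1 hb2
      have hdz : ((d : ℕ) : ZMod h) = y.2 - x.2 := by
        rw [← hd]
        exact ZMod.natCast_zmod_val _
      obtain ⟨i, rfl⟩ : ∃ i, d = i + 1 := ⟨d - 1, by omega⟩
      refine ⟨2 * i, by omega, ?_, ?_⟩
      · have h3 : x.2 - b = ((pos r (2 * i) : ℕ) : ZMod h) := by
          rw [LUN_even, ← hb2, Nat.add_sub_cancel]
          ring
        rw [h3]
        exact ZMod.val_natCast_of_lt (LUN_lt hOK (by omega))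
      · rw [if_pos (by omega), show 2 * i / 2 + 1 = i + 1 by omega, hdz]
        ring
    · have hb2 := Option.some.inj hb'
      obtain ⟨d, hd⟩ : ∃ d, (x.2 - y.2).val = d := ⟨_, rfl⟩
      rw [hd] at hc2 hb2
      have hdz : ((d : ℕ) : ZMod h) = x.2 - y.2 := by
        rw [← hd]
        exact ZMod.natCast_zmod_val _
      obtain ⟨i, rfl⟩ : ∃ i, d = i + 1 := ⟨d - 1, by omega⟩
      refine ⟨2 * i + 1, by omega, ?_, ?_⟩
      · have h3 : x.2 - b = ((pos r (2 * i + 1) : ℕ) : ZMod h) := by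
          rw [LUN_odd, ← hb2, Nat.add_sub_cancel, Nat.cast_add, hdz]
          ring
        rw [h3]
        exact ZMod.val_natCast_of_lt (LUN_lt hOK (by omega))
      · rw [if_neg (by omega), show (2 * i + 1) / 2 + 1 = i + 1 by omega, hdz]
        ring

theorem LUN_same2 {r h e : ℕ} [NeZero h] (hOK : OK r h e) {x y y' : X r h}
    {a : ZMod (2 * r + 1)} {b : ZMod h} (h1 : x.1 = y.1) (h2 : x.1 = y'.1)
    (e1 : lab r h e x y = some (a, b)) (e2 : lab r h e x y' = some (a, b)) : y = y' := by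
  have he : e < 2 * (r + 1) := hOK.2.1
  obtain ⟨_, j, hj, hv, hy⟩ := LUN_same hOK h1 e1
  obtain ⟨_, j', hj', hv', hy'⟩ := LUN_same hOK h2 e2
  have hjj : j = j' := LUN_pos (by omega) (by omega) (hv.symm.trans hv')
  rw [← hjj] at hy'
  exact Prod.ext (h1.symm.trans h2) (hy.trans hy'.symm)

theorem LUN_mixed {r h e : ℕ} [NeZero h] (hOK : OK r h e) {a : ZMod (2 * r + 1)} {b : ZMod h}
    {x y y' : Vt r h e} (h1 : x.1.1 = y.1.1) (h2 : x.1.1 ≠ y'.1.1)
    (e1 : lab r h e x.1 y.1 = some (a, b)) (e2 : lab r h e x.1 y'.1 = some (a, b)) :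
    Odd e ∧ x.1 = (some a, b + ((pos r e : ℕ) : ZMod h)) := by
  obtain ⟨hxa, j, hj, hv, _⟩ := LUN_same hOK h1 e1
  unfold lab at e2
  rw [if_neg h2] at e2
  obtain ⟨f1, f2⟩ := Prod.mk.inj (Option.some.inj e2)
  rw [hxa] at f1 f2 h2
  have hn : y'.1.1 = none := by
    refine (LUN_aOf (B := some a) (by simp) h2 ?_).symm
    rw [f1]
    rfl
  rw [hn] at f2
  rw [if_neg (by simp [rk])] at f2
  have hy2 : y'.1.2 = x.1.2 - b := by rw [← f2]; ring
  have hje : e ≤ j := by
    by_contra hlt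
    refine y'.2 ⟨hn, j, by omega, ?_⟩
    rw [hy2, hv]
  have hjee : j = e := by omega
  refine ⟨Nat.odd_iff.2 (by omega), Prod.ext hxa ?_⟩
  show x.1.2 = b + ((pos r e : ℕ) : ZMod h)
  have hp : pos r e = (x.1.2 - b).val := by rw [hv, hjee]
  rw [hp, ZMod.natCast_zmod_val]
  ring

theorem LUN_x0 {r h e : ℕ} [NeZero h] (hOK : OK r h e) (ho : Odd e) (a : ZMod (2 * r + 1))
    (b : ZMod h) :
    lab r h e (some a, b + ((pos r e : ℕ) : ZMod h))
      (some a, b + ((2 * (r + 1) * (e / 2) : ℕ) : ZMod h)) = some (a, b) ∧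
    ((e / 2 + 1 : ℕ) : ZMod h) ≠ 0 ∧
    b + ((pos r e : ℕ) : ZMod h) - ((e / 2 + 1 : ℕ) : ZMod h) =
      b + ((2 * (r + 1) * (e / 2) : ℕ) : ZMod h) := by
  obtain ⟨i, rfl⟩ := ho
  have hr := hOK.1
  have he : 2 * i + 1 < 2 * (r + 1) := hOK.2.1
  have hh := hOK.2.2
  have hi2 : (2 * i + 1) / 2 = i := by omega
  have hh2 : 2 * (r + 1) + 2 * (r + 1) ≤ h := by nlinarith
  rw [hi2, LUN_odd]
  have hval : (((i + 1 : ℕ)) : ZMod h).val = i + 1 := ZMod.val_natCast_of_lt (by omega)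
  have hne : ((i + 1 : ℕ) : ZMod h) ≠ 0 := by
    intro h0
    rw [h0, ZMod.val_zero] at hval
    omega
  have hs1 : b + ((2 * (r + 1) * i + (i + 1) : ℕ) : ZMod h) -
      (b + ((2 * (r + 1) * i : ℕ) : ZMod h)) = ((i + 1 : ℕ) : ZMod h) := by
    rw [Nat.cast_add (2 * (r + 1) * i)]
    ring
  have hs2 : b + ((2 * (r + 1) * i : ℕ) : ZMod h) -
      (b + ((2 * (r + 1) * i + (i + 1) : ℕ) : ZMod h)) = -((i + 1 : ℕ) : ZMod h) := by
    rw [Nat.cast_add (2 * (r + 1) * i)]
    ring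
  have hnv : (-((i + 1 : ℕ) : ZMod h)).val = h - (i + 1) := by
    rw [ZMod.neg_val, if_neg hne, hval]
  refine ⟨?_, hne, ?_⟩
  · unfold lab
    rw [if_pos rfl]
    show (rep r h (2 * i + 1) (b + ((2 * (r + 1) * i + (i + 1) : ℕ) : ZMod h))
      (b + ((2 * (r + 1) * i : ℕ) : ZMod h))).map (fun b => (a, b)) = some (a, b)
    unfold rep
    rw [hs1, hs2, hval, hnv, if_neg (by omega), if_pos (by omega)]
    rw [Nat.add_sub_cancel, add_sub_cancel_right]
    rfl
  · rw [Nat.cast_add (2 * (r + 1) * i)]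
    ring

theorem stmt_LUN : Stmt_LUN := by
  intro r h e _ hOK a b
  rcases Nat.even_or_odd e with hev | hodd
  · left
    intro x y y' h1 h2
    have key : y.1 = y'.1 := by
      by_cases c1 : x.1.1 = y.1.1
      · by_cases c2 : x.1.1 = y'.1.1
        · exact LUN_same2 hOK c1 c2 h1.2 h2.2
        · exact absurd (LUN_mixed hOK c1 c2 h1.2 h2.2).1 (Nat.not_odd_iff_even.2 hev)
      · by_cases c2 : x.1.1 = y'.1.1
        · exact absurd (LUN_mixed hOK c2 c1 h2.2 h1.2).1 (Nat.not_odd_iff_even.2 hev)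
        · exact LUN_diff c1 c2 h1.2 h2.2
    exact Subtype.ext key
  · right
    refine ⟨hodd, ?_⟩
    obtain ⟨k1, k2, k3⟩ := LUN_x0 hOK hodd a b
    have he : e < 2 * (r + 1) := hOK.2.1
    refine ⟨⟨(some a, b + ((pos r e : ℕ) : ZMod h)), fun hc => by simp at hc⟩,
      ⟨(some a, b + ((2 * (r + 1) * (e / 2) : ℕ) : ZMod h)), fun hc => by simp at hc⟩, ⟨?_, k1⟩,
      ?_, ?_⟩
    · intro hc
      have h3 := congrArg (fun t : Vt r h e => t.1.2) hc
      have h4 : b + ((pos r e : ℕ) : ZMod h) = b + ((2 * (r + 1) * (e / 2) : ℕ) : ZMod h) := h3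
      rw [← k3] at h4
      apply k2
      linear_combination h4
    · intro x y y' hx h1 h2
      have key : y.1 = y'.1 := by
        by_cases c1 : x.1.1 = y.1.1
        · by_cases c2 : x.1.1 = y'.1.1
          · exact LUN_same2 hOK c1 c2 h1.2 h2.2
          · exact absurd (Subtype.ext (LUN_mixed hOK c1 c2 h1.2 h2.2).2) hx
        · by_cases c2 : x.1.1 = y'.1.1
          · exact absurd (Subtype.ext (LUN_mixed hOK c2 c1 h2.2 h1.2).2) hx
          · exact LUN_diff c1 c2 h1.2 h2.2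
      exact Subtype.ext key
    · have hyv : ∀ y : Vt r h e, (some a : Option (ZMod (2 * r + 1))) = y.1.1 →
          lab r h e (some a, b + ((pos r e : ℕ) : ZMod h)) y.1 = some (a, b) →
          y.1 = (some a, b + ((2 * (r + 1) * (e / 2) : ℕ) : ZMod h)) := by
        intro y c1 h1
        obtain ⟨_, j, hj, hv, hy⟩ := LUN_same hOK (x := (some a, b + ((pos r e : ℕ) : ZMod h))) c1 h1
        have hv2 : (b + ((pos r e : ℕ) : ZMod h) - b).val = pos r e := by
          rw [add_sub_cancel_left]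
          exact ZMod.val_natCast_of_lt (LUN_lt hOK he)
        have hje : j = e := LUN_pos (by omega) he (hv.symm.trans hv2)
        rw [hje, if_neg (by have := Nat.odd_iff.1 hodd; omega)] at hy
        exact Prod.ext c1.symm (hy.trans k3)
      intro y y' hy hy' h1 h2
      have key : y.1 = y'.1 := by
        by_cases c1 : (some a : Option (ZMod (2 * r + 1))) = y.1.1
        · exact absurd (Subtype.ext (hyv y c1 h1.2)) hy
        · by_cases c2 : (some a : Option (ZMod (2 * r + 1))) = y'.1.1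
          · exact absurd (Subtype.ext (hyv y' c2 h2.2)) hy'
          · exact LUN_diff c1 c2 h1.2 h2.2
      exact Subtype.ext key

end Pool.Agent.Work.MP_1ce445_lin
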