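import Pool.Agent.Work.MP_1ce445_lin.Interface2

/-! # Block PHI -/

set_option autoImplicit false

namespace Pool.Agent.Work.MP_1ce445_lin

open Finset Pool.Agent.Work.MP_1ce445_co_56

theorem PHI_cont : Continuous Phi := by
  unfold Phi
  fun_prop

theorem PHI_half : Phi (1 / 2) = 1 / 4 := by
  unfold Phi
  have h : (1 / 2 : ℝ) * (1 - 2 * (1 / 2)) = 0 := by norm_num
  rw [h, Real.sqrt_zero]
  norm_num

theorem PHI_low (c : ℝ) (h0 : 0 ≤ c) (h1 : c ≤ 1 / 3) : Phi c = c ^ 2 := by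
  unfold Phi
  have h2 : Real.sqrt (c * (1 - 2 * c)) ≤ 1 - 2 * c := by
    apply Real.sqrt_le_iff.mpr
    refine ⟨by linarith, ?_⟩
    nlinarith
  rw [min_eq_left (by linarith)]
  ring

theorem PHI_mid (c : ℝ) (h0 : 1 / 3 ≤ c) (h1 : c ≤ 1 / 2) :
    Phi c = c * (1 - c - Real.sqrt (c * (1 - 2 * c))) ∧ 1 / 9 ≤ Phi c ∧
      31 / 100 ≤ 1 - c - Real.sqrt (c * (1 - 2 * c)) ∧ Phi c ≤ c ^ 2 := by
  have hnn : 0 ≤ c * (1 - 2 * c) := mul_nonneg (by linarith) (by linarith)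
  have hw0 := Real.sqrt_nonneg (c * (1 - 2 * c))
  have hw2 := Real.sq_sqrt hnn
  have e1 : Phi c = c * (1 - c - Real.sqrt (c * (1 - 2 * c))) := by
    unfold Phi
    have h2 : 1 - 2 * c ≤ Real.sqrt (c * (1 - 2 * c)) := by
      apply Real.le_sqrt_of_sq_le
      nlinarith
    rw [min_eq_right (by linarith)]
  refine ⟨e1, ?_, ?_, ?_⟩
  · rw [e1]
    set w := Real.sqrt (c * (1 - 2 * c)) with hw
    have h3 : 9 * c * w ≤ 9 * c * (1 - c) - 1 := by
      apply le_of_sq_le_sq _ (by nlinarith)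
      have e : (9 * c * w) ^ 2 = 81 * c ^ 2 * (c * (1 - 2 * c)) := by
        rw [← hw2]; ring
      rw [e]
      have h4 : 0 ≤ (3 * c - 1) * (81 * c ^ 3 - 54 * c ^ 2 + 15 * c - 1) := by
        apply mul_nonneg (by linarith)
        nlinarith [sq_nonneg (c - 1 / 3), mul_nonneg (sub_nonneg.mpr h0) (sq_nonneg (c - 1 / 3))]
      nlinarith
    nlinarith
  · have h3 : Real.sqrt (c * (1 - 2 * c)) ≤ 69 / 100 - c := by
      apply Real.sqrt_le_iff.mpr
      refine ⟨by linarith, ?_⟩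
      nlinarith [sq_nonneg (c - 119 / 300)]
    linarith
  · unfold Phi
    have : min c (1 - c - Real.sqrt (c * (1 - 2 * c))) ≤ c := min_le_left _ _
    nlinarith

theorem stmt_PHI : Stmt_PHI := by
  refine ⟨PHI_cont, PHI_half, PHI_low, PHI_mid, ?_⟩
  intro c h0 h1
  by_cases h : c ≤ 1 / 3
  · rw [PHI_low c (by linarith) h]
    nlinarith
  · have := (PHI_mid c (by linarith) h1).2.1
    linarith

end Pool.Agent.Work.MP_1ce445_lin
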