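import Mathlib

/-!
The constants of the asymptotic bounds for the maximal product of total domination numbers.
-/

namespace Pool.Agent.Work.MP_1ce445_lin

/-- For `1/2 < c < 1` this is the integer `m ≥ 2` with `1 - 1/m < c ≤ 1 - 1/(m+1)`. -/
noncomputable def level (c : ℝ) : ℕ := ⌈1 / (1 - c)⌉₊ - 1

/-- The constant in the lower bound at density `c`: `c * min c (1 - c - √(c (1 - 2 c)))` for
`c ≤ 1/2`, and `(1 - 1/m)^m` for `1 - 1/m < c ≤ 1 - 1/(m+1)`, `m ≥ 2`. -/
noncomputable def low (c : ℝ) : ℝ :=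
  if c ≤ 1 / 2 then c * min c (1 - c - Real.sqrt (c * (1 - 2 * c)))
  else (1 - 1 / (level c : ℝ)) ^ level c

/-- The constant in the upper bound at density `c`: equal to `low c` for `c ≤ 1/2`, and
`max ((1 - 1/m)^m) (c^(m+1))` for `1 - 1/m < c ≤ 1 - 1/(m+1)`, `m ≥ 2`. -/
noncomputable def up (c : ℝ) : ℝ :=
  if c ≤ 1 / 2 then low c else max (low c) (c ^ (level c + 1))

end Pool.Agent.Work.MP_1ce445_lin
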